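import Pool.Agent.P.MP_2f98db_ag.Car

/-!
The exponential model: `N = ℂ[z, 1/ℓ] e^f ℓ^u ⊆ N_U = ℂ[t, z, 1/ℓ] e^f ℓ^u`.
-/

namespace Pool.Agent.P.MP_2f98db_ag

noncomputable section

variable {d n : ℕ} (A : Matrix (Fin (d + 1)) (Fin (n + 1)) ℂ) (u : Fin (n + 1) → ℂ)

def yv (j : Fin (n + 1)) : RatF d n := (ell A j)⁻¹

def OY : Subalgebra ℂ (RatF d n) := Algebra.adjoin ℂ (Set.range (yv A))
def NN : Subalgebra ℂ (RatF d n) := Algebra.adjoin ℂ (Set.range zv ∪ Set.range (yv A))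
def OU : Subalgebra ℂ (RatF d n) := Algebra.adjoin ℂ (Set.range tv ∪ Set.range (yv A))
def NU : Subalgebra ℂ (RatF d n) :=
  Algebra.adjoin ℂ (Set.range tv ∪ Set.range zv ∪ Set.range (yv A))

theorem y_mem_OY (j : Fin (n + 1)) : yv A j ∈ OY A := Algebra.subset_adjoin (by simp)
theorem y_mem_NN (j : Fin (n + 1)) : yv A j ∈ NN A := Algebra.subset_adjoin (by simp)
theorem z_mem_NN (j : Fin (n + 1)) : zv j ∈ NN A := Algebra.subset_adjoin (by simp)
theorem y_mem_OU (j : Fin (n + 1)) : yv A j ∈ OU A := Algebra.subset_adjoin (by simp)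
theorem t_mem_OU (i : Fin (d + 1)) : tv i ∈ OU A := Algebra.subset_adjoin (by simp)
theorem y_mem_NU (j : Fin (n + 1)) : yv A j ∈ NU A := Algebra.subset_adjoin (by simp)
theorem z_mem_NU (j : Fin (n + 1)) : zv j ∈ NU A := Algebra.subset_adjoin (by simp)
theorem t_mem_NU (i : Fin (d + 1)) : tv i ∈ NU A := Algebra.subset_adjoin (by simp)

theorem OY_le_NN : OY A ≤ NN A := Algebra.adjoin_mono Set.subset_union_right
theorem NN_le_NU : NN A ≤ NU A := Algebra.adjoin_mono (by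
  rw [Set.union_assoc]; exact Set.subset_union_right)
theorem OU_le_NU : OU A ≤ NU A := Algebra.adjoin_mono (by
  rintro x (h | h) <;> simp [h])
theorem NU_le_poleRing : NU A ≤ poleRing A := Algebra.adjoin_mono Set.subset_union_left

theorem ell_mem_OU (j : Fin (n + 1)) : ell A j ∈ OU A :=
  Subalgebra.sum_mem _ fun i _ => Subalgebra.smul_mem _ (t_mem_OU A i) _

theorem ff_eq : ff A = ∑ j, zv j * yv A j := by simp [ff, yv, div_eq_mul_inv]

theorem ff_mem_NN : ff A ∈ NN A := by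
  rw [ff_eq]; exact Subalgebra.sum_mem _ fun j _ => mul_mem (z_mem_NN A j) (y_mem_NN A j)

theorem deriv_mem_adjoin (D : Derivation ℂ (RatF d n) (RatF d n)) {s : Set (RatF d n)}
    (h : ∀ x ∈ s, D x ∈ Algebra.adjoin ℂ s) {g : RatF d n} (hg : g ∈ Algebra.adjoin ℂ s) :
    D g ∈ Algebra.adjoin ℂ s := by
  induction hg using Algebra.adjoin_induction with
  | mem x hx => exact h x hx
  | algebraMap c => simp
  | add x y _ _ hx hy => rw [map_add]; exact add_mem hx hy
  | mul x y hx' hy' hx hy =>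
    rw [Derivation.leibniz]; exact add_mem (mul_mem hx' hy) (mul_mem hy' hx)

theorem deriv_eq_zero_adjoin (D : Derivation ℂ (RatF d n) (RatF d n)) {s : Set (RatF d n)}
    (h : ∀ x ∈ s, D x = 0) {g : RatF d n} (hg : g ∈ Algebra.adjoin ℂ s) : D g = 0 :=
  Derivation.eqOn_adjoin (D1 := D) (D2 := 0) h hg

theorem pd_z_y (j k : Fin (n + 1)) : pd (.inr j) (yv A k) = 0 := by
  simp [yv, Derivation.leibniz_inv, pd_z_ell]

theorem pd_t_y (i : Fin (d + 1)) (k : Fin (n + 1)) :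
    pd (.inl i) (yv A k) = -(A i k • yv A k ^ 2) := by
  simp [yv, Derivation.leibniz_inv, pd_t_ell, Algebra.smul_def, mul_comm]

theorem pd_t_ff (i : Fin (d + 1)) :
    pd (.inl i) (ff A) = -∑ j, A i j • (zv j * yv A j ^ 2) := by
  simp [ff_eq, pd_t_y, pd_t_zv]

theorem pd_z_ff' (j : Fin (n + 1)) : pd (.inr j) (ff A) = yv A j := pd_z_ff A j

theorem euler_y (j : Fin (n + 1)) : euler (yv A j) = -yv A j := by
  simp [yv, euler_ell_inv]

theorem pd_t_ff_mem_NN (i : Fin (d + 1)) : pd (.inl i) (ff A) ∈ NN A := by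
  rw [pd_t_ff]
  exact neg_mem (Subalgebra.sum_mem _ fun j _ => Subalgebra.smul_mem _
    (mul_mem (z_mem_NN A j) (pow_mem (y_mem_NN A j) 2)) _)

theorem pd_z_OU (j : Fin (n + 1)) {g : RatF d n} (hg : g ∈ OU A) : pd (.inr j) g = 0 :=
  deriv_eq_zero_adjoin _ (by rintro _ (⟨i, rfl⟩ | ⟨i, rfl⟩); exacts [pd_z_tv j i, pd_z_y A j i]) hg

theorem OY_le_OU : OY A ≤ OU A := Algebra.adjoin_mono Set.subset_union_right

theorem pd_t_mem_OU (i : Fin (d + 1)) {g : RatF d n} (hg : g ∈ OU A) : pd (.inl i) g ∈ OU A := by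
  refine deriv_mem_adjoin _ ?_ hg
  rintro _ (⟨k, rfl⟩ | ⟨k, rfl⟩)
  · rw [pd_t_tv]; split_ifs <;> simp
  · rw [pd_t_y]; exact neg_mem (Subalgebra.smul_mem _ (pow_mem (y_mem_OU A k) 2) _)

theorem pd_mem_NN (v : Fin (d + 1) ⊕ Fin (n + 1)) {g : RatF d n} (hg : g ∈ NN A) :
    pd v g ∈ NN A := by
  refine deriv_mem_adjoin _ ?_ hg
  rcases v with i | j <;> rintro _ (⟨k, rfl⟩ | ⟨k, rfl⟩)
  · simp [pd_t_zv]
  · rw [pd_t_y]; exact neg_mem (Subalgebra.smul_mem _ (pow_mem (y_mem_NN A k) 2) _)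
  · rw [pd_z_zv]; split_ifs <;> simp
  · simp [pd_z_y]

theorem pd_mem_NU (v : Fin (d + 1) ⊕ Fin (n + 1)) {g : RatF d n} (hg : g ∈ NU A) :
    pd v g ∈ NU A := by
  refine deriv_mem_adjoin _ ?_ hg
  rcases v with i | j <;> rintro _ ((⟨k, rfl⟩ | ⟨k, rfl⟩) | ⟨k, rfl⟩)
  · rw [pd_t_tv]; split_ifs <;> simp
  · simp [pd_t_zv]
  · rw [pd_t_y]; exact neg_mem (Subalgebra.smul_mem _ (pow_mem (y_mem_NU A k) 2) _)
  · simp [pd_z_tv]
  · rw [pd_z_zv]; split_ifs <;> simp
  · simp [pd_z_y]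

theorem euler_mem_NN {g : RatF d n} (hg : g ∈ NN A) : euler g ∈ NN A := by
  refine deriv_mem_adjoin _ ?_ hg
  rintro _ (⟨k, rfl⟩ | ⟨k, rfl⟩)
  · simp [euler_zv]
  · rw [euler_y]; exact neg_mem (y_mem_NN A k)

theorem euler_mem_NU {g : RatF d n} (hg : g ∈ NU A) : euler g ∈ NU A := by
  rw [euler_apply]
  exact Subalgebra.sum_mem _ fun i _ => mul_mem (t_mem_NU A i) (pd_mem_NU A _ hg)

theorem euler_pd_t (i : Fin (d + 1)) (g : RatF d n) :
    euler (pd (.inl i) g) = pd (.inl i) (euler g) - pd (.inl i) g := by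
  simp [euler_apply, pd_t_tv, pd_comm (.inl i), Finset.sum_add_distrib]

/-- The exponential action of the Weyl algebra. -/
def rhoE : Weyl n →ₐ[ℂ] Module.End ℂ (RatF d n) :=
  weylRep (yv A) (fun i j => by rw [pd_z_y, pd_z_y])

/-- The power action of the Weyl algebra. -/
def rhoP : Weyl n →ₐ[ℂ] Module.End ℂ (RatF d n) := weylRep (twist A u) (twist_integrable A u)

theorem rhoE_zOp (j : Fin (n + 1)) (g : RatF d n) : rhoE A (zOp j) g = zv j * g :=
  weylRep_zOp _ _ _ _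

theorem rhoE_dOp (j : Fin (n + 1)) (g : RatF d n) :
    rhoE A (dOp j) g = pd (.inr j) g + yv A j * g := weylRep_dOp _ _ _ _

def kap : ℂ := ∑ j, u j

theorem neg_sPar (d : ℕ) : -(sPar d u + (d + 1)) = kap u := by simp [sPar, kap]

theorem twist_eq (j : Fin (n + 1)) : twist A u j = kap u • (yv A j / ff A) := by
  rw [twist, neg_sPar, pd_z_ff']

theorem rhoP_zOp (j : Fin (n + 1)) (g : RatF d n) : rhoP A u (zOp j) g = zv j * g :=
  weylRep_zOp _ _ _ _

theorem rhoP_dOp (j : Fin (n + 1)) (g : RatF d n) :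
    rhoP A u (dOp j) g = pd (.inr j) g + kap u • (yv A j / ff A) * g := by
  rw [← twist_eq]; exact weylRep_dOp _ _ _ _

def uT (i : Fin (d + 1)) : RatF d n := ∑ j, (u j * A i j) • yv A j

theorem uT_eq (i : Fin (d + 1)) : uT A u i = ∑ j, u j • (pd (.inl i) (ell A j) / ell A j) := by
  simp [uT, pd_t_ell, yv, div_eq_mul_inv, Algebra.smul_def, mul_assoc]

theorem uT_mem_OY (i : Fin (d + 1)) : uT A u i ∈ OY A :=
  Subalgebra.sum_mem _ fun j _ => Subalgebra.smul_mem _ (y_mem_OY A j) _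

theorem omegaCoef_eq (i : Fin (d + 1)) :
    omegaCoef A u i = kap u • (pd (.inl i) (ff A) / ff A) + uT A u i := by
  rw [omegaCoef, neg_sPar, uT_eq]

/-- The operator of multiplication. -/
abbrev mu (g : RatF d n) : Module.End ℂ (RatF d n) := LinearMap.mulLeft ℂ g

/-- `∇_i` in the exponential model. -/
def Ne (i : Fin (d + 1)) : Module.End ℂ (RatF d n) :=
  (pd (.inl i)).toLinearMap + mu (pd (.inl i) (ff A) + uT A u i)

/-- `∇_i` in the power model. -/
def Np (i : Fin (d + 1)) : Module.End ℂ (RatF d n) :=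
  (pd (.inl i)).toLinearMap + mu (omegaCoef A u i)

/-- The Lie derivative along the Euler field on forms of degree `r`. -/
def Lop (r : ℤ) : Module.End ℂ (RatF d n) :=
  euler.toLinearMap + ((r : ℂ) + kap u) • (1 : Module.End ℂ (RatF d n)) - mu (ff A)

theorem Ne_apply (i : Fin (d + 1)) (g : RatF d n) :
    Ne A u i g = pd (.inl i) g + (pd (.inl i) (ff A) + uT A u i) * g := rfl

theorem Np_apply (i : Fin (d + 1)) (g : RatF d n) :
    Np A u i g = pd (.inl i) g + omegaCoef A u i * g := rfl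

theorem Lop_apply (r : ℤ) (g : RatF d n) :
    Lop A u r g = euler g + ((r : ℂ) + kap u) • g - ff A * g := rfl

theorem Ne_comm (i j : Fin (d + 1)) : Ne A u i * Ne A u j = Ne A u j * Ne A u i := by
  have h : pd (.inl i) (uT A u j) = pd (.inl j) (uT A u i) := by
    simp only [uT_eq, map_sum, Derivation.map_smul, pd_logDeriv_comm (.inl i) (.inl j)]
  ext g
  simp only [Module.End.mul_apply, Ne_apply, map_add, Derivation.leibniz, smul_eq_mul, h,
    pd_comm (.inl i) (.inl j)]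
  ring

theorem Ne_mem_NN (i : Fin (d + 1)) {g : RatF d n} (hg : g ∈ NN A) : Ne A u i g ∈ NN A :=
  add_mem (pd_mem_NN A _ hg)
    (mul_mem (add_mem (pd_t_ff_mem_NN A i) (OY_le_NN A (uT_mem_OY A u i))) hg)

theorem Ne_mem_NU (i : Fin (d + 1)) {g : RatF d n} (hg : g ∈ NU A) : Ne A u i g ∈ NU A :=
  add_mem (pd_mem_NU A _ hg)
    (mul_mem (NN_le_NU A (add_mem (pd_t_ff_mem_NN A i) (OY_le_NN A (uT_mem_OY A u i)))) hg)

theorem Lop_mem_NN (r : ℤ) {g : RatF d n} (hg : g ∈ NN A) : Lop A u r g ∈ NN A :=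
  sub_mem (add_mem (euler_mem_NN A hg) (Subalgebra.smul_mem _ hg _)) (mul_mem (ff_mem_NN A) hg)

theorem Lop_mem_NU (r : ℤ) {g : RatF d n} (hg : g ∈ NU A) : Lop A u r g ∈ NU A :=
  sub_mem (add_mem (euler_mem_NU A hg) (Subalgebra.smul_mem _ hg _))
    (mul_mem (NN_le_NU A (ff_mem_NN A)) hg)

theorem rhoE_mem {W : Submodule ℂ (RatF d n)} (hz : ∀ j, ∀ g ∈ W, zv j * g ∈ W)
    (hd : ∀ j, ∀ g ∈ W, pd (.inr j) g + yv A j * g ∈ W) (P : Weyl n) {g : RatF d n}
    (hg : g ∈ W) : rhoE A P g ∈ W := by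
  induction P using weyl_induction generalizing g with
  | hc a => rw [AlgHom.commutes, Module.algebraMap_end_apply]; exact W.smul_mem a hg
  | hz j => rw [rhoE_zOp]; exact hz j g hg
  | hd j => rw [rhoE_dOp]; exact hd j g hg
  | hmul P Q hP hQ => rw [map_mul]; exact hP (hQ hg)
  | hadd P Q hP hQ => rw [map_add]; exact W.add_mem (hP hg) (hQ hg)

theorem rhoE_mem_NN (P : Weyl n) {g : RatF d n} (hg : g ∈ NN A) : rhoE A P g ∈ NN A :=
  rhoE_mem A (W := (NN A).toSubmodule) (fun j _ hg => (NN A).mul_mem (z_mem_NN A j) hg)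
    (fun j _ hg => (NN A).add_mem (pd_mem_NN A _ hg) ((NN A).mul_mem (y_mem_NN A j) hg)) P hg

theorem rhoE_mem_NU (P : Weyl n) {g : RatF d n} (hg : g ∈ NU A) : rhoE A P g ∈ NU A :=
  rhoE_mem A (W := (NU A).toSubmodule) (fun j _ hg => (NU A).mul_mem (z_mem_NU A j) hg)
    (fun j _ hg => (NU A).add_mem (pd_mem_NU A _ hg) ((NU A).mul_mem (y_mem_NU A j) hg)) P hg

theorem Ne_rhoE (i : Fin (d + 1)) (P : Weyl n) (g : RatF d n) :
    Ne A u i (rhoE A P g) = rhoE A P (Ne A u i g) := by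
  refine weylRep_comm _ _ (Ne A u i) (fun j g => ?_) (fun j g => ?_) P g
  · simp only [Ne_apply, Derivation.leibniz, pd_t_zv, smul_eq_mul]; ring
  · have h1 : pd (.inr j) (uT A u i) = 0 := pd_z_OU A j (OY_le_OU A (uT_mem_OY A u i))
    have h2 : pd (.inr j) (pd (.inl i) (ff A)) = pd (.inl i) (yv A j) := by
      rw [pd_comm, pd_z_ff']
    simp only [Ne_apply, Derivation.leibniz, map_add, h1, h2, smul_eq_mul,
      pd_comm (.inl i) (.inr j) g]
    ring

theorem Lop_rhoE (r : ℤ) (P : Weyl n) (g : RatF d n) :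
    Lop A u r (rhoE A P g) = rhoE A P (Lop A u r g) := by
  refine weylRep_comm _ _ (Lop A u r) (fun j g => ?_) (fun j g => ?_) P g
  · simp only [Lop_apply, Derivation.leibniz, euler_zv, smul_eq_mul, Algebra.smul_def]; ring
  · simp only [Lop_apply, Derivation.leibniz, map_add, map_sub, Derivation.map_smul, euler_y,
      euler_pd_z, pd_z_ff', smul_eq_mul]
    simp only [Algebra.smul_def]
    ring

theorem mul_rhoE {a : RatF d n} (ha : a ∈ OU A) (P : Weyl n) (g : RatF d n) :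
    a * rhoE A P g = rhoE A P (a * g) := by
  refine weylRep_comm _ _ (mu a) (fun j g => ?_) (fun j g => ?_) P g
  · simp [mul_left_comm]
  · simp [pd_z_OU A j ha]; ring

variable {A}

theorem ell_mul_y (hl : ∀ j, ell A j ≠ 0) (j : Fin (n + 1)) : ell A j * yv A j = 1 :=
  mul_inv_cancel₀ (hl j)

theorem y_ne_zero (hl : ∀ j, ell A j ≠ 0) (j : Fin (n + 1)) : yv A j ≠ 0 := inv_ne_zero (hl j)

theorem ff_ne_zero (hl : ∀ j, ell A j ≠ 0) : ff A ≠ 0 := fun h => by
  have := pd_z_ff' A 0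
  rw [h, map_zero] at this
  exact y_ne_zero hl 0 this.symm

theorem sum_t_uT (hl : ∀ j, ell A j ≠ 0) : ∑ i, tv i * uT A u i = algebraMap ℂ _ (kap u) := by
  simp only [uT, Finset.mul_sum, kap, map_sum]
  rw [Finset.sum_comm]
  refine Finset.sum_congr rfl fun j _ => ?_
  rw [Algebra.algebraMap_eq_smul_one, ← ell_mul_y hl j, ell, Finset.sum_mul, Finset.smul_sum]
  refine Finset.sum_congr rfl fun i _ => ?_
  simp [mul_smul]

theorem sum_t_Ne (hl : ∀ j, ell A j ≠ 0) : ∑ i, mu (tv i) * Ne A u i = Lop A u 0 := by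
  ext g
  have h1 := euler_ff A
  rw [euler_apply] at h1
  simp only [LinearMap.sum_apply, Module.End.mul_apply, LinearMap.mulLeft_apply, Ne_apply,
    Lop_apply, mul_add, add_mul, Finset.sum_add_distrib, ← mul_assoc, ← Finset.sum_mul, h1,
    sum_t_uT u hl, euler_apply]
  simp only [Algebra.smul_def]
  simp
  ring

/-- Cartan's formula in the exponential model. -/
theorem cartan_e (hl : ∀ j, ell A j ≠ 0) {p : ℤ} {η : VV d n} (hη : Deg p η) :
    dV (Ne A u) (iV (fun i => mu (tv i)) η) + iV (fun i => mu (tv i)) (dV (Ne A u) η) =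
      lift (Lop A u p) η := by
  have h := LinearMap.congr_fun (cartan (Ne A u) (fun i => mu (tv i))) η
  have h2 : ∀ i k, Ne A u i * mu (tv k) - mu (tv k) * Ne A u i = if k = i then 1 else 0 := by
    intro i k
    ext g
    simp only [LinearMap.sub_apply, Module.End.mul_apply, LinearMap.mulLeft_apply, Ne_apply,
      Derivation.leibniz, pd_t_tv, smul_eq_mul]
    split_ifs <;> simp <;> ring
  simp only [h2, apply_ite lift, map_one, map_zero, mul_ite, mul_one, mul_zero,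
    Finset.sum_ite_eq', Finset.mem_univ, if_true, sum_t_Ne u hl] at h
  rw [LinearMap.add_apply, LinearMap.add_apply, hη.number] at h
  refine h.trans (funext fun I => ?_)
  simp only [Pi.add_apply, Pi.smul_apply, lift_apply, Lop_apply, add_smul]
  simp
  ring

theorem sum_Ne_t (hl : ∀ j, ell A j ≠ 0) (g : RatF d n) :
    ∑ i, Ne A u i (tv i * g) = Lop A u (d + 1) g := by
  have h := LinearMap.congr_fun (sum_t_Ne u hl) g
  simp only [LinearMap.sum_apply, Module.End.mul_apply, LinearMap.mulLeft_apply] at h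
  have h2 : ∀ i, Ne A u i (tv i * g) = g + tv i * Ne A u i g := fun i => by
    simp only [Ne_apply, Derivation.leibniz, pd_t_tv, smul_eq_mul, if_true]; ring
  simp only [h2, Finset.sum_add_distrib, h, Lop_apply]
  simp [add_smul, Nat.cast_smul_eq_nsmul, add_nsmul]
  ring

end

end Pool.Agent.P.MP_2f98db_ag
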