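import Pool.Agent.P.MP_2f98db_ag.Setup

/-!
Creation and annihilation operators on families of coefficients indexed by finite sets.
-/

namespace Pool.Agent.P.MP_2f98db_ag

noncomputable section

variable {d n : ℕ}

abbrev VV (d n : ℕ) : Type := Finset (Fin (d + 1)) → RatF d n

theorem sgn_insert {i j : Fin (d + 1)} {I : Finset (Fin (d + 1))} (hj : j ∉ I) :
    sgn i (insert j I) = (if j < i then -1 else 1) * sgn i I := by
  unfold sgn
  rw [Finset.filter_insert]
  split_ifs with h
  · rw [Finset.card_insert_of_notMem (by simp [hj]), pow_succ]; ring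
  · simp

theorem sgn_erase {i j : Fin (d + 1)} {I : Finset (Fin (d + 1))} (hj : j ∈ I) :
    sgn i (I.erase j) = (if j < i then -1 else 1) * sgn i I := by
  have h := sgn_insert (i := i) (Finset.notMem_erase j I)
  rw [Finset.insert_erase hj] at h
  rw [h]; split_ifs <;> ring

theorem sgn_mul_self (i : Fin (d + 1)) (I : Finset (Fin (d + 1))) : sgn i I * sgn i I = 1 := by
  unfold sgn
  rw [← pow_add, ← two_mul, pow_mul]; simp

def cre (i : Fin (d + 1)) : Module.End ℂ (VV d n) where
  toFun η I := if i ∈ I then sgn i I • η (I.erase i) else 0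
  map_add' η η' := by funext I; by_cases h : i ∈ I <;> simp [h]
  map_smul' c η := by funext I; by_cases h : i ∈ I <;> simp [h, smul_comm c]

def ann (i : Fin (d + 1)) : Module.End ℂ (VV d n) where
  toFun η I := if i ∈ I then 0 else sgn i I • η (insert i I)
  map_add' η η' := by funext I; by_cases h : i ∈ I <;> simp [h]
  map_smul' c η := by funext I; by_cases h : i ∈ I <;> simp [h, smul_comm c]

theorem cre_apply (i : Fin (d + 1)) (η : VV d n) (I : Finset (Fin (d + 1))) :
    cre i η I = if i ∈ I then sgn i I • η (I.erase i) else 0 := rfl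

theorem ann_apply (i : Fin (d + 1)) (η : VV d n) (I : Finset (Fin (d + 1))) :
    ann i η I = if i ∈ I then 0 else sgn i I • η (insert i I) := rfl

/-- Coefficientwise action. -/
def lift : Module.End ℂ (RatF d n) →ₐ[ℂ] Module.End ℂ (VV d n) where
  toFun T := T.compLeft _
  map_one' := rfl
  map_mul' _ _ := rfl
  map_zero' := rfl
  map_add' _ _ := rfl
  commutes' _ := rfl

@[simp] theorem lift_apply (T : Module.End ℂ (RatF d n)) (η : VV d n)
    (I : Finset (Fin (d + 1))) : lift T η I = T (η I) := rfl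

theorem lift_cre (T : Module.End ℂ (RatF d n)) (i : Fin (d + 1)) :
    lift T * cre i = cre i * lift T := by
  refine LinearMap.ext fun η => funext fun I => ?_
  by_cases h : i ∈ I <;> simp [cre_apply, h]

theorem lift_ann (T : Module.End ℂ (RatF d n)) (i : Fin (d + 1)) :
    lift T * ann i = ann i * lift T := by
  refine LinearMap.ext fun η => funext fun I => ?_
  by_cases h : i ∈ I <;> simp [ann_apply, h]

theorem cre_cre (i j : Fin (d + 1)) :
    (cre i * cre j + cre j * cre i : Module.End ℂ (VV d n)) = 0 := by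
  refine LinearMap.ext fun η => funext fun I => ?_
  simp only [LinearMap.add_apply, Module.End.mul_apply, Pi.add_apply, cre_apply,
    Finset.mem_erase, LinearMap.zero_apply, Pi.zero_apply]
  rcases eq_or_ne i j with rfl | hij
  · simp
  by_cases hi : i ∈ I <;> by_cases hj : j ∈ I <;> simp only [hi, hj, hij, hij.symm, ne_eq,
    not_false_eq_true, true_and, if_true, if_false, and_false, smul_zero, add_zero]
  rw [sgn_erase hi, sgn_erase hj, Finset.erase_right_comm, smul_smul, smul_smul, ← add_smul]
  rcases lt_or_gt_of_ne hij with h | h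
  · simp [h, h.not_gt, mul_comm]
  · simp [h, h.not_gt, mul_comm]

theorem ann_ann (i j : Fin (d + 1)) :
    (ann i * ann j + ann j * ann i : Module.End ℂ (VV d n)) = 0 := by
  refine LinearMap.ext fun η => funext fun I => ?_
  simp only [LinearMap.add_apply, Module.End.mul_apply, Pi.add_apply, ann_apply,
    Finset.mem_insert, LinearMap.zero_apply, Pi.zero_apply]
  rcases eq_or_ne i j with rfl | hij
  · simp
  by_cases hi : i ∈ I <;> by_cases hj : j ∈ I <;> simp only [hi, hj, hij, hij.symm, ne_eq,
    not_false_eq_true, or_true, if_true, if_false, or_false, smul_zero, add_zero]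
  rw [sgn_insert hi, sgn_insert hj, Finset.insert_comm, smul_smul, smul_smul, ← add_smul]
  rcases lt_or_gt_of_ne hij with h | h
  · simp [h, h.not_gt, mul_comm]
  · simp [h, h.not_gt, mul_comm]

theorem cre_ann_self (i : Fin (d + 1)) (η : VV d n) (I : Finset (Fin (d + 1))) :
    cre i (ann i η) I = if i ∈ I then η I else 0 := by
  by_cases hi : i ∈ I
  · simp [cre_apply, ann_apply, hi, sgn_erase hi, smul_smul, sgn_mul_self]
  · simp [cre_apply, hi]

theorem ann_cre (i j : Fin (d + 1)) :
    (ann i * cre j + cre j * ann i : Module.End ℂ (VV d n)) = if i = j then 1 else 0 := by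
  refine LinearMap.ext fun η => funext fun I => ?_
  rcases eq_or_ne i j with rfl | hij
  · simp only [LinearMap.add_apply, Module.End.mul_apply, Pi.add_apply, cre_ann_self, if_true,
      Module.End.one_apply]
    by_cases hi : i ∈ I
    · simp [ann_apply, hi]
    · simp [ann_apply, cre_apply, hi, sgn_insert hi, smul_smul, sgn_mul_self]
  simp only [LinearMap.add_apply, Module.End.mul_apply, Pi.add_apply, ann_apply, cre_apply,
    Finset.mem_insert, Finset.mem_erase, hij, if_false, LinearMap.zero_apply, Pi.zero_apply]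
  by_cases hi : i ∈ I <;> by_cases hj : j ∈ I <;> simp only [hi, hj, hij, hij.symm, ne_eq,
    not_false_eq_true, or_true, if_true, if_false, or_false, smul_zero, add_zero, true_and,
    and_false, false_or, zero_add]
  rw [sgn_insert hi, sgn_erase hj, Finset.erase_insert_of_ne hij, smul_smul, smul_smul,
    ← add_smul]
  rcases lt_or_gt_of_ne hij with h | h
  · simp [h, h.not_gt, mul_comm]
  · simp [h, h.not_gt, mul_comm]

/-- `∑ dt_i ∧ S_i`. -/
def dV (S : Fin (d + 1) → Module.End ℂ (RatF d n)) : Module.End ℂ (VV d n) :=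
  ∑ i, cre i * lift (S i)

/-- `∑ ι_i T_i`. -/
def iV (T : Fin (d + 1) → Module.End ℂ (RatF d n)) : Module.End ℂ (VV d n) :=
  ∑ i, ann i * lift (T i)

theorem dV_apply (S : Fin (d + 1) → Module.End ℂ (RatF d n)) (η : VV d n)
    (I : Finset (Fin (d + 1))) : dV S η I = ∑ i ∈ I, sgn i I • S i (η (I.erase i)) := by
  simp only [dV, LinearMap.sum_apply, Finset.sum_apply, Module.End.mul_apply, cre_apply,
    lift_apply]
  rw [← Finset.sum_filter]
  simp

theorem iV_apply (T : Fin (d + 1) → Module.End ℂ (RatF d n)) (η : VV d n)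
    (I : Finset (Fin (d + 1))) : iV T η I = ∑ i ∈ Iᶜ, sgn i I • T i (η (insert i I)) := by
  simp only [iV, LinearMap.sum_apply, Finset.sum_apply, Module.End.mul_apply, ann_apply,
    lift_apply]
  rw [← Finset.sum_compl_add_sum I]
  rw [Finset.sum_eq_zero (s := I) (fun i hi => by simp [hi]), add_zero]
  exact Finset.sum_congr rfl fun i hi => by simp [Finset.mem_compl.1 hi]

theorem sum_sq_zero (c : Fin (d + 1) → Module.End ℂ (VV d n))
    (hc : ∀ i j, c i * c j + c j * c i = 0) (hl : ∀ T i, lift T * c i = c i * lift T)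
    (S : Fin (d + 1) → Module.End ℂ (RatF d n)) (hS : ∀ i j, S i * S j = S j * S i) :
    (∑ i, c i * lift (S i)) * (∑ i, c i * lift (S i)) = 0 := by
  have h1 : (∑ i, c i * lift (S i)) * (∑ i, c i * lift (S i)) =
      ∑ i, ∑ j, c i * c j * lift (S i * S j) := by
    rw [Finset.sum_mul_sum]
    refine Finset.sum_congr rfl fun i _ => Finset.sum_congr rfl fun j _ => ?_
    rw [map_mul, mul_assoc, ← mul_assoc (lift (S i)), hl, mul_assoc, mul_assoc]
  have h2 : (∑ i, ∑ j, c i * c j * lift (S i * S j)) =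
      ∑ i, ∑ j, c j * c i * lift (S i * S j) := by
    rw [Finset.sum_comm]
    refine Finset.sum_congr rfl fun i _ => Finset.sum_congr rfl fun j _ => by rw [hS]
  have h3 : (2 : ℂ) • ((∑ i, c i * lift (S i)) * (∑ i, c i * lift (S i))) = 0 := by
    rw [two_smul, h1]
    nth_rewrite 2 [h2]
    rw [← Finset.sum_add_distrib]
    refine Finset.sum_eq_zero fun i _ => ?_
    rw [← Finset.sum_add_distrib]
    refine Finset.sum_eq_zero fun j _ => ?_
    rw [← add_mul, hc, zero_mul]
  exact (smul_eq_zero.1 h3).resolve_left two_ne_zero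

theorem dV_dV (S : Fin (d + 1) → Module.End ℂ (RatF d n)) (hS : ∀ i j, S i * S j = S j * S i) :
    dV S * dV S = 0 := sum_sq_zero _ cre_cre lift_cre S hS

theorem iV_iV (S : Fin (d + 1) → Module.End ℂ (RatF d n)) (hS : ∀ i j, S i * S j = S j * S i) :
    iV S * iV S = 0 := sum_sq_zero _ ann_ann lift_ann S hS

theorem cartan (S T : Fin (d + 1) → Module.End ℂ (RatF d n)) :
    dV S * iV T + iV T * dV S =
      ∑ i, ∑ k, cre i * ann k * lift (S i * T k - T k * S i) + lift (∑ i, T i * S i) := by
  have h1 : dV S * iV T = ∑ i, ∑ k, cre i * ann k * lift (S i * T k) := by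
    rw [dV, iV, Finset.sum_mul_sum]
    refine Finset.sum_congr rfl fun i _ => Finset.sum_congr rfl fun j _ => ?_
    rw [map_mul, mul_assoc, ← mul_assoc (lift (S i)), lift_ann, mul_assoc, mul_assoc]
  have h2 : iV T * dV S = ∑ i, ∑ k, ann k * cre i * lift (T k * S i) := by
    rw [dV, iV, Finset.sum_mul_sum, Finset.sum_comm]
    refine Finset.sum_congr rfl fun i _ => Finset.sum_congr rfl fun j _ => ?_
    rw [map_mul, mul_assoc, ← mul_assoc (lift (T j)), lift_cre, mul_assoc, mul_assoc]
  rw [h1, h2, map_sum, ← Finset.sum_add_distrib, ← Finset.sum_add_distrib]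
  refine Finset.sum_congr rfl fun i _ => ?_
  have h3 : lift (T i * S i) = ∑ k, (if k = i then 1 else 0) * lift (T k * S i) := by simp
  rw [h3, ← Finset.sum_add_distrib, ← Finset.sum_add_distrib]
  refine Finset.sum_congr rfl fun k _ => ?_
  rw [← ann_cre, map_sub, mul_sub, add_mul]
  abel

/-- The number operator. -/
theorem number_apply (η : VV d n) (I : Finset (Fin (d + 1))) :
    (∑ i, cre i * ann i : Module.End ℂ (VV d n)) η I = (I.card : ℂ) • η I := by
  simp only [LinearMap.sum_apply, Finset.sum_apply, Module.End.mul_apply, cre_ann_self]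
  rw [← Finset.sum_filter]
  simp [Nat.cast_smul_eq_nsmul]

/-- Forms of pure degree `p`. -/
def Deg (p : ℤ) (η : VV d n) : Prop := ∀ I : Finset (Fin (d + 1)), (I.card : ℤ) ≠ p → η I = 0

theorem Deg.dV {p : ℤ} {η : VV d n} (h : Deg p η) (S : Fin (d + 1) → Module.End ℂ (RatF d n)) :
    Deg (p + 1) (dV S η) := by
  intro I hI
  rw [dV_apply]
  refine Finset.sum_eq_zero fun i hi => ?_
  rw [h _ (fun h' => hI ?_), map_zero, smul_zero]
  rw [← h', ← Finset.card_erase_add_one hi]; push_cast; ring

theorem Deg.iV {p : ℤ} {η : VV d n} (h : Deg p η) (S : Fin (d + 1) → Module.End ℂ (RatF d n)) :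
    Deg (p - 1) (iV S η) := by
  intro I hI
  rw [iV_apply]
  refine Finset.sum_eq_zero fun i hi => ?_
  rw [h _ (fun h' => hI ?_), map_zero, smul_zero]
  rw [← h', Finset.card_insert_of_notMem (Finset.mem_compl.1 hi)]; push_cast; ring

theorem Deg.lift {p : ℤ} {η : VV d n} (h : Deg p η) (T : Module.End ℂ (RatF d n)) :
    Deg p (lift T η) := fun I hI => by rw [lift_apply, h I hI, map_zero]

theorem Deg.sub {p : ℤ} {η η' : VV d n} (h : Deg p η) (h' : Deg p η') : Deg p (η - η') :=
  fun I hI => by rw [Pi.sub_apply, h I hI, h' I hI, sub_zero]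

theorem Deg.add {p : ℤ} {η η' : VV d n} (h : Deg p η) (h' : Deg p η') : Deg p (η + η') :=
  fun I hI => by rw [Pi.add_apply, h I hI, h' I hI, add_zero]

theorem Deg.neg {p : ℤ} {η : VV d n} (h : Deg p η) : Deg p (-η) :=
  fun I hI => by rw [Pi.neg_apply, h I hI, neg_zero]

theorem Deg.smul {p : ℤ} {η : VV d n} (h : Deg p η) (c : ℂ) : Deg p (c • η) :=
  fun I hI => by rw [Pi.smul_apply, h I hI, smul_zero]

theorem Deg.number {p : ℤ} {η : VV d n} (h : Deg p η) :
    (∑ i, cre i * ann i : Module.End ℂ (VV d n)) η = (p : ℂ) • η := by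
  funext I
  rw [number_apply, Pi.smul_apply]
  by_cases hI : (I.card : ℤ) = p
  · rw [← hI]; simp
  · rw [h I hI]; simp

/-- Coefficients in a given subspace. -/
def In (W : Submodule ℂ (RatF d n)) (η : VV d n) : Prop := ∀ I, η I ∈ W

theorem In.dV {W W' : Submodule ℂ (RatF d n)} {η : VV d n} (h : In W η)
    {S : Fin (d + 1) → Module.End ℂ (RatF d n)} (hS : ∀ i, ∀ g ∈ W, S i g ∈ W') :
    In W' (dV S η) := fun I => by
  rw [dV_apply]
  exact Submodule.sum_mem _ fun i _ => Submodule.smul_mem _ _ (hS i _ (h _))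

theorem In.iV {W W' : Submodule ℂ (RatF d n)} {η : VV d n} (h : In W η)
    {S : Fin (d + 1) → Module.End ℂ (RatF d n)} (hS : ∀ i, ∀ g ∈ W, S i g ∈ W') :
    In W' (iV S η) := fun I => by
  rw [iV_apply]
  exact Submodule.sum_mem _ fun i _ => Submodule.smul_mem _ _ (hS i _ (h _))

theorem lift_dV {W : Submodule ℂ (RatF d n)} {η : VV d n} (h : In W η)
    {S S' : Fin (d + 1) → Module.End ℂ (RatF d n)} {G G' : Module.End ℂ (RatF d n)}
    (hS : ∀ i, ∀ g ∈ W, G' (S i g) = S' i (G g)) : lift G' (dV S η) = dV S' (lift G η) := by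
  funext I
  rw [lift_apply, dV_apply, dV_apply, map_sum]
  exact Finset.sum_congr rfl fun i _ => by rw [map_smul, hS i _ (h _), lift_apply]

theorem lift_iV {W : Submodule ℂ (RatF d n)} {η : VV d n} (h : In W η)
    {S S' : Fin (d + 1) → Module.End ℂ (RatF d n)} {G G' : Module.End ℂ (RatF d n)}
    (hS : ∀ i, ∀ g ∈ W, G' (S i g) = S' i (G g)) : lift G' (iV S η) = iV S' (lift G η) := by
  funext I
  rw [lift_apply, iV_apply, iV_apply, map_sum]
  exact Finset.sum_congr rfl fun i _ => by rw [map_smul, hS i _ (h _), lift_apply]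

end

end Pool.Agent.P.MP_2f98db_ag
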