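import Pool.Agent.P.MP_2f98db_ag.Basic

/-!
Exactness of the exponential de Rham complex below the top degree.
-/

namespace Pool.Agent.P.MP_2f98db_ag

noncomputable section

variable {d n : ℕ} (A : Matrix (Fin (d + 1)) (Fin (n + 1)) ℂ)

/-- `FF A (M + 1)` is the space of elements of `N_U` of degree at most `M` in `z`. -/
def FF : ℕ → Submodule ℂ (RatF d n)
  | 0 => ⊥
  | M + 1 => (OU A).toSubmodule ⊔ ⨆ j, (FF M).map (mu (zv j))

variable {A}

theorem FF_induction {M : ℕ} {motive : RatF d n → Prop} {g : RatF d n} (hg : g ∈ FF A (M + 1))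
    (h1 : ∀ a ∈ OU A, motive a) (h2 : ∀ j, ∀ a ∈ FF A M, motive (zv j * a))
    (add : ∀ a b, motive a → motive b → motive (a + b)) : motive g := by
  obtain ⟨a, ha, b, hb, rfl⟩ := Submodule.mem_sup.1 hg
  refine add _ _ (h1 a ha) ?_
  refine Submodule.iSup_induction _ (motive := motive) hb ?_ (h1 0 (zero_mem _)) add
  rintro j _ ⟨x, hx, rfl⟩
  exact h2 j x hx

theorem OU_mem_FF {M : ℕ} {g : RatF d n} (hg : g ∈ OU A) : g ∈ FF A (M + 1) :=
  Submodule.mem_sup_left hg

theorem z_mul_mem_FF {M : ℕ} (j : Fin (n + 1)) {g : RatF d n} (hg : g ∈ FF A M) :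
    zv j * g ∈ FF A (M + 1) :=
  Submodule.mem_sup_right (Submodule.mem_iSup_of_mem j ⟨g, hg, rfl⟩)

theorem FF_mono : Monotone (FF A) := by
  refine monotone_nat_of_le_succ fun M => ?_
  induction M with
  | zero => exact bot_le
  | succ M ih => exact sup_le_sup_left (iSup_mono fun j => Submodule.map_mono ih) _

theorem OU_mul_mem_FF {M : ℕ} {a g : RatF d n} (ha : a ∈ OU A) (hg : g ∈ FF A M) :
    a * g ∈ FF A M := by
  induction M generalizing g with
  | zero => rw [(Submodule.mem_bot ℂ).1 hg, mul_zero]; exact zero_mem _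
  | succ M ih =>
    refine FF_induction (motive := fun g => a * g ∈ FF A (M + 1)) hg
      (fun b hb => OU_mem_FF (mul_mem ha hb)) (fun j b hb => ?_)
      (fun x y hx hy => by rw [mul_add]; exact add_mem hx hy)
    rw [mul_left_comm]; exact z_mul_mem_FF j (ih hb)

theorem FF_mul {M M' : ℕ} {g h : RatF d n} (hg : g ∈ FF A (M + 1)) (hh : h ∈ FF A M') :
    g * h ∈ FF A (M + M') := by
  induction M generalizing g with
  | zero =>
    refine FF_induction (motive := fun g => g * h ∈ FF A (0 + M')) hg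
      (fun b hb => FF_mono (by omega) (OU_mul_mem_FF hb hh)) (fun j b hb => ?_)
      (fun x y hx hy => by rw [add_mul]; exact add_mem hx hy)
    rw [(Submodule.mem_bot ℂ).1 hb]; simp
  | succ M ih =>
    refine FF_induction (motive := fun g => g * h ∈ FF A (M + 1 + M')) hg
      (fun b hb => FF_mono (by omega) (OU_mul_mem_FF hb hh)) (fun j b hb => ?_)
      (fun x y hx hy => by rw [add_mul]; exact add_mem hx hy)
    rw [mul_assoc, show M + 1 + M' = M + M' + 1 by omega]
    exact z_mul_mem_FF j (ih hb)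

theorem z_mem_FF (j : Fin (n + 1)) : zv j ∈ FF A 2 := by
  simpa using z_mul_mem_FF j (OU_mem_FF (M := 0) (one_mem (OU A)))

theorem exists_mem_FF {g : RatF d n} (hg : g ∈ NU A) : ∃ M, g ∈ FF A M := by
  induction hg using Algebra.adjoin_induction with
  | mem x hx =>
    rcases hx with (⟨i, rfl⟩ | ⟨i, rfl⟩) | ⟨i, rfl⟩
    exacts [⟨1, OU_mem_FF (t_mem_OU A i)⟩, ⟨2, z_mem_FF i⟩, ⟨1, OU_mem_FF (y_mem_OU A i)⟩]
  | algebraMap c => exact ⟨1, OU_mem_FF (Subalgebra.algebraMap_mem _ c)⟩
  | add x y _ _ hx hy =>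
    obtain ⟨a, ha⟩ := hx
    obtain ⟨b, hb⟩ := hy
    exact ⟨a + b, add_mem (FF_mono (by omega) ha) (FF_mono (by omega) hb)⟩
  | mul x y _ _ hx hy =>
    obtain ⟨a, ha⟩ := hx
    obtain ⟨b, hb⟩ := hy
    exact ⟨a + b, FF_mul (FF_mono (by omega) ha) hb⟩

theorem pd_t_mem_FF (i : Fin (d + 1)) {M : ℕ} {g : RatF d n} (hg : g ∈ FF A M) :
    pd (.inl i) g ∈ FF A M := by
  induction M generalizing g with
  | zero => rw [(Submodule.mem_bot ℂ).1 hg, map_zero]; exact zero_mem _
  | succ M ih =>
    refine FF_induction (motive := fun g => pd (.inl i) g ∈ FF A (M + 1)) hg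
      (fun b hb => OU_mem_FF (pd_t_mem_OU A i hb)) (fun j b hb => ?_)
      (fun x y hx hy => by rw [map_add]; exact add_mem hx hy)
    rw [Derivation.leibniz, pd_t_zv, smul_zero, add_zero]
    exact z_mul_mem_FF j (ih hb)

theorem pd_z_mem_FF (k : Fin (n + 1)) {M : ℕ} {g : RatF d n} (hg : g ∈ FF A (M + 1)) :
    pd (.inr k) g ∈ FF A M := by
  induction M generalizing g with
  | zero =>
    refine FF_induction (motive := fun g => pd (.inr k) g ∈ FF A 0) hg
      (fun b hb => by rw [pd_z_OU A k hb]; exact zero_mem _) (fun j b hb => ?_)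
      (fun x y hx hy => by rw [map_add]; exact add_mem hx hy)
    rw [(Submodule.mem_bot ℂ).1 hb]; simp
  | succ M ih =>
    refine FF_induction (motive := fun g => pd (.inr k) g ∈ FF A (M + 1)) hg
      (fun b hb => by rw [pd_z_OU A k hb]; exact zero_mem _) (fun j b hb => ?_)
      (fun x y hx hy => by rw [map_add]; exact add_mem hx hy)
    rw [Derivation.leibniz, pd_z_zv]
    refine add_mem (z_mul_mem_FF j (ih hb)) ?_
    split_ifs
    · simpa using hb
    · simp

theorem pd_t_ff_mem_FF (i : Fin (d + 1)) : pd (.inl i) (ff A) ∈ FF A 2 := by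
  rw [pd_t_ff]
  exact neg_mem (Submodule.sum_mem _ fun j _ => Submodule.smul_mem _ _
    (z_mul_mem_FF j (OU_mem_FF (pow_mem (y_mem_OU A j) 2))))

theorem derivation_sum_apply {ι : Type*} (s : Finset ι)
    (D : ι → Derivation ℂ (RatF d n) (RatF d n)) (g : RatF d n) :
    (∑ i ∈ s, D i) g = ∑ i ∈ s, D i g := by
  have := congrFun (map_sum Derivation.coeFnAddMonoidHom D s) g
  rw [Finset.sum_apply] at this
  exact this

section homotopy

variable (A) (B : Matrix (Fin (n + 1)) (Fin (d + 1)) ℂ)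

def del (k : Fin (d + 1)) : Derivation ℂ (RatF d n) (RatF d n) :=
  ∑ j, (-(B j k • ell A j ^ 2)) • pd (.inr j)

def theta : Derivation ℂ (RatF d n) (RatF d n) := ∑ k, pd (.inl k) (ff A) • del A B k

variable {A}

theorem del_apply (k : Fin (d + 1)) (g : RatF d n) :
    del A B k g = ∑ j, -(B j k • ell A j ^ 2) * pd (.inr j) g := by
  rw [del, derivation_sum_apply]; rfl

theorem theta_apply (g : RatF d n) : theta A B g = ∑ k, pd (.inl k) (ff A) * del A B k g := by
  rw [theta, derivation_sum_apply]; rfl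

theorem del_OU (k : Fin (d + 1)) {g : RatF d n} (hg : g ∈ OU A) : del A B k g = 0 := by
  simp [del_apply, pd_z_OU A _ hg]

theorem theta_OU {g : RatF d n} (hg : g ∈ OU A) : theta A B g = 0 := by
  simp [theta_apply, del_OU B _ hg]

theorem del_mem_FF (k : Fin (d + 1)) {M : ℕ} {g : RatF d n} (hg : g ∈ FF A (M + 1)) :
    del A B k g ∈ FF A M := by
  rw [del_apply]
  exact Submodule.sum_mem _ fun j _ => OU_mul_mem_FF
    (neg_mem (Subalgebra.smul_mem _ (pow_mem (ell_mem_OU A j) 2) _)) (pd_z_mem_FF j hg)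

theorem del_mem_NU (k : Fin (d + 1)) {g : RatF d n} (hg : g ∈ NU A) : del A B k g ∈ NU A := by
  rw [del_apply]
  exact Subalgebra.sum_mem _ fun j _ => mul_mem (OU_le_NU A
    (neg_mem (Subalgebra.smul_mem _ (pow_mem (ell_mem_OU A j) 2) _))) (pd_mem_NU A _ hg)

theorem theta_mem_FF {M : ℕ} {g : RatF d n} (hg : g ∈ FF A M) : theta A B g ∈ FF A M := by
  cases M with
  | zero => rw [(Submodule.mem_bot ℂ).1 hg, map_zero]; exact zero_mem _
  | succ M =>
    rw [theta_apply]
    refine Submodule.sum_mem _ fun k _ => ?_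
    rw [add_comm M 1]
    exact FF_mul (pd_t_ff_mem_FF k) (del_mem_FF B k hg)

variable {B} (hl : ∀ j, ell A j ≠ 0) (hB : A * B = 1)
include hl hB

theorem del_pd_t_ff (k i : Fin (d + 1)) :
    del A B k (pd (.inl i) (ff A)) = if i = k then 1 else 0 := by
  have h1 : ∀ j, pd (.inr j) (pd (.inl i) (ff A)) = -(A i j • yv A j ^ 2) := fun j => by
    rw [pd_comm, pd_z_ff', pd_t_y]
  have h2 : ∀ j, -(B j k • ell A j ^ 2) * -(A i j • yv A j ^ 2) =
      algebraMap ℂ (RatF d n) (A i j * B j k) := fun j => by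
    rw [neg_mul_neg, smul_mul_smul_comm, ← mul_pow, ell_mul_y hl, one_pow,
      Algebra.algebraMap_eq_smul_one, mul_comm]
  simp only [del_apply, h1, h2]
  rw [← map_sum, ← Matrix.mul_apply, hB, Matrix.one_apply]
  split_ifs <;> simp

theorem theta_pd_t_ff (i : Fin (d + 1)) :
    theta A B (pd (.inl i) (ff A)) = pd (.inl i) (ff A) := by
  simp [theta_apply, del_pd_t_ff hl hB]

theorem theta_theta_z (j : Fin (n + 1)) : theta A B (theta A B (zv j)) = theta A B (zv j) := by
  have h : ∀ k, del A B k (zv j) ∈ OU A := fun k => by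
    simp only [del_apply, pd_z_zv, mul_ite, mul_one, mul_zero, Finset.sum_ite_eq,
      Finset.mem_univ, if_true]
    exact neg_mem (Subalgebra.smul_mem _ (pow_mem (ell_mem_OU A j) 2) _)
  conv_lhs => rw [theta_apply B (zv j), map_sum]
  rw [theta_apply B (zv j)]
  refine Finset.sum_congr rfl fun k _ => ?_
  rw [Derivation.leibniz, theta_OU B (h k), theta_pd_t_ff hl hB]
  simp [mul_comm]

omit hl hB in
/-- Eigenvectors of `theta` in `FF A M`. -/
def TE (A : Matrix (Fin (d + 1)) (Fin (n + 1)) ℂ) (B : Matrix (Fin (n + 1)) (Fin (d + 1)) ℂ)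
    (M i : ℕ) : Submodule ℂ (RatF d n) :=
  FF A M ⊓ Module.End.eigenspace (theta A B).toLinearMap (i : ℂ)

omit hl hB in
theorem mem_TE {M i : ℕ} {g : RatF d n} :
    g ∈ TE A B M i ↔ g ∈ FF A M ∧ theta A B g = (i : ℂ) • g := by
  rw [TE, Submodule.mem_inf, Module.End.mem_eigenspace_iff]; rfl

theorem FF_le_iSup (M : ℕ) : FF A M ≤ ⨆ i, TE A B M i := by
  induction M with
  | zero => exact bot_le
  | succ M ih =>
    intro g hg
    refine FF_induction (motive := fun g => g ∈ ⨆ i, TE A B (M + 1) i) hg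
      (fun b hb => Submodule.mem_iSup_of_mem 0
        (mem_TE.2 ⟨OU_mem_FF hb, by simp [theta_OU B hb]⟩)) (fun j b hb => ?_)
      (fun x y hx hy => add_mem hx hy)
    refine Submodule.iSup_induction _ (motive := fun b => zv j * b ∈ ⨆ i, TE A B (M + 1) i)
      (ih hb) (fun i b hb => ?_) (by simp) (fun x y hx hy => by rw [mul_add]; exact add_mem hx hy)
    obtain ⟨h1, h2⟩ := mem_TE.1 hb
    have hp : theta A B (zv j) * b ∈ FF A (M + 1) := by
      rw [add_comm M 1]; exact FF_mul (theta_mem_FF B (z_mem_FF j)) h1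
    have : zv j * b = theta A B (zv j) * b + (zv j * b - theta A B (zv j) * b) := by ring
    rw [this]
    refine add_mem (Submodule.mem_iSup_of_mem (i + 1) (mem_TE.2 ⟨hp, ?_⟩))
      (Submodule.mem_iSup_of_mem i (mem_TE.2 ⟨sub_mem (z_mul_mem_FF j h1) hp, ?_⟩))
    · rw [Derivation.leibniz, theta_theta_z hl hB, h2]
      simp only [smul_eq_mul, Nat.cast_add, add_smul, mul_smul_comm, Nat.cast_one, one_smul]
      ring
    · rw [map_sub, Derivation.leibniz, Derivation.leibniz, theta_theta_z hl hB, h2]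
      simp only [smul_eq_mul, mul_smul_comm, smul_sub]
      ring

omit hl hB in
def GG (A : Matrix (Fin (d + 1)) (Fin (n + 1)) ℂ) (B : Matrix (Fin (n + 1)) (Fin (d + 1)) ℂ)
    (M i : ℕ) : Submodule ℂ (RatF d n) :=
  FF A M ⊔ ⨆ i' ∈ Set.Iio i, TE A B (M + 1) i'

omit hl hB in
theorem GG_mono (M : ℕ) : Monotone (GG A B M) := fun _ _ h =>
  sup_le_sup_left (biSup_mono fun _ hi => lt_of_lt_of_le hi h) _

omit hl hB in
theorem GG_le (M i : ℕ) : GG A B M i ≤ FF A (M + 1) :=
  sup_le (FF_mono (by omega)) (iSup₂_le fun _ _ => inf_le_left)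

theorem exists_mem_GG {M : ℕ} {g : RatF d n} (hg : g ∈ FF A (M + 1)) : ∃ i, g ∈ GG A B M i := by
  refine Submodule.iSup_induction _ (motive := fun g => ∃ i, g ∈ GG A B M i)
    (FF_le_iSup hl hB _ hg) (fun i b hb => ⟨i + 1, Submodule.mem_sup_right ?_⟩) ⟨0, zero_mem _⟩ ?_
  · exact Submodule.mem_iSup_of_mem i (Submodule.mem_iSup_of_mem (by simp) hb)
  · rintro x y ⟨a, ha⟩ ⟨b, hb⟩
    exact ⟨a + b, add_mem (GG_mono M (by omega) ha) (GG_mono M (by omega) hb)⟩

omit hl hB in
theorem theta_sub_mem_GG {M i : ℕ} {g : RatF d n} (hg : g ∈ GG A B M (i + 1)) :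
    theta A B g - (i : ℂ) • g ∈ GG A B M i := by
  obtain ⟨a, ha, b, hb, rfl⟩ := Submodule.mem_sup.1 hg
  rw [map_add, smul_add, add_sub_add_comm]
  refine add_mem (Submodule.mem_sup_left
    (sub_mem (theta_mem_FF B ha) (Submodule.smul_mem _ _ ha))) (Submodule.mem_sup_right ?_)
  rw [iSup_subtype'] at hb
  refine Submodule.iSup_induction _
    (motive := fun b => theta A B b - (i : ℂ) • b ∈ ⨆ i' ∈ Set.Iio i, TE A B (M + 1) i') hb
    (fun i' x hx => ?_) (by simp)
    (fun x y hx hy => by rw [map_add, smul_add, add_sub_add_comm]; exact add_mem hx hy)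
  rw [(mem_TE.1 hx).2, ← sub_smul]
  rcases Nat.lt_succ_iff_lt_or_eq.1 i'.2 with h | h
  · exact Submodule.smul_mem _ _
      (Submodule.mem_iSup_of_mem i'.1 (Submodule.mem_iSup_of_mem h hx))
  · simp [h]

omit hl hB in
theorem exists_uniform {G : ℕ → Submodule ℂ (RatF d n)} (hG : Monotone G) {η : VV d n}
    (h : ∀ I, ∃ i, η I ∈ G i) : ∃ i, In (G i) η := by
  choose f hf using h
  obtain ⟨i, hi⟩ := Finite.bddAbove_range f
  exact ⟨i, fun I => hG (hi ⟨I, rfl⟩) (hf I)⟩

theorem homotopy_formula (u : Fin (n + 1) → ℂ) {p : ℤ} {M : ℕ} {η : VV d n} (hη : Deg p η)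
    (hM : In (FF A (M + 1)) η) :
    In (FF A M) (dV (Ne A u) (iV (fun k => (del A B k).toLinearMap) η) +
      iV (fun k => (del A B k).toLinearMap) (dV (Ne A u) η) -
      ((((d + 1 : ℤ) - p : ℤ) : ℂ) • η + lift (theta A B).toLinearMap η)) := by
  have h := LinearMap.congr_fun (cartan (Ne A u) (fun k => (del A B k).toLinearMap)) η
  let W : Fin (d + 1) → Fin (d + 1) → Module.End ℂ (RatF d n) := fun i k =>
    (pd (.inl i)).toLinearMap * (del A B k).toLinearMap -
      (del A B k).toLinearMap * (pd (.inl i)).toLinearMap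
  let W' : Module.End ℂ (RatF d n) := ∑ i, ((del A B i).toLinearMap * (pd (.inl i)).toLinearMap +
    mu (uT A u i) * (del A B i).toLinearMap)
  have huT : ∀ k i, del A B k (uT A u i) = 0 := fun k i =>
    del_OU B k (OY_le_OU A (uT_mem_OY A u i))
  have h2 : ∀ i k, Ne A u i * (del A B k).toLinearMap - (del A B k).toLinearMap * Ne A u i =
      W i k - if k = i then 1 else 0 := by
    intro i k
    ext g
    simp only [W, LinearMap.sub_apply, Module.End.mul_apply, Ne_apply, Derivation.coeFn_coe,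
      map_add, Derivation.leibniz, smul_eq_mul, huT, del_pd_t_ff hl hB, eq_comm (a := i)]
    split_ifs <;> simp <;> ring
  have h3 : ∑ i, (del A B i).toLinearMap * Ne A u i =
      W' + ((d + 1 : ℂ) • 1 + (theta A B).toLinearMap) := by
    ext g
    simp only [W', LinearMap.sum_apply, LinearMap.add_apply, Module.End.mul_apply, Ne_apply,
      Derivation.coeFn_coe, map_add, Derivation.leibniz, smul_eq_mul, huT, del_pd_t_ff hl hB,
      theta_apply, LinearMap.mulLeft_apply, if_true, add_mul, Finset.sum_add_distrib]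
    simp [add_smul, Nat.cast_smul_eq_nsmul, add_nsmul]
    ring
  simp only [h2, h3, map_sub, apply_ite lift, map_one, map_zero, mul_sub, mul_ite, mul_one,
    mul_zero, Finset.sum_sub_distrib, Finset.sum_ite_eq', Finset.mem_univ, if_true,
    map_add] at h
  simp only [LinearMap.add_apply, LinearMap.sub_apply, hη.number, Module.End.mul_apply] at h
  have h4 : dV (Ne A u) (iV (fun k => (del A B k).toLinearMap) η) +
      iV (fun k => (del A B k).toLinearMap) (dV (Ne A u) η) -
      ((((d + 1 : ℤ) - p : ℤ) : ℂ) • η + lift (theta A B).toLinearMap η) =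
      (∑ i, ∑ k, cre i * ann k * lift (W i k) : Module.End ℂ (VV d n)) η + lift W' η := by
    rw [h]
    simp only [map_smul, map_one, LinearMap.smul_apply, Module.End.one_apply, Int.cast_sub,
      sub_smul, Int.cast_add, Int.cast_natCast, Int.cast_one]
    abel
  rw [h4]
  intro I
  rw [Pi.add_apply]
  refine add_mem ?_ ?_
  · simp only [LinearMap.sum_apply, Finset.sum_apply, Module.End.mul_apply, cre_apply, ann_apply,
      lift_apply]
    refine Submodule.sum_mem _ fun i _ => Submodule.sum_mem _ fun k _ => ?_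
    split_ifs
    · simp
    · refine Submodule.smul_mem _ _ (Submodule.smul_mem _ _ ?_)
      exact sub_mem (pd_t_mem_FF i (del_mem_FF B k (hM _))) (del_mem_FF B k (pd_t_mem_FF i (hM _)))
    · simp
  · simp only [lift_apply, W', LinearMap.sum_apply]
    refine Submodule.sum_mem _ fun i _ => add_mem (del_mem_FF B i (pd_t_mem_FF i (hM _))) ?_
    exact OU_mul_mem_FF (OY_le_OU A (uT_mem_OY A u i)) (del_mem_FF B i (hM _))

theorem koszul (u : Fin (n + 1) → ℂ) {p : ℤ} (hp : p ≤ d) {η : VV d n}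
    (h1 : In (NU A).toSubmodule η) (h2 : Deg p η) (h3 : dV (Ne A u) η = 0) :
    ∃ β, In (NU A).toSubmodule β ∧ Deg (p - 1) β ∧ dV (Ne A u) β = η := by
  obtain ⟨M, hM⟩ := exists_uniform FF_mono fun I => exists_mem_FF (h1 I)
  induction M generalizing η with
  | zero =>
    exact ⟨0, fun _ => zero_mem _, fun _ _ => rfl,
      (map_zero _).trans (funext fun I => ((Submodule.mem_bot ℂ).1 (hM I)).symm)⟩
  | succ M ihM =>
    obtain ⟨i, hi⟩ := exists_uniform (GG_mono M) fun I => exists_mem_GG hl hB (hM I)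
    clear hM
    induction i generalizing η with
    | zero => exact ihM h1 h2 h3 fun I => by simpa [GG] using hi I
    | succ i ihi =>
      have hM : In (FF A (M + 1)) η := fun I => GG_le M _ (hi I)
      have hf := homotopy_formula hl hB u h2 hM
      rw [h3, map_zero, add_zero] at hf
      set γ := iV (fun k => (del A B k).toLinearMap) η with hγ
      have hγ1 : In (NU A).toSubmodule γ := h1.iV fun k g hg => del_mem_NU B k hg
      have hγ2 : Deg (p - 1) γ := h2.iV _
      set a : ℂ := (((d + 1 : ℤ) - p + i : ℤ) : ℂ) with ha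
      have ha0 : a ≠ 0 := by rw [ha]; exact Int.cast_ne_zero.2 (by omega)
      obtain ⟨β, hβ1, hβ2, hβ3⟩ := ihi (η := dV (Ne A u) γ - a • η)
        (fun I => sub_mem (hγ1.dV (fun k g hg => Ne_mem_NU A u k hg) I)
          (Submodule.smul_mem _ _ (h1 I)))
        ((by simpa using hγ2.dV (Ne A u) : Deg p _).sub (h2.smul a))
        (by rw [map_sub, map_smul, h3, smul_zero, sub_zero, ← Module.End.mul_apply,
          dV_dV _ (Ne_comm A u), LinearMap.zero_apply])
        (fun I => by
          have k1 := Submodule.mem_sup_left (T := ⨆ i' ∈ Set.Iio i, TE A B (M + 1) i') (hf I)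
          have k2 := theta_sub_mem_GG (hi I)
          have := add_mem (s := GG A B M i) k1 k2
          convert this using 1
          simp only [ha, Pi.sub_apply, Pi.add_apply, Pi.smul_apply, lift_apply,
            Derivation.coeFn_coe, Int.cast_add, add_smul, Int.cast_natCast]
          abel)
      refine ⟨a⁻¹ • (γ - β), fun I => Submodule.smul_mem _ _ (sub_mem (hγ1 I) (hβ1 I)),
        (hγ2.sub hβ2).smul _, ?_⟩
      rw [map_smul, map_sub, hβ3, sub_sub_cancel, smul_smul, inv_mul_cancel₀ ha0, one_smul]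

end homotopy

end

end Pool.Agent.P.MP_2f98db_ag
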