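import Pool.Agent.P.MP_2f98db_ag.Normal
import Pool.Agent.P.MP_2f98db_ag.Koszul

/-!
Surjectivity of the contiguity maps for nonresonant parameters.
-/

namespace Pool.Agent.P.MP_2f98db_ag

noncomputable section

variable {d n : ℕ} (A : Matrix (Fin (d + 1)) (Fin (n + 1)) ℂ)

/-- The relations of `M_L(v)` inside `N`. -/
def RR (v : Fin (n + 1) → ℂ) : Submodule ℂ (RatF d n) :=
  (⨆ i, (NN A).toSubmodule.map (Ne A v i)) ⊔ (NN A).toSubmodule.map (Lop A v (d + 1))

def mon (β : Fin (n + 1) → ℕ) : RatF d n := ∏ j, yv A j ^ β j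

def YY : RatF d n := ∏ j, yv A j

variable {A}

theorem Ne_mem_RR (v : Fin (n + 1) → ℂ) (i : Fin (d + 1)) {g : RatF d n} (hg : g ∈ NN A) :
    Ne A v i g ∈ RR A v :=
  Submodule.mem_sup_left (Submodule.mem_iSup_of_mem i ⟨g, hg, rfl⟩)

theorem Lop_mem_RR (v : Fin (n + 1) → ℂ) {g : RatF d n} (hg : g ∈ NN A) :
    Lop A v (d + 1) g ∈ RR A v := Submodule.mem_sup_right ⟨g, hg, rfl⟩

theorem RR_induction {v : Fin (n + 1) → ℂ} {motive : RatF d n → Prop} {x : RatF d n}
    (hx : x ∈ RR A v) (h1 : ∀ i, ∀ g ∈ NN A, motive (Ne A v i g))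
    (h2 : ∀ g ∈ NN A, motive (Lop A v (d + 1) g))
    (add : ∀ a b, motive a → motive b → motive (a + b)) : motive x := by
  obtain ⟨a, ha, _, ⟨b, hb, rfl⟩, rfl⟩ := Submodule.mem_sup.1 hx
  refine add _ _ ?_ (h2 b hb)
  refine Submodule.iSup_induction _ (motive := motive) ha ?_
    (by simpa using h2 0 (zero_mem _)) add
  rintro i _ ⟨g, hg, rfl⟩
  exact h1 i g hg

theorem rhoE_mem_RR {v : Fin (n + 1) → ℂ} (P : Weyl n) {x : RatF d n} (hx : x ∈ RR A v) :
    rhoE A P x ∈ RR A v :=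
  RR_induction (motive := fun x => rhoE A P x ∈ RR A v) hx
    (fun i g hg => by rw [← Ne_rhoE]; exact Ne_mem_RR v i (rhoE_mem_NN A P hg))
    (fun g hg => by rw [← Lop_rhoE]; exact Lop_mem_RR v (rhoE_mem_NN A P hg))
    (fun a b ha hb => by rw [map_add]; exact add_mem ha hb)

theorem RR_le_NN (v : Fin (n + 1) → ℂ) {x : RatF d n} (hx : x ∈ RR A v) : x ∈ NN A :=
  RR_induction (motive := fun x => x ∈ NN A) hx (fun i _ hg => Ne_mem_NN A v i hg)
    (fun _ hg => Lop_mem_NN A v _ hg) (fun _ _ => add_mem)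

theorem mon_mem_OY (β : Fin (n + 1) → ℕ) : mon A β ∈ OY A :=
  Subalgebra.prod_mem _ fun j _ => pow_mem (y_mem_OY A j) _

theorem YY_eq : YY A = mon A 1 := by simp [YY, mon]

theorem YY_mem_OY : YY A ∈ OY A := YY_eq (A := A) ▸ mon_mem_OY 1

theorem mon_add (α β : Fin (n + 1) → ℕ) : mon A (α + β) = mon A α * mon A β := by
  simp [mon, pow_add, Finset.prod_mul_distrib]

theorem mon_single (j : Fin (n + 1)) : mon A (Pi.single j 1) = yv A j := by
  rw [mon, Finset.prod_eq_single j (fun b _ hb => by simp [hb]) (by simp)]; simp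

theorem deriv_mon (D : Derivation ℂ (RatF d n) (RatF d n)) (ε : Fin (n + 1) → RatF d n)
    (h : ∀ j, D (yv A j) = ε j * yv A j) (β : Fin (n + 1) → ℕ) :
    D (mon A β) = (∑ j, (β j : ℂ) • ε j) * mon A β := by
  unfold mon
  induction (Finset.univ : Finset (Fin (n + 1))) using Finset.induction_on with
  | empty => simp
  | insert j s hj ih =>
    rw [Finset.prod_insert hj, Finset.sum_insert hj, Derivation.leibniz, ih,
      Derivation.leibniz_pow, h]
    simp only [smul_eq_mul, nsmul_eq_mul]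
    simp only [Algebra.smul_def, map_natCast]
    cases β j with
    | zero => simp
    | succ m => simp only [Nat.add_sub_cancel, pow_succ]; ring

theorem YY_mul_Ne (v : Fin (n + 1) → ℂ) (i : Fin (d + 1)) (g : RatF d n) :
    YY A * Ne A v i g = Ne A (v + 1) i (YY A * g) := by
  have h := deriv_mon (A := A) (pd (.inl i)) (fun j => -(A i j • yv A j))
    (fun j => by rw [pd_t_y]; simp [sq]) 1
  rw [← YY_eq] at h
  have h2 : uT A (v + 1) i = uT A v i + ∑ j, A i j • yv A j := by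
    simp [uT, add_mul, add_smul, Finset.sum_add_distrib]
  simp only [Ne_apply, Derivation.leibniz, h, h2, smul_eq_mul]
  simp
  ring

theorem YY_mul_Lop (v : Fin (n + 1) → ℂ) (r : ℤ) (g : RatF d n) :
    YY A * Lop A v r g = Lop A (v + 1) r (YY A * g) := by
  have h := deriv_mon (A := A) euler (fun _ => -1) (fun j => by rw [euler_y]; simp) 1
  rw [← YY_eq] at h
  have h2 : kap (v + 1) = kap v + (n + 1) := by simp [kap, Finset.sum_add_distrib]
  simp only [Lop_apply, Derivation.leibniz, h, h2, smul_eq_mul, Algebra.smul_def]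
  simp
  ring

theorem YY_mul_mem_RR {v : Fin (n + 1) → ℂ} {x : RatF d n} (hx : x ∈ RR A v) :
    YY A * x ∈ RR A (v + 1) :=
  RR_induction (motive := fun x => YY A * x ∈ RR A (v + 1)) hx
    (fun i g hg => by
      rw [YY_mul_Ne]; exact Ne_mem_RR _ i (mul_mem (OY_le_NN A YY_mem_OY) hg))
    (fun g hg => by
      rw [YY_mul_Lop]; exact Lop_mem_RR _ (mul_mem (OY_le_NN A YY_mem_OY) hg))
    (fun a b ha hb => by rw [mul_add]; exact add_mem ha hb)

theorem OY_mul_mem {W : Submodule ℂ (RatF d n)} (hW : ∀ P, ∀ x ∈ W, rhoE A P x ∈ W)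
    {a x : RatF d n} (ha : a ∈ OY A) (hx : x ∈ W) (hx' : x ∈ OY A) : a * x ∈ W := by
  rw [OY, Algebra.adjoin_range_eq_range_aeval] at ha
  obtain ⟨h, rfl⟩ := ha
  have := hW (dHom h) x hx
  rwa [rhoE_dHom h (OY_le_OU A hx')] at this

/-- The key local computation along the stratum indexed by `F`. -/
theorem local_euler (hl : ∀ j, ell A j ≠ 0) (v : Fin (n + 1) → ℂ) (F : Finset (Fin (n + 1))) :
    ∃ (τ : ℕ) (lam : Fin (n + 1) → RatF d n), (∀ j ∈ F, lam j = ell A j) ∧
      (∀ j, lam j * ∏ b ∈ F, yv A b ∈ OY A) ∧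
      ∀ β : Fin (n + 1) → ℕ, (∀ b ∈ F, 1 ≤ β b) →
        ((d + 1 : ℂ) - τ) • mon A β + ∑ j, (v j - β j) • ((1 - yv A j * lam j) * mon A β) -
          ∑ j, zv j * ((1 - yv A j * lam j) * yv A j * mon A β) ∈ RR A v := by
  let VF : Submodule ℂ (Fin (d + 1) → ℂ) := Submodule.span ℂ ((fun j i => A i j) '' F)
  obtain ⟨g, hg⟩ := VF.subtype.exists_leftInverse_of_injective VF.ker_subtype
  let π : (Fin (d + 1) → ℂ) →ₗ[ℂ] (Fin (d + 1) → ℂ) := VF.subtype.comp g
  have hπ : LinearMap.IsProj VF π :=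
    ⟨fun x => (g x).2, fun x hx => congrArg Subtype.val (LinearMap.congr_fun hg ⟨x, hx⟩)⟩
  let form : (Fin (d + 1) → ℂ) →ₗ[ℂ] RatF d n := Fintype.linearCombination ℂ tv
  have hform : ∀ c, form c = ∑ i, c i • tv i := fun c => rfl
  let p : Fin (d + 1) → RatF d n := fun i => form (π (Pi.single i 1))
  have hp : ∀ c : Fin (d + 1) → ℂ, ∑ i, c i • p i = form (π c) := fun c => by
    conv_rhs => rw [← Finset.univ_sum_single c, map_sum, map_sum]
    refine Finset.sum_congr rfl fun i _ => ?_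
    rw [← map_smul, ← map_smul, ← Pi.single_smul, smul_eq_mul, mul_one]
  have htr : ∑ i, pd (.inl i) (p i) = algebraMap ℂ _ (Module.finrank ℂ VF : ℂ) := by
    rw [← hπ.trace, LinearMap.trace_eq_matrix_trace ℂ (Pi.basisFun ℂ _), Matrix.trace, map_sum]
    refine Finset.sum_congr rfl fun i _ => ?_
    simp [p, hform, pd_t_tv, LinearMap.toMatrix_apply, Algebra.algebraMap_eq_smul_one]
  have hmem : ∀ c ∈ VF, form c * ∏ b ∈ F, yv A b ∈ OY A := by
    intro c hc
    induction hc using Submodule.span_induction with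
    | mem x hx =>
      obtain ⟨b, hb, rfl⟩ := hx
      rw [← Finset.mul_prod_erase F _ hb, ← mul_assoc, hform, ← ell, ell_mul_y hl, one_mul]
      exact Subalgebra.prod_mem _ fun j _ => y_mem_OY A j
    | zero => simp
    | add x y _ _ hx hy => rw [map_add, add_mul]; exact add_mem hx hy
    | smul a x _ hx => rw [map_smul, smul_mul_assoc]; exact Subalgebra.smul_mem _ hx _
  refine ⟨Module.finrank ℂ VF, fun j => form (π fun i => A i j), fun j hj => ?_,
    fun j => hmem _ (hπ.map_mem _), fun β hβ => ?_⟩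
  · simp only
    rw [hπ.map_id _ (Submodule.subset_span ⟨j, hj, rfl⟩)]; rfl
  set lam : Fin (n + 1) → RatF d n := fun j => form (π fun i => A i j) with hlam
  have hmon : ∀ i, p i * mon A β ∈ NN A := fun i => by
    have : mon A β = (∏ b ∈ F, yv A b) * mon A (fun j => if j ∈ F then β j - 1 else β j) := by
      rw [← Finset.prod_ite_mem_eq, mon, mon, ← Finset.prod_mul_distrib]
      refine Finset.prod_congr rfl fun j _ => ?_
      split_ifs with h
      · rw [← pow_succ', Nat.sub_add_cancel (hβ j h)]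
      · simp
    rw [this, ← mul_assoc]
    exact OY_le_NN A (mul_mem (hmem _ (hπ.map_mem _)) (mon_mem_OY _))
  let ξ : Derivation ℂ (RatF d n) (RatF d n) := euler - ∑ i, p i • pd (.inl i)
  have hξ : ∀ x, ξ x = euler x - ∑ i, p i * pd (.inl i) x := fun x => by
    simp only [ξ, Derivation.sub_apply, derivation_sum_apply]; rfl
  have hξy : ∀ j, ξ (yv A j) = -(1 - yv A j * lam j) * yv A j := fun j => by
    rw [hξ, euler_y, hlam]
    simp only [pd_t_y, ← hp, mul_neg, mul_smul_comm, Finset.sum_neg_distrib, ← smul_mul_assoc,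
      ← Finset.sum_mul]
    ring
  have hξf : ξ (ff A) = -∑ j, zv j * ((1 - yv A j * lam j) * yv A j) := by
    have hz : ∀ j, ξ (zv j) = 0 := fun j => by simp [hξ, euler_zv, pd_t_zv]
    rw [ff_eq, map_sum, ← Finset.sum_neg_distrib]
    refine Finset.sum_congr rfl fun j _ => ?_
    rw [Derivation.leibniz, hξy, hz]; simp; ring
  have huT : ∑ i, p i * uT A v i = ∑ j, v j • (yv A j * lam j) := by
    simp only [uT, Finset.mul_sum, hlam, ← hp]
    rw [Finset.sum_comm]
    refine Finset.sum_congr rfl fun j _ => ?_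
    rw [Finset.smul_sum]
    refine Finset.sum_congr rfl fun i _ => ?_
    simp only [Algebra.smul_def, map_mul]; ring
  have key := sub_mem (Lop_mem_RR v (OY_le_NN A (mon_mem_OY β)))
    (Submodule.sum_mem _ fun i (_ : i ∈ Finset.univ) => Ne_mem_RR v i (hmon i))
  convert key using 1
  have e1 : ∑ i, Ne A v i (p i * mon A β) = (∑ i, pd (.inl i) (p i)) * mon A β +
      ∑ i, p i * pd (.inl i) (mon A β) + (∑ i, p i * pd (.inl i) (ff A)) * mon A β +
      (∑ i, p i * uT A v i) * mon A β := by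
    simp only [Finset.sum_mul, ← Finset.sum_add_distrib]
    refine Finset.sum_congr rfl fun i _ => ?_
    simp only [Ne_apply, Derivation.leibniz, smul_eq_mul]; ring
  have e2 := hξ (mon A β)
  rw [deriv_mon ξ _ hξy] at e2
  have e3 := hξ (ff A)
  rw [hξf, euler_ff] at e3
  have e4 : ∑ j, zv j * ((1 - yv A j * lam j) * yv A j * mon A β) =
      (∑ j, zv j * ((1 - yv A j * lam j) * yv A j)) * mon A β := by
    rw [Finset.sum_mul]; exact Finset.sum_congr rfl fun j _ => by ring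
  have e5 : ∑ j, (v j - β j) • ((1 - yv A j * lam j) * mon A β) =
      (algebraMap ℂ _ (kap v) - ∑ j, v j • (yv A j * lam j) +
        ∑ j, (β j : ℂ) • -(1 - yv A j * lam j)) * mon A β := by
    rw [kap, map_sum, ← Finset.sum_sub_distrib, ← Finset.sum_add_distrib, Finset.sum_mul]
    refine Finset.sum_congr rfl fun j _ => ?_
    simp only [Algebra.smul_def, map_sub]; ring
  rw [e1, htr, huT, Lop_apply, e4, e5]
  simp only [Algebra.smul_def, map_add, map_sub, map_neg, map_one, map_natCast, Int.cast_add,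
    Int.cast_natCast, Int.cast_one] at e2 e3 ⊢
  linear_combination e2 + mon A β * e3

theorem one_mem_contig (hl : ∀ j, ell A j ≠ 0) {v : Fin (n + 1) → ℂ}
    (hv : ∀ G : Finset (Fin (n + 1)), G.Nonempty → ∀ m : ℤ, ∑ a ∈ G, v a + m ≠ 0) :
    (1 : RatF d n) ∈ (NN A).toSubmodule.map (mu (YY A)) ⊔ RR A v := by
  set W := (NN A).toSubmodule.map (mu (YY A)) ⊔ RR A v with hW
  have hWs : ∀ P, ∀ x ∈ W, rhoE A P x ∈ W := by
    intro P x hx
    obtain ⟨_, ⟨a, ha, rfl⟩, b, hb, rfl⟩ := Submodule.mem_sup.1 hx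
    rw [map_add]
    refine add_mem (Submodule.mem_sup_left ⟨rhoE A P a, rhoE_mem_NN A P ha, ?_⟩)
      (Submodule.mem_sup_right (rhoE_mem_RR P hb))
    exact mul_rhoE A (OY_le_OU A YY_mem_OY) P a
  by_contra h1
  let yF : Finset (Fin (n + 1)) → RatF d n := fun F => ∏ b ∈ F, yv A b
  have hyF : ∀ F, yF F ∈ OY A := fun F => Subalgebra.prod_mem _ fun j _ => y_mem_OY A j
  obtain ⟨F, hF, hFmax⟩ := Set.Finite.exists_maximal
    (Set.toFinite {F : Finset (Fin (n + 1)) | ∀ N : ℕ, yF F ^ N ∉ W}) ⟨∅, by simpa [yF] using h1⟩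
  have hG : Fᶜ.Nonempty := by
    rw [Finset.nonempty_iff_ne_empty, ne_eq, Finset.compl_eq_empty_iff]
    rintro rfl
    exact hF 1 (Submodule.mem_sup_left ⟨1, (NN A).one_mem, by simp [yF, YY]⟩)
  have hN : ∀ a, ∃ N : ℕ, a ∉ F → (yv A a * yF F) ^ N ∈ W := by
    intro a
    by_cases ha : a ∈ F
    · exact ⟨0, fun h => absurd ha h⟩
    by_contra hh
    push Not at hh
    have := hFmax (y := insert a F) (fun N => by
      simpa only [yF, Finset.prod_insert ha] using (hh N).2) (Finset.subset_insert a F)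
    exact ha (this (Finset.mem_insert_self a F))
  choose N hN using hN
  let Bad : Set (Fin (n + 1) → ℕ) := {α | (∀ b ∈ F, α b = 0) ∧ ∀ M : ℕ, yF F ^ M * mon A α ∉ W}
  have hfin : Bad.Finite := by
    refine (Set.finite_Iic N).subset fun α hα a => ?_
    by_cases ha : a ∈ F
    · rw [hα.1 a ha]; exact Nat.zero_le _
    by_contra hlt
    replace hlt : N a ≤ α a := (not_le.1 hlt).le
    apply hα.2 (N a)
    have : α = N a • Pi.single a 1 + (α - N a • Pi.single a 1) := by
      funext j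
      by_cases hj : j = a
      · subst hj; simp; omega
      · simp [hj]
    have hs : mon A (N a • Pi.single a 1) = yv A a ^ N a := by
      rw [← mon_single (A := A) a]; simp [mon, ← Finset.prod_pow, ← pow_mul, mul_comm]
    rw [this, mon_add, hs, ← mul_assoc, ← mul_pow, mul_comm (yF F), mul_comm]
    exact OY_mul_mem hWs (mon_mem_OY _) (hN a ha) (pow_mem (mul_mem (y_mem_OY A a) (hyF F)) _)
  obtain ⟨α, hα, hαmax⟩ := hfin.exists_maximal ⟨0, fun _ _ => rfl, fun M => by
    simpa [mon] using hF M⟩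
  have hM : ∀ a, ∃ M : ℕ, a ∉ F → yF F ^ M * (yv A a * mon A α) ∈ W := by
    intro a
    by_cases ha : a ∈ F
    · exact ⟨0, fun h => absurd ha h⟩
    by_contra hh
    push Not at hh
    have := hαmax (y := α + Pi.single a 1) ⟨fun b hb => by
      rw [Pi.add_apply, hα.1 b hb, Pi.single_eq_of_ne (by rintro rfl; exact ha hb), add_zero], fun M => by
      rw [mon_add, mon_single, mul_comm (mon A α)]; exact (hh M).2⟩ le_self_add a
    simp at this
  choose M hM using hM
  obtain ⟨M₀, hM₀⟩ := Finite.bddAbove_range M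
  have hM' : ∀ a ∉ F, yF F ^ M₀ * (yv A a * mon A α) ∈ W := fun a ha => by
    rw [← Nat.sub_add_cancel (hM₀ ⟨a, rfl⟩), pow_add, mul_assoc]
    exact OY_mul_mem hWs (pow_mem (hyF F) _) (hM a ha)
      (mul_mem (pow_mem (hyF F) _) (mul_mem (y_mem_OY A a) (mon_mem_OY _)))
  have hM'' : ∀ a, yF F ^ M₀ * (yv A a * mon A α) ∈ OY A := fun a =>
    mul_mem (pow_mem (hyF F) _) (mul_mem (y_mem_OY A a) (mon_mem_OY _))
  obtain ⟨τ, lam, hlam1, hlam2, hkey⟩ := local_euler hl v F
  let β : Fin (n + 1) → ℕ := fun j => if j ∈ F then M₀ + 1 else α j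
  have hβ : mon A β = yF F ^ (M₀ + 1) * mon A α := by
    simp only [yF]
    rw [← Finset.prod_pow, ← Finset.prod_ite_mem_eq, mon, mon, ← Finset.prod_mul_distrib]
    refine Finset.prod_congr rfl fun j _ => ?_
    by_cases h : j ∈ F
    · simp [β, h, hα.1 j h]
    · simp [β, h]
  have k0 := Submodule.mem_sup_right (S := (NN A).toSubmodule.map (mu (YY A)))
    (hkey β fun b hb => by simp [β, hb])
  have k1 : ∀ j ∉ F, yv A j * lam j * mon A β ∈ W ∧ yv A j * lam j * mon A β ∈ OY A := by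
    intro j hj
    have : yv A j * lam j * mon A β = (lam j * yF F) * (yF F ^ M₀ * (yv A j * mon A α)) := by
      rw [hβ]; ring
    rw [this]
    exact ⟨OY_mul_mem hWs (hlam2 j) (hM' j hj) (hM'' j), mul_mem (hlam2 j) (hM'' j)⟩
  have k2 : ∑ j, zv j * ((1 - yv A j * lam j) * yv A j * mon A β) ∈ W := by
    refine Submodule.sum_mem _ fun j _ => ?_
    rw [← rhoE_zOp A]
    apply hWs
    by_cases hj : j ∈ F
    · rw [hlam1 j hj, mul_comm (yv A j), ell_mul_y hl]; simp
    · have : (1 - yv A j * lam j) * yv A j * mon A β =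
          yF F * (yF F ^ M₀ * (yv A j * mon A α)) - yv A j * (yv A j * lam j * mon A β) := by
        rw [hβ]; ring
      rw [this]
      exact sub_mem (OY_mul_mem hWs (hyF F) (hM' j hj) (hM'' j))
        (OY_mul_mem hWs (y_mem_OY A j) (k1 j hj).1 (k1 j hj).2)
  have k3 : ∑ j ∈ Fᶜ, (v j - β j) • (yv A j * lam j * mon A β) ∈ W :=
    Submodule.sum_mem _ fun j hj => Submodule.smul_mem _ _ (k1 j (Finset.mem_compl.1 hj)).1
  have k4 : ((d + 1 : ℂ) - τ + ∑ j ∈ Fᶜ, (v j - β j)) • mon A β ∈ W := by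
    have := add_mem (s := W) (add_mem (s := W) k0 k2) k3
    convert this using 1
    rw [sub_add_cancel, ← Finset.sum_compl_add_sum F, Finset.sum_eq_zero (s := F) (fun j hj => by
      rw [hlam1 j hj, mul_comm (yv A j), ell_mul_y hl]; simp), add_zero, add_smul, add_assoc,
      ← Finset.sum_add_distrib, Finset.sum_smul]
    congr 1
    refine Finset.sum_congr rfl fun j _ => ?_
    rw [← smul_add]; congr 1; ring
  have k5 : ((d + 1 : ℂ) - τ + ∑ j ∈ Fᶜ, (v j - β j)) ≠ 0 := by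
    have := hv _ hG (d + 1 - τ - ∑ j ∈ Fᶜ, β j)
    rw [Finset.sum_sub_distrib]
    push_cast at this
    exact fun h => this (by linear_combination h)
  apply hα.2 (M₀ + 1)
  rw [← hβ]
  exact (Submodule.smul_mem_iff _ k5).1 k4

theorem contig_surj (hl : ∀ j, ell A j ≠ 0) {v : Fin (n + 1) → ℂ}
    (hv : ∀ G : Finset (Fin (n + 1)), G.Nonempty → ∀ m : ℤ, ∑ a ∈ G, v a + m ≠ 0)
    {g : RatF d n} (hg : g ∈ NN A) : ∃ a ∈ NN A, ∃ b ∈ RR A v, g = YY A * a + b := by
  obtain ⟨_, ⟨a, ha, rfl⟩, b, hb, h⟩ := Submodule.mem_sup.1 (one_mem_contig hl hv)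
  obtain ⟨P, rfl⟩ := exists_rhoE_one hg
  refine ⟨rhoE A P a, rhoE_mem_NN A P ha, rhoE A P b, rhoE_mem_RR P hb, ?_⟩
  rw [mul_rhoE A (OY_le_OU A YY_mem_OY), ← map_add, ← h]
  rfl

end

end Pool.Agent.P.MP_2f98db_ag
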