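import Mathlib

/-!
# Definitions for MP_2f98db_ag (matroid hypergeometric system and its Euler integral module)

* `Weyl n` : the Weyl algebra `D_Z` in `z_0..z_n`, `∂_0..∂_n` (generators and relations).
* `hyperIdeal A u` : the left ideal `H_L(u)`.
* `K` : a field of fractions of `Pol d n`, that is `ℂ(t_0..t_d, z_0..z_n)`, with the partial
  derivatives `pdiff v`.
* `InOm A hor p η` : `η` is a relative `p`-form; `conn A u` : `η ↦ d_t η + ω ∧ η`.
* `gen K A` : the form `f^(d+1) Ω(t)`.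
-/

open MvPolynomial

namespace Pool.Agent.P.MP_2f98db_ag

noncomputable section

variable {d n : ℕ}

/-! ## The Weyl algebra and the matroid hypergeometric ideal -/

/-- The defining relations of the Weyl algebra; `inl j` stands for `z_j`, `inr j` for `∂_j`. -/
inductive WeylRel (n : ℕ) :
    FreeAlgebra ℂ (Fin (n + 1) ⊕ Fin (n + 1)) → FreeAlgebra ℂ (Fin (n + 1) ⊕ Fin (n + 1)) → Prop
  | zz (i j : Fin (n + 1)) : WeylRel n
      (FreeAlgebra.ι ℂ (.inl i) * FreeAlgebra.ι ℂ (.inl j))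
      (FreeAlgebra.ι ℂ (.inl j) * FreeAlgebra.ι ℂ (.inl i))
  | dd (i j : Fin (n + 1)) : WeylRel n
      (FreeAlgebra.ι ℂ (.inr i) * FreeAlgebra.ι ℂ (.inr j))
      (FreeAlgebra.ι ℂ (.inr j) * FreeAlgebra.ι ℂ (.inr i))
  | dz (i j : Fin (n + 1)) : WeylRel n
      (FreeAlgebra.ι ℂ (.inr i) * FreeAlgebra.ι ℂ (.inl j))
      (FreeAlgebra.ι ℂ (.inl j) * FreeAlgebra.ι ℂ (.inr i) + if i = j then 1 else 0)

/-- The Weyl algebra `D_Z` of `Z = ℂ^(n+1)`. -/
abbrev Weyl (n : ℕ) : Type := RingQuot (WeylRel n)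

/-- The generator `z_j` of the Weyl algebra. -/
def zOp (j : Fin (n + 1)) : Weyl n := RingQuot.mkAlgHom ℂ (WeylRel n) (FreeAlgebra.ι ℂ (.inl j))

/-- The generator `∂_j` of the Weyl algebra. -/
def dOp (j : Fin (n + 1)) : Weyl n := RingQuot.mkAlgHom ℂ (WeylRel n) (FreeAlgebra.ι ℂ (.inr j))

/-- `Q_h = h(∂_0, …, ∂_n)`. -/
def evalD (h : MvPolynomial (Fin (n + 1)) ℂ) : Weyl n :=
  ∑ α ∈ h.support, h.coeff α • (List.ofFn fun j => dOp j ^ α j).prod

/-- `s = -(u_0 + ⋯ + u_n) - (d + 1)`. -/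
def sPar (d : ℕ) (u : Fin (n + 1) → ℂ) : ℂ := -(∑ j, u j) - (d + 1)

/-- `H = ∑ z_j ∂_j + s`. -/
def opH (d : ℕ) (u : Fin (n + 1) → ℂ) : Weyl n :=
  ∑ j, zOp j * dOp j + algebraMap ℂ (Weyl n) (sPar d u)

/-- `P_i = ∑_j a_ij (z_j ∂_j ^ 2 - u_j ∂_j)`. -/
def opP (A : Matrix (Fin (d + 1)) (Fin (n + 1)) ℂ) (u : Fin (n + 1) → ℂ) (i : Fin (d + 1)) :
    Weyl n :=
  ∑ j, A i j • (zOp j * dOp j ^ 2 - u j • dOp j)

/-- `h` vanishes at `(x_0⁻¹, …, x_n⁻¹)` for every `x = c A` in the row space of `A` with all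
coordinates nonzero; for homogeneous `h` this says `h ∈ I(L⁻¹)`. -/
def VanishesOnRecip (A : Matrix (Fin (d + 1)) (Fin (n + 1)) ℂ)
    (h : MvPolynomial (Fin (n + 1)) ℂ) : Prop :=
  ∀ c : Fin (d + 1) → ℂ, (∀ j, Matrix.vecMul c A j ≠ 0) →
    eval (fun j => (Matrix.vecMul c A j)⁻¹) h = 0

/-- The matroid hypergeometric ideal `H_L(u)`: the left ideal generated by `H`, the `P_i` and the
`Q_h` for homogeneous `h ∈ I(L⁻¹)`. -/
def hyperIdeal (A : Matrix (Fin (d + 1)) (Fin (n + 1)) ℂ) (u : Fin (n + 1) → ℂ) :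
    Submodule (Weyl n) (Weyl n) :=
  Submodule.span (Weyl n) ({opH d u} ∪ Set.range (opP A u) ∪
    {Q | ∃ (h : MvPolynomial (Fin (n + 1)) ℂ) (k : ℕ),
      h.IsHomogeneous k ∧ VanishesOnRecip A h ∧ Q = evalD h})

/-! ## Rational functions in `(t, z)` and relative forms -/

/-- Polynomials in `t_0..t_d` (variables `inl i`) and `z_0..z_n` (variables `inr j`). -/
abbrev Pol (d n : ℕ) : Type := MvPolynomial (Fin (d + 1) ⊕ Fin (n + 1)) ℂ

/-- The grading by the degree in `t`: each `t_i` has weight `1` and each `z_j` has weight `0`. -/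
def tWeight : Fin (d + 1) ⊕ Fin (n + 1) → ℤ := Sum.elim (fun _ => 1) (fun _ => 0)

/-- The sign `(-1) ^ (number of k ∈ I with k < i)`, so that `dt_i ∧ dt_I = sgn i I dt_{I ∪ {i}}`
for `i ∉ I`. -/
def sgn (i : Fin (d + 1)) (I : Finset (Fin (d + 1))) : ℂ := (-1) ^ (I.filter (· < i)).card

section Field

variable (K : Type) [Field K] [Algebra (Pol d n) K] [IsFractionRing (Pol d n) K] [Algebra ℂ K]

/-- The quotient rule: the rational function `(∂a/∂v * b - a * ∂b/∂v) / b ^ 2`. -/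
def quotRule (v : Fin (d + 1) ⊕ Fin (n + 1)) (a b : Pol d n) : K :=
  algebraMap (Pol d n) K (pderiv v a * b - a * pderiv v b) / algebraMap (Pol d n) K (b ^ 2)

variable {K} in
/-- The partial derivative `∂g/∂v` of a rational function `g = a / b`, by the quotient rule
(`IsLocalization.sec` picks a numerator `a` and a denominator `b` of `g`);
`pdiff (inl i) = ∂/∂t_i` and `pdiff (inr j) = ∂/∂z_j`. -/
def pdiff (v : Fin (d + 1) ⊕ Fin (n + 1)) (g : K) : K :=
  quotRule K v (IsLocalization.sec (nonZeroDivisors (Pol d n)) g).1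
    (IsLocalization.sec (nonZeroDivisors (Pol d n)) g).2

variable (n) in
/-- The coordinate `t_i`. -/
def tc (i : Fin (d + 1)) : K := algebraMap (Pol d n) K (X (.inl i))

variable (d) in
/-- The coordinate `z_j`. -/
def zc (j : Fin (n + 1)) : K := algebraMap (Pol d n) K (X (.inr j))

variable (n) {K} in
/-- `∂/∂t_i`. -/
def dt (i : Fin (d + 1)) (g : K) : K := pdiff (.inl i : Fin (d + 1) ⊕ Fin (n + 1)) g

variable (d) {K} in
/-- `∂/∂z_j`. -/
def dz (j : Fin (n + 1)) (g : K) : K := pdiff (.inr j : Fin (d + 1) ⊕ Fin (n + 1)) g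

variable (A : Matrix (Fin (d + 1)) (Fin (n + 1)) ℂ) (u : Fin (n + 1) → ℂ)

/-- The linear form `ℓ_j(t) = ∑_i a_ij t_i` given by column `j`. -/
def lin (j : Fin (n + 1)) : K := ∑ i, A i j • tc n K i

/-- `f(t, z) = ∑_j z_j / ℓ_j(t)`. -/
def fn : K := ∑ j, zc d K j / lin K A j

/-- The coefficient of `dt_i` in `ω = -(s + d + 1) d_t f / f + ∑_j u_j d_t ℓ_j / ℓ_j`. -/
def omCoef (i : Fin (d + 1)) : K :=
  -(sPar d u + (d + 1)) • (dt n i (fn K A) / fn K A) + ∑ j, u j • (dt n i (lin K A j) / lin K A j)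

/-- The rational functions with poles only along `f = 0` and `ℓ_0 ⋯ ℓ_n = 0`: the algebra
`ℂ[t, z, 1/ℓ_0, …, 1/ℓ_n, 1/f]`. -/
def poles : Subalgebra ℂ K :=
  Algebra.adjoin ℂ (Set.range (tc n K : Fin (d + 1) → K) ∪ Set.range (zc d K : Fin (n + 1) → K) ∪
    Set.range (fun j => (lin K A j)⁻¹) ∪ {(fn K A)⁻¹})

variable {K}

variable (d n) in
/-- `g` is homogeneous of degree `m` in `t`: `g = a / b` with polynomials `a`, `b ≠ 0` homogeneous
in `t` of degrees `k`, `l` with `k - l = m`. -/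
def Homog (m : ℤ) (g : K) : Prop :=
  ∃ (a b : Pol d n) (k l : ℤ), b ≠ 0 ∧ a.IsWeightedHomogeneous tWeight k ∧
    b.IsWeightedHomogeneous tWeight l ∧ k - l = m ∧
    g = algebraMap (Pol d n) K a / algebraMap (Pol d n) K b

/-! A relative differential form `∑_I g_I dt_I` with rational coefficients is given by the family
`I ↦ g_I` of type `Finset (Fin (d + 1)) → K`; here `dt_I = dt_{i_1} ∧ ⋯ ∧ dt_{i_p}` for
`I = {i_1 < ⋯ < i_p}`. -/

/-- `∇_ω η = d_t η + ω ∧ η`: the coefficient of `dt_I` is the sum over `i ∈ I` of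
`sgn i I (∂ g_J / ∂ t_i + ω_i g_J)`, with `J` the set `I` without `i`. -/
def conn (η : Finset (Fin (d + 1)) → K) : Finset (Fin (d + 1)) → K := fun I =>
  ∑ i ∈ I, sgn i I • (dt n i (η (I.erase i)) + omCoef K A u i * η (I.erase i))

variable (n) in
/-- Contraction with the Euler vector field `∑ t_i ∂/∂t_i`. A `ℂ^*`-invariant form on the cone
comes from projective space exactly when this contraction vanishes. -/
def contr (η : Finset (Fin (d + 1)) → K) : Finset (Fin (d + 1)) → K := fun I =>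
  ∑ i ∈ Iᶜ, sgn i I • (tc n K i * η (insert i I))

/-- `η ∈ Ω^p_{X/Z}`: `η = ∑_{|I| = p} g_I dt_I` with each `g_I` a rational function with poles only
along `f = 0` and `ℓ_0 ⋯ ℓ_n = 0`, homogeneous of degree `-p` in `t`. With `hor = true` the form
is also required to be killed by contraction with the Euler field (to descend to `ℙ^d`). -/
def InOm (hor : Bool) (p : ℤ) (η : Finset (Fin (d + 1)) → K) : Prop :=
  (∀ I, (I.card : ℤ) ≠ p → η I = 0) ∧ (∀ I, η I ∈ poles K A ∧ Homog d n (-p) (η I)) ∧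
    (hor = true → contr n η = 0)

variable (K) in
/-- The form `f^(d+1) Ω(t)`, `Ω(t) = ∑_i (-1)^i t_i dt_0 ∧ ⋯ (omit dt_i) ⋯ ∧ dt_d`. -/
def gen : Finset (Fin (d + 1)) → K := fun I =>
  ∑ i, if I = Finset.univ.erase i then (-1) ^ (i : ℕ) * (fn K A ^ (d + 1) * tc n K i) else 0

/-- An action `ρ` of `D_Z` on rational functions acts on forms through the coefficients. -/
def act (ρ : Weyl n →ₐ[ℂ] Module.End ℂ K) (P : Weyl n) (η : Finset (Fin (d + 1)) → K) :
    Finset (Fin (d + 1)) → K := fun I => ρ P (η I)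

end Field

end

end Pool.Agent.P.MP_2f98db_ag
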