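import Pool.Agent.P.MP_2f98db_ag.Defs

/-!
The same objects for the concrete field `FractionRing (Pol d n)`; used only in proofs.
-/

open MvPolynomial

namespace Pool.Agent.P.MP_2f98db_ag

noncomputable section

variable {d n : ℕ}

/-! ## Rational functions in `(t, z)` -/

/-- The field `ℂ(t, z)` of rational functions. -/
abbrev RatF (d n : ℕ) : Type := FractionRing (Pol d n)

/-- The derivative of polynomials in the variable `v` extends to a derivation of `ℂ(t, z)`
(the extension is unique, by the quotient rule). -/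
theorem exists_pd (v : Fin (d + 1) ⊕ Fin (n + 1)) :
    ∃ D : Derivation ℂ (RatF d n) (RatF d n), ∀ p : Pol d n,
      D (algebraMap (Pol d n) (RatF d n) p) = algebraMap (Pol d n) (RatF d n) (pderiv v p) := by
  let φ : Pol d n →ₐ[ℂ] TrivSqZeroExt (RatF d n) (RatF d n) :=
    { toFun := fun p => TrivSqZeroExt.inl (algebraMap _ _ p) +
        TrivSqZeroExt.inr (algebraMap _ _ (pderiv v p))
      map_one' := by ext <;> simp
      map_mul' := fun p q => by ext <;> simp [Derivation.leibniz, mul_comm, -DualNumber.inr_eq_smul_eps]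
      map_zero' := by ext <;> simp
      map_add' := fun p q => by ext <;> simp [-DualNumber.inr_eq_smul_eps]
      commutes' := fun c => by
        ext
        · simpa [TrivSqZeroExt.algebraMap_eq_inl'] using
            (IsScalarTower.algebraMap_apply ℂ (Pol d n) (RatF d n) c).symm
        · simp [TrivSqZeroExt.algebraMap_eq_inl'] }
  have hφ : ∀ y : nonZeroDivisors (Pol d n), IsUnit (φ y) := fun y => by
    rw [TrivSqZeroExt.isUnit_iff_isUnit_fst]
    simp [φ]
  let ψ : RatF d n →ₐ[ℂ] TrivSqZeroExt (RatF d n) (RatF d n) := IsLocalization.liftAlgHom hφ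
  have hψ : ∀ p, ψ (algebraMap (Pol d n) (RatF d n) p) = φ p := fun p =>
    IsLocalization.lift_eq hφ p
  have hfst : ∀ g, (ψ g).fst = g := by
    have : ((TrivSqZeroExt.fstHom ℂ _ _).comp ψ).toRingHom = RingHom.id (RatF d n) := by
      apply IsLocalization.ringHom_ext (nonZeroDivisors (Pol d n))
      refine RingHom.ext fun p => ?_
      simp only [RingHom.comp_apply, RingHom.id_apply]
      simpa [φ] using congrArg TrivSqZeroExt.fst (hψ p)
    intro g
    exact RingHom.congr_fun this g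
  refine ⟨Derivation.mk' (((TrivSqZeroExt.sndHom (RatF d n) (RatF d n)).restrictScalars ℂ).comp
    ψ.toLinearMap) fun a b => ?_, fun p => ?_⟩
  · simp [TrivSqZeroExt.snd_mul, hfst, mul_comm]
  · simpa [φ, -DualNumber.inr_eq_smul_eps] using congrArg TrivSqZeroExt.snd (hψ p)

/-- The derivative `∂/∂v` on `ℂ(t, z)`: `pd (inl i) = ∂/∂t_i` and `pd (inr j) = ∂/∂z_j`. -/
def pd (v : Fin (d + 1) ⊕ Fin (n + 1)) : Derivation ℂ (RatF d n) (RatF d n) :=
  Classical.choose (exists_pd v)

/-- The coordinate `t_i`. -/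
def tv (i : Fin (d + 1)) : RatF d n := algebraMap (Pol d n) (RatF d n) (X (.inl i))

/-- The coordinate `z_j`. -/
def zv (j : Fin (n + 1)) : RatF d n := algebraMap (Pol d n) (RatF d n) (X (.inr j))

variable (A : Matrix (Fin (d + 1)) (Fin (n + 1)) ℂ) (u : Fin (n + 1) → ℂ)

/-- The linear form `ℓ_j(t) = ∑_i a_ij t_i` given by column `j`. -/
def ell (j : Fin (n + 1)) : RatF d n := ∑ i, A i j • tv i

/-- `f(t, z) = ∑_j z_j / ℓ_j(t)`. -/
def ff : RatF d n := ∑ j, zv j / ell A j

/-- The coefficient of `dt_i` in `ω = -(s + d + 1) d_t f / f + ∑_j u_j d_t ℓ_j / ℓ_j`. -/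
def omegaCoef (i : Fin (d + 1)) : RatF d n :=
  -(sPar d u + (d + 1)) • (pd (.inl i) (ff A) / ff A) +
    ∑ j, u j • (pd (.inl i) (ell A j) / ell A j)

/-- The rational functions with poles only along `f = 0` and `ℓ_0 ⋯ ℓ_n = 0`: the algebra
`ℂ[t, z, 1/ℓ_0, …, 1/ℓ_n, 1/f]`. -/
def poleRing : Subalgebra ℂ (RatF d n) :=
  Algebra.adjoin ℂ (Set.range tv ∪ Set.range zv ∪ Set.range (fun j => (ell A j)⁻¹) ∪ {(ff A)⁻¹})

/-- `g` is homogeneous of degree `m` in `t`: `g = a / b` with polynomials `a`, `b ≠ 0` homogeneous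
in `t` of degrees `k`, `l` with `k - l = m`. -/
def IsHomogT (m : ℤ) (g : RatF d n) : Prop :=
  ∃ (a b : Pol d n) (k l : ℤ), b ≠ 0 ∧ a.IsWeightedHomogeneous tWeight k ∧
    b.IsWeightedHomogeneous tWeight l ∧ k - l = m ∧
    g = algebraMap (Pol d n) (RatF d n) a / algebraMap (Pol d n) (RatF d n) b

/-- A relative differential form `∑_I g_I dt_I` with rational coefficients, given by the family
`I ↦ g_I`; here `dt_I = dt_{i_1} ∧ ⋯ ∧ dt_{i_p}` for `I = {i_1 < ⋯ < i_p}`. -/
abbrev Form (d n : ℕ) : Type := Finset (Fin (d + 1)) → RatF d n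

/-- `∇_ω η = d_t η + ω ∧ η`: the coefficient of `dt_I` is the sum over `i ∈ I` of
`sgn i I (∂ g_J / ∂ t_i + ω_i g_J)`, with `J` the set `I` without `i`. -/
def nabla (η : Form d n) : Form d n := fun I =>
  ∑ i ∈ I, sgn i I • (pd (.inl i) (η (I.erase i)) + omegaCoef A u i * η (I.erase i))

/-- Contraction with the Euler vector field `∑ t_i ∂/∂t_i`. A `ℂ^*`-invariant form on the cone
comes from projective space exactly when this contraction vanishes. -/
def contract (η : Form d n) : Form d n := fun I => ∑ i ∈ Iᶜ, sgn i I • (tv i * η (insert i I))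

/-- `η ∈ Ω^p_{X/Z}`: `η = ∑_{|I| = p} g_I dt_I` with each `g_I` a rational function with poles only
along `f = 0` and `ℓ_0 ⋯ ℓ_n = 0`, homogeneous of degree `-p` in `t`. With `hor = true` the form
is also required to be killed by contraction with the Euler field (to descend to `ℙ^d`). -/
def InOmega (hor : Bool) (p : ℤ) (η : Form d n) : Prop :=
  (∀ I, (I.card : ℤ) ≠ p → η I = 0) ∧ (∀ I, η I ∈ poleRing A ∧ IsHomogT (-p) (η I)) ∧
    (hor = true → contract η = 0)

/-- The form `f^(d+1) Ω(t)`, `Ω(t) = ∑_i (-1)^i t_i dt_0 ∧ ⋯ (omit dt_i) ⋯ ∧ dt_d`. -/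
def genForm : Form d n := fun I =>
  ∑ i, if I = Finset.univ.erase i then (-1) ^ (i : ℕ) * (ff A ^ (d + 1) * tv i) else 0

end

end Pool.Agent.P.MP_2f98db_ag
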