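import Pool.Agent.P.MP_2f98db_ag.Basic

/-!
The Gamma transform from the exponential model to the power model.
-/

namespace Pool.Agent.P.MP_2f98db_ag

noncomputable section

variable {d n : ℕ} {A : Matrix (Fin (d + 1)) (Fin (n + 1)) ℂ} {u : Fin (n + 1) → ℂ}

def Eig (m : ℤ) : Submodule ℂ (RatF d n) :=
  Module.End.eigenspace (euler (d := d) (n := n)).toLinearMap (m : ℂ)

theorem mem_Eig {m : ℤ} {g : RatF d n} : g ∈ Eig m ↔ euler g = (m : ℂ) • g :=
  Module.End.mem_eigenspace_iff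

theorem eig_indep : iSupIndep (Eig (d := d) (n := n)) :=
  (Module.End.eigenspaces_iSupIndep (euler (d := d) (n := n)).toLinearMap).comp
    Int.cast_injective

theorem Eig.mul {p q : ℤ} {a b : RatF d n} (ha : a ∈ Eig p) (hb : b ∈ Eig q) :
    a * b ∈ Eig (p + q) := by
  rw [mem_Eig] at *
  rw [Derivation.leibniz, ha, hb]
  simp only [smul_eq_mul, Algebra.smul_def, Int.cast_add, map_add]
  ring

theorem Eig.of_eq {p q : ℤ} {a : RatF d n} (ha : a ∈ Eig p) (h : p = q) : a ∈ Eig q := h ▸ ha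

theorem Eig.pd_t {p : ℤ} {a : RatF d n} (ha : a ∈ Eig p) (i : Fin (d + 1)) :
    pd (.inl i) a ∈ Eig (p - 1) := by
  rw [mem_Eig] at *
  rw [euler_pd_t, ha]
  simp [sub_smul]

theorem Eig.pd_z {p : ℤ} {a : RatF d n} (ha : a ∈ Eig p) (j : Fin (n + 1)) :
    pd (.inr j) a ∈ Eig p := by
  rw [mem_Eig] at *
  rw [euler_pd_z, ha]
  simp

theorem t_mem_Eig (i : Fin (d + 1)) : (tv i : RatF d n) ∈ Eig 1 := by simp [mem_Eig, euler_tv]
theorem z_mem_Eig (j : Fin (n + 1)) : (zv j : RatF d n) ∈ Eig 0 := by simp [mem_Eig, euler_zv]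
theorem y_mem_Eig (j : Fin (n + 1)) : yv A j ∈ Eig (-1) := by simp [mem_Eig, euler_y]
theorem ff_mem_Eig : ff A ∈ Eig (-1) := by simp [mem_Eig, euler_ff]
theorem uT_mem_Eig (i : Fin (d + 1)) : uT A u i ∈ Eig (-1) :=
  Submodule.sum_mem _ fun j _ => Submodule.smul_mem _ _ (y_mem_Eig j)
theorem one_mem_Eig : (1 : RatF d n) ∈ Eig 0 := by simp [mem_Eig]

theorem ff_zpow_mem_Eig (k : ℤ) : ff A ^ k ∈ Eig (-k) := by
  by_cases hf : ff A = 0
  · by_cases hk : k = 0
    · subst hk; simpa using one_mem_Eig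
    · rw [hf, zero_zpow k hk]; exact zero_mem _
  rw [mem_Eig, Derivation.leibniz_zpow, euler_ff, zpow_sub_one₀ hf]
  simp only [smul_eq_mul, zsmul_eq_mul]
  simp only [Algebra.smul_def, map_neg, map_one, Int.cast_neg, map_intCast]
  field_simp

theorem NU_le_iSup : (NU A).toSubmodule ≤ ⨆ m, (NU A).toSubmodule ⊓ Eig m := by
  intro g hg
  have hm : ∀ m, ∀ g ∈ NU A, g ∈ Eig m → g ∈ ⨆ m, (NU A).toSubmodule ⊓ Eig m :=
    fun m g h1 h2 => Submodule.mem_iSup_of_mem m ⟨h1, h2⟩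
  induction hg using Algebra.adjoin_induction with
  | mem x hx =>
    rcases hx with (⟨i, rfl⟩ | ⟨i, rfl⟩) | ⟨i, rfl⟩
    exacts [hm _ _ (t_mem_NU A i) (t_mem_Eig i), hm _ _ (z_mem_NU A i) (z_mem_Eig i),
      hm _ _ (y_mem_NU A i) (y_mem_Eig i)]
  | algebraMap c => exact hm 0 _ (Subalgebra.algebraMap_mem _ c) (by simp [mem_Eig])
  | add x y _ _ hx hy => exact add_mem hx hy
  | mul x y _ _ hx hy =>
    refine Submodule.iSup_induction _ (motive := fun x => x * y ∈ _) hx (fun p a ha => ?_)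
      (by simp) (fun a b ha hb => by rw [add_mul]; exact add_mem ha hb)
    refine Submodule.iSup_induction _ (motive := fun y => a * y ∈ _) hy (fun q b hb => ?_)
      (by simp) (fun b c hb hc => by rw [mul_add]; exact add_mem hb hc)
    exact hm _ _ ((NU A).mul_mem ha.1 hb.1) (Eig.mul ha.2 hb.2)

@[elab_as_elim]
theorem NU_induction {motive : ∀ g, g ∈ NU A → Prop}
    (mem : ∀ m g hg, g ∈ Eig m → motive g hg) (zero : motive 0 (zero_mem _))
    (add : ∀ a b ha hb, motive a ha → motive b hb → motive (a + b) (add_mem ha hb))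
    {g : RatF d n} (hg : g ∈ NU A) : motive g hg :=
  (Submodule.iSup_induction _ (motive := fun g => ∃ hg, motive g hg) (NU_le_iSup hg)
    (fun m g h => ⟨h.1, mem m g h.1 h.2⟩) ⟨_, zero⟩
    (fun a b ⟨ha, ha'⟩ ⟨hb, hb'⟩ => ⟨_, add a b ha hb ha' hb'⟩)).2

theorem exists_cc {κ : ℂ} (hκ : ∀ m : ℤ, (m : ℂ) + κ ≠ 0) (k₀ : ℤ) :
    ∃ c : ℤ → ℂ, (∀ k, c k ≠ 0) ∧ (∀ k, c (k - 1) = (k + κ) * c k) ∧ c k₀ = 1 := by
  have h0 : ∀ k : ℤ, (-1 : ℂ) ^ k * Complex.Gamma (-κ - k) ≠ 0 := fun k => by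
    refine mul_ne_zero (zpow_ne_zero _ (by norm_num)) (Complex.Gamma_ne_zero fun m hm => ?_)
    apply hκ (k - m)
    push_cast
    linear_combination -hm
  refine ⟨fun k => ((-1 : ℂ) ^ k * Complex.Gamma (-κ - k)) /
    ((-1 : ℂ) ^ k₀ * Complex.Gamma (-κ - k₀)), fun k => div_ne_zero (h0 k) (h0 k₀), fun k => ?_,
    div_self (h0 k₀)⟩
  have h1 : -κ - ((k - 1 : ℤ) : ℂ) = (-κ - k) + 1 := by push_cast; ring
  have h2 : -κ - k ≠ 0 := fun h => hκ k (by linear_combination -h)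
  simp only [h1, Complex.Gamma_add_one _ h2, zpow_sub_one₀ (show (-1 : ℂ) ≠ 0 by norm_num)]
  ring

theorem exists_piecewise (φ : ℤ → Module.End ℂ (RatF d n)) :
    ∃ G : Module.End ℂ (RatF d n), ∀ m, ∀ g ∈ Eig m, G g = φ m g := by
  classical
  let _ : AddCommGroup (Π₀ m, (Eig m : Submodule ℂ (RatF d n))) := inferInstance
  obtain ⟨L, hL⟩ := LinearMap.exists_leftInverse_of_injective
    (DFinsupp.lsum ℕ fun m => (Eig m : Submodule ℂ (RatF d n)).subtype)
    (LinearMap.ker_eq_bot_of_injective (eig_indep (d := d) (n := n)).dfinsupp_lsum_injective)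
  refine ⟨(DFinsupp.lsum ℕ fun m => (φ m).comp (Eig m).subtype).comp L, fun m g hg => ?_⟩
  have := LinearMap.congr_fun hL (DFinsupp.single m ⟨g, hg⟩)
  simp only [LinearMap.comp_apply, DFinsupp.lsum_single, Submodule.subtype_apply,
    LinearMap.id_apply] at this
  simp [this]

/-- The data of a Gamma transform. -/
structure GamData (A : Matrix (Fin (d + 1)) (Fin (n + 1)) ℂ) (u : Fin (n + 1) → ℂ) where
  c : ℤ → ℂ
  G : ℤ → Module.End ℂ (RatF d n)
  hκ : ∀ m : ℤ, (m : ℂ) + kap u ≠ 0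
  c_ne : ∀ k, c k ≠ 0
  c_rec : ∀ k, c (k - 1) = (k + kap u) * c k
  c_one : c (d + 1) = 1
  G_eq : ∀ r m, ∀ g ∈ Eig m, G r g = c (m + r) • (ff A ^ (m + r) * g)

theorem exists_gamData (hκ : ∀ m : ℤ, (m : ℂ) + kap u ≠ 0) : Nonempty (GamData A u) := by
  obtain ⟨c, h1, h2, h3⟩ := exists_cc hκ (d + 1)
  choose G hG using fun r : ℤ =>
    exists_piecewise (d := d) (n := n) fun m => c (m + r) • mu (ff A ^ (m + r))
  exact ⟨⟨c, G, hκ, h1, h2, h3, fun r m g hg => by simpa using hG r m g hg⟩⟩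

namespace GamData

variable (Γ : GamData A u) (hl : ∀ j, ell A j ≠ 0)

theorem G_mul {k : ℤ} {a : RatF d n} (ha : a ∈ Eig k) (r : ℤ) {g : RatF d n} (hg : g ∈ NU A) :
    Γ.G r (a * g) = a * Γ.G (r + k) g := by
  induction hg using NU_induction with
  | mem m g _ hg =>
    rw [Γ.G_eq _ _ _ (Eig.mul ha hg), Γ.G_eq _ _ _ hg, show k + m + r = m + (r + k) by ring]
    simp only [Algebra.smul_def]; ring
  | zero => simp
  | add a b _ _ ha hb => simp only [mul_add, map_add, ha, hb]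

include hl

/-- Compatibility with a connection operator lowering the degree by `k`. -/
theorem G_conn (D : Derivation ℂ (RatF d n) (RatF d n)) (k : ℤ)
    (hD : ∀ m, ∀ g ∈ Eig m, D g ∈ Eig (m - k)) (r : ℤ) {g : RatF d n} (hg : g ∈ NU A) :
    Γ.G (r + k) (D g + D (ff A) * g) = D (Γ.G r g) + kap u • (D (ff A) / ff A) * Γ.G r g := by
  have hf := ff_ne_zero hl
  induction hg using NU_induction with
  | mem m g _ hg =>
    rw [map_add, Γ.G_eq _ _ _ (hD _ _ hg), Γ.G_eq _ _ _ (Eig.mul (hD _ _ ff_mem_Eig) hg),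
      Γ.G_eq _ _ _ hg, show m - k + (r + k) = m + r by ring,
      show -1 - k + m + (r + k) = m + r - 1 by ring, Γ.c_rec, Derivation.map_smul,
      Derivation.leibniz, Derivation.leibniz_zpow, zpow_sub_one₀ hf]
    simp only [smul_eq_mul, zsmul_eq_mul]
    simp only [Algebra.smul_def, map_mul, map_add, map_intCast]
    field_simp
    ring
  | zero => simp
  | add a b _ _ ha hb =>
    rw [map_add D, mul_add, add_add_add_comm, map_add, ha, hb, map_add, map_add, mul_add]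
    abel

theorem G_Ne (i : Fin (d + 1)) (r : ℤ) {g : RatF d n} (hg : g ∈ NU A) :
    Γ.G (r + 1) (Ne A u i g) = Np A u i (Γ.G r g) := by
  have h1 := Γ.G_conn hl (pd (.inl i)) 1 (fun m g hg => Eig.pd_t hg i) r hg
  have h2 := Γ.G_mul (uT_mem_Eig (A := A) (u := u) i) (r + 1) hg
  rw [show r + 1 + -1 = r by ring] at h2
  rw [Ne_apply, add_mul, ← add_assoc, map_add, h1, h2, Np_apply, omegaCoef_eq]
  ring

theorem G_rhoE (r : ℤ) (P : Weyl n) {g : RatF d n} (hg : g ∈ NU A) :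
    Γ.G r (rhoE A P g) = rhoP A u P (Γ.G r g) := by
  induction P using weyl_induction generalizing g with
  | hc a => simp [AlgHom.commutes]
  | hz j => rw [rhoE_zOp, rhoP_zOp, Γ.G_mul (z_mem_Eig j) r hg, add_zero]
  | hd j =>
    have h1 := Γ.G_conn hl (pd (.inr j)) 0 (fun m g hg => Eig.of_eq (Eig.pd_z hg j) (by ring)) r hg
    rw [add_zero, pd_z_ff'] at h1
    rw [rhoE_dOp, rhoP_dOp, h1]
  | hmul P Q hP hQ =>
    simp only [map_mul, Module.End.mul_apply, hP (rhoE_mem_NU A Q hg), hQ hg]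
  | hadd P Q hP hQ => simp only [map_add, LinearMap.add_apply, hP hg, hQ hg]

theorem G_Lop (r : ℤ) {g : RatF d n} (hg : g ∈ NU A) : Γ.G r (Lop A u r g) = 0 := by
  have hf := ff_ne_zero hl
  induction hg using NU_induction with
  | mem m g _ hg =>
    rw [Lop_apply, mem_Eig.1 hg, map_sub, map_add, map_smul, map_smul, Γ.G_eq _ _ _ hg,
      Γ.G_eq _ _ _ (Eig.mul ff_mem_Eig hg), show -1 + m + r = m + r - 1 by ring, Γ.c_rec,
      zpow_sub_one₀ hf]
    simp only [Algebra.smul_def, map_mul, map_add, map_intCast, Int.cast_add]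
    field_simp
    ring
  | zero => simp
  | add a b _ _ ha hb => simp only [map_add, ha, hb, add_zero]

omit hl in
theorem ff_zpow_mem_poleRing (k : ℤ) : ff A ^ k ∈ poleRing A := by
  obtain ⟨m, rfl | rfl⟩ := Int.eq_nat_or_neg k
  · rw [zpow_natCast]; exact pow_mem (NU_le_poleRing A (NN_le_NU A (ff_mem_NN A))) m
  · rw [zpow_neg, zpow_natCast, ← inv_pow]; exact pow_mem (Algebra.subset_adjoin (by simp)) m

omit hl in
theorem G_mem (r : ℤ) {g : RatF d n} (hg : g ∈ NU A) :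
    Γ.G r g ∈ poleRing A ∧ Γ.G r g ∈ Eig (-r) := by
  induction hg using NU_induction with
  | mem m g hg' hg =>
    rw [Γ.G_eq _ _ _ hg]
    exact ⟨Subalgebra.smul_mem _ (mul_mem (ff_zpow_mem_poleRing _) (NU_le_poleRing A hg')) _,
      Submodule.smul_mem _ _ (Eig.of_eq (Eig.mul (ff_zpow_mem_Eig _) hg) (by ring))⟩
  | zero => simp
  | add a b _ _ ha hb => rw [map_add]; exact ⟨add_mem ha.1 hb.1, add_mem ha.2 hb.2⟩

omit Γ in
theorem exists_pow_mul_mem {g : RatF d n} (hg : g ∈ poleRing A) :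
    ∃ N : ℕ, ff A ^ N * g ∈ NU A := by
  have hf := ff_ne_zero hl
  have hfm : ff A ∈ NU A := NN_le_NU A (ff_mem_NN A)
  induction hg using Algebra.adjoin_induction with
  | mem x hx =>
    rcases hx with hx | rfl
    · exact ⟨0, by rw [pow_zero, one_mul]; exact Algebra.subset_adjoin hx⟩
    · exact ⟨1, by simp [mul_inv_cancel₀ hf]⟩
  | algebraMap c => exact ⟨0, by simp⟩
  | add x y _ _ hx hy =>
    obtain ⟨a, ha⟩ := hx
    obtain ⟨b, hb⟩ := hy
    refine ⟨a + b, ?_⟩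
    have : ff A ^ (a + b) * (x + y) = ff A ^ b * (ff A ^ a * x) + ff A ^ a * (ff A ^ b * y) := by
      ring
    rw [this]
    exact add_mem (mul_mem (pow_mem hfm _) ha) (mul_mem (pow_mem hfm _) hb)
  | mul x y _ _ hx hy =>
    obtain ⟨a, ha⟩ := hx
    obtain ⟨b, hb⟩ := hy
    refine ⟨a + b, ?_⟩
    have : ff A ^ (a + b) * (x * y) = (ff A ^ a * x) * (ff A ^ b * y) := by ring
    rw [this]
    exact mul_mem ha hb

theorem G_surj (r : ℤ) {g : RatF d n} (hg : g ∈ poleRing A) (he : g ∈ Eig (-r)) :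
    ∃ h ∈ NU A, Γ.G r h = g := by
  have hf := ff_ne_zero hl
  obtain ⟨N, hN⟩ := exists_pow_mul_mem hl hg
  have h1 : ff A ^ N * g ∈ Eig (-N + -r) := by
    rw [← zpow_natCast]; exact Eig.mul (ff_zpow_mem_Eig _) he
  refine ⟨(Γ.c (-N))⁻¹ • (ff A ^ N * g), Subalgebra.smul_mem _ hN _, ?_⟩
  rw [map_smul, Γ.G_eq _ _ _ h1, show -(N : ℤ) + -r + r = -N by ring, smul_smul,
    inv_mul_cancel₀ (Γ.c_ne _), one_smul, zpow_neg, zpow_natCast, ← mul_assoc,
    inv_mul_cancel₀ (pow_ne_zero _ hf), one_mul]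

omit hl in
include Γ in
theorem reduce_degree (r : ℤ) {g : RatF d n} (hg : g ∈ NU A) :
    ∃ a : ℤ, ∀ b ≤ a, ∃ h ∈ NU A, h ∈ Eig b ∧ ∃ k ∈ NU A, g = h + Lop A u r k := by
  have hfm : ff A ∈ NU A := NN_le_NU A (ff_mem_NN A)
  induction hg using NU_induction with
  | mem m g hg' hg =>
    refine ⟨m, fun b hb => ?_⟩
    induction b, hb using Int.leInductionDown with
    | base => exact ⟨g, hg', hg, 0, zero_mem _, by simp⟩
    | pred b _ ih =>
      obtain ⟨h, h1, h2, k, h3, h4⟩ := ih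
      have hne := Γ.hκ (b + r)
      refine ⟨(((b + r : ℤ) : ℂ) + kap u)⁻¹ • (ff A * h), Subalgebra.smul_mem _ (mul_mem hfm h1) _,
        Submodule.smul_mem _ _ (Eig.of_eq (Eig.mul ff_mem_Eig h2) (by ring)),
        k + (((b + r : ℤ) : ℂ) + kap u)⁻¹ • h, add_mem h3 (Subalgebra.smul_mem _ h1 _), ?_⟩
      rw [h4, map_add, map_smul, Lop_apply A u r h, mem_Eig.1 h2, ← add_smul, smul_sub,
        smul_smul, ← add_assoc (b : ℂ), ← Int.cast_add, inv_mul_cancel₀ hne, one_smul]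
      abel
  | zero => exact ⟨0, fun b _ => ⟨0, zero_mem _, zero_mem _, 0, zero_mem _, by simp⟩⟩
  | add x y _ _ hx hy =>
    obtain ⟨a, ha⟩ := hx
    obtain ⟨a', ha'⟩ := hy
    refine ⟨min a a', fun b hb => ?_⟩
    obtain ⟨h, h1, h2, k, h3, h4⟩ := ha b (hb.trans (min_le_left _ _))
    obtain ⟨h', h1', h2', k', h3', h4'⟩ := ha' b (hb.trans (min_le_right _ _))
    refine ⟨h + h', add_mem h1 h1', add_mem h2 h2', k + k', add_mem h3 h3', ?_⟩
    rw [h4, h4', map_add]; abel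

theorem G_ker (r : ℤ) {g : RatF d n} (hg : g ∈ NU A) (h0 : Γ.G r g = 0) :
    ∃ k ∈ NU A, Lop A u r k = g := by
  obtain ⟨a, ha⟩ := Γ.reduce_degree r hg
  obtain ⟨h, -, h2, k, h3, h4⟩ := ha a le_rfl
  rw [h4, map_add, Γ.G_Lop hl r h3, add_zero, Γ.G_eq _ _ _ h2, smul_eq_zero, mul_eq_zero] at h0
  rcases h0 with h0 | h0 | h0
  · exact absurd h0 (Γ.c_ne _)
  · exact absurd h0 (zpow_ne_zero _ (ff_ne_zero hl))
  · exact ⟨k, h3, by rw [h4, h0, zero_add]⟩

end GamData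

theorem Lop_inj (hl : ∀ j, ell A j ≠ 0) (r : ℤ) {g : RatF d n} (hg : g ∈ NU A)
    (h0 : Lop A u r g = 0) : g = 0 := by
  have hf := ff_ne_zero hl
  let Lo : ℤ → Submodule ℂ (RatF d n) := fun a => ⨆ m ∈ Set.Ici a, Eig m
  let Hi : ℤ → Submodule ℂ (RatF d n) := fun a => ⨆ m ∈ Set.Iio a, Eig m
  have hLo : ∀ {a m x}, a ≤ m → x ∈ Eig m → x ∈ Lo a := fun {a m x} h1 h2 =>
    Submodule.mem_iSup_of_mem m (Submodule.mem_iSup_of_mem h1 h2)
  have hHi : ∀ {a m x}, m < a → x ∈ Eig m → x ∈ Hi a := fun {a m x} h1 h2 =>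
    Submodule.mem_iSup_of_mem m (Submodule.mem_iSup_of_mem h1 h2)
  have h1 : ∃ a b : ℤ, ∀ a' ≤ a, ∀ b' ≥ b, g ∈ Lo a' ∧ g ∈ Hi b' := by
    clear h0
    induction hg using NU_induction with
    | mem m g _ hg =>
      exact ⟨m, m + 1, fun a' ha b' hb => ⟨hLo ha hg, hHi (by omega) hg⟩⟩
    | zero => exact ⟨0, 0, fun _ _ _ _ => ⟨zero_mem _, zero_mem _⟩⟩
    | add x y _ _ hx hy =>
      obtain ⟨a, b, h⟩ := hx
      obtain ⟨a₁, b₁, h₁⟩ := hy
      refine ⟨min a a₁, max b b₁, fun a' ha b' hb => ?_⟩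
      have k1 := h a' (ha.trans (min_le_left _ _)) b' ((le_max_left _ _).trans hb)
      have k2 := h₁ a' (ha.trans (min_le_right _ _)) b' ((le_max_right _ _).trans hb)
      exact ⟨add_mem k1.1 k2.1, add_mem k1.2 k2.2⟩
  have step : ∀ a x, x ∈ Lo a →
      (ff A)⁻¹ * (euler x + ((r : ℂ) + kap u) • x) ∈ Lo (a + 1) := by
    intro a x hx
    simp only [Lo, iSup_subtype'] at hx
    refine Submodule.iSup_induction _
      (motive := fun x => (ff A)⁻¹ * (euler x + ((r : ℂ) + kap u) • x) ∈ Lo (a + 1)) hx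
      (fun m x hx => ?_) (by simp) (fun x y hx hy => ?_)
    · have : (ff A)⁻¹ ∈ Eig (d := d) (n := n) 1 := by simpa using ff_zpow_mem_Eig (A := A) (-1)
      rw [mem_Eig.1 hx, ← add_smul]
      exact hLo (by have := m.2; simp only [Set.mem_Ici] at this; omega)
        (Eig.mul this (Submodule.smul_mem _ _ hx))
    · rw [map_add, smul_add, add_add_add_comm, mul_add]; exact add_mem hx hy
  have hg' : (ff A)⁻¹ * (euler g + ((r : ℂ) + kap u) • g) = g := by
    rw [Lop_apply, sub_eq_zero] at h0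
    rw [h0, ← mul_assoc, inv_mul_cancel₀ hf, one_mul]
  obtain ⟨a, b, h⟩ := h1
  have h2 : ∀ a' ≥ a, g ∈ Lo a' := by
    intro a' ha'
    induction a', ha' using Int.leInduction with
    | base => exact (h a le_rfl b le_rfl).1
    | succ a' _ ih => rw [← hg']; exact step _ _ ih
  have h3 : Disjoint (Lo (max a b)) (Hi (max a b)) :=
    eig_indep.disjoint_biSup_biSup (Set.Iio_disjoint_Ici le_rfl).symm
  exact (Submodule.disjoint_def.1 h3) g (h2 _ (le_max_left _ _))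
    (h a le_rfl _ (le_max_right _ _)).2

end

end Pool.Agent.P.MP_2f98db_ag
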