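import Pool.Agent.P.MP_2f98db_ag.Noeth

/-!
Assembly of the proof.
-/

open MvPolynomial

namespace Pool.Agent.P.MP_2f98db_ag

noncomputable section

variable {d n : ℕ} {A : Matrix (Fin (d + 1)) (Fin (n + 1)) ℂ} {u : Fin (n + 1) → ℂ}

def SN (A : Matrix (Fin (d + 1)) (Fin (n + 1)) ℂ) (u : Fin (n + 1) → ℂ) :
    Submodule ℂ (RatF d n) := ⨆ i, (NU A).toSubmodule.map (Ne A u i)

theorem Ne_mem_SN (i : Fin (d + 1)) {g : RatF d n} (hg : g ∈ NU A) : Ne A u i g ∈ SN A u :=
  Submodule.mem_iSup_of_mem i ⟨g, hg, rfl⟩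

theorem SN_induction {motive : RatF d n → Prop} {x : RatF d n} (hx : x ∈ SN A u)
    (h1 : ∀ i, ∀ g ∈ NU A, motive (Ne A u i g)) (h0 : motive 0)
    (add : ∀ a b, motive a → motive b → motive (a + b)) : motive x :=
  Submodule.iSup_induction _ (motive := motive) hx
    (by rintro i _ ⟨g, hg, rfl⟩; exact h1 i g hg) h0 add

theorem YY_pow_mul_Ne (k : ℕ) (i : Fin (d + 1)) (g : RatF d n) :
    YY A ^ k * Ne A u i g = Ne A (sh u k) i (YY A ^ k * g) := by
  induction k with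
  | zero => simp [sh_zero]
  | succ k ih => rw [pow_succ', mul_assoc, ih, YY_mul_Ne, sh_succ, mul_assoc]

section

variable (hl : ∀ j, ell A j ≠ 0)
include hl

theorem YY_ne_zero : YY A ≠ 0 := Finset.prod_ne_zero_iff.2 fun j _ => y_ne_zero hl j

omit hl in
theorem YY_inv_mem : (YY A)⁻¹ ∈ NU A := by
  rw [YY, ← Finset.prod_inv_distrib]
  exact Subalgebra.prod_mem _ fun j _ => by
    rw [yv, inv_inv]; exact OU_le_NU A (ell_mem_OU A j)

theorem exists_YY_pow_mul {B : Matrix (Fin (n + 1)) (Fin (d + 1)) ℂ} (hB : A * B = 1)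
    {g : RatF d n} (hg : g ∈ NU A) : ∃ k : ℕ, YY A ^ k * g ∈ NN A := by
  have hY : YY A ∈ NN A := OY_le_NN A YY_mem_OY
  induction hg using Algebra.adjoin_induction with
  | mem x hx =>
    refine ⟨1, ?_⟩
    rw [pow_one]
    rcases hx with (⟨i, rfl⟩ | ⟨i, rfl⟩) | ⟨i, rfl⟩
    · have : (tv i : RatF d n) = ∑ j, B j i • ell A j := by
        simp only [ell, Finset.smul_sum, smul_smul]
        rw [Finset.sum_comm]
        simp only [← Finset.sum_smul, mul_comm (B _ i), ← Matrix.mul_apply, hB, Matrix.one_apply]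
        simp
      rw [this, Finset.mul_sum]
      refine Subalgebra.sum_mem _ fun j _ => ?_
      rw [mul_smul_comm, YY, ← Finset.prod_erase_mul _ _ (Finset.mem_univ j), mul_assoc,
        mul_comm (yv A j), ell_mul_y hl, mul_one]
      exact Subalgebra.smul_mem _ (Subalgebra.prod_mem _ fun j _ => y_mem_NN A j) _
    · exact mul_mem hY (z_mem_NN A i)
    · exact mul_mem hY (y_mem_NN A i)
  | algebraMap c => exact ⟨0, by simp⟩
  | add x y _ _ hx hy =>
    obtain ⟨a, ha⟩ := hx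
    obtain ⟨b, hb⟩ := hy
    refine ⟨a + b, ?_⟩
    have : YY A ^ (a + b) * (x + y) = YY A ^ b * (YY A ^ a * x) + YY A ^ a * (YY A ^ b * y) := by
      ring
    rw [this]
    exact add_mem (mul_mem (pow_mem hY _) ha) (mul_mem (pow_mem hY _) hb)
  | mul x y _ _ hx hy =>
    obtain ⟨a, ha⟩ := hx
    obtain ⟨b, hb⟩ := hy
    refine ⟨a + b, ?_⟩
    have : YY A ^ (a + b) * (x * y) = (YY A ^ a * x) * (YY A ^ b * y) := by ring
    rw [this]
    exact mul_mem ha hb

theorem inv_mul_mem_SN (k : ℕ) {b : RatF d n} (hb : b ∈ RR A (sh u k)) :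
    (YY A ^ k)⁻¹ * b ∈ SN A u := by
  have h0 : YY A ^ k ≠ 0 := pow_ne_zero _ (YY_ne_zero hl)
  have h1 : ∀ i, ∀ g ∈ NU A, (YY A ^ k)⁻¹ * Ne A (sh u k) i g ∈ SN A u := by
    intro i g hg
    have := YY_pow_mul_Ne (A := A) (u := u) k i ((YY A ^ k)⁻¹ * g)
    rw [mul_inv_cancel_left₀ h0] at this
    rw [← this, inv_mul_cancel_left₀ h0]
    exact Ne_mem_SN i (mul_mem (by rw [← inv_pow]; exact pow_mem YY_inv_mem _) hg)
  refine RR_induction (motive := fun b => (YY A ^ k)⁻¹ * b ∈ SN A u) hb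
    (fun i g hg => h1 i g (NN_le_NU A hg)) (fun g hg => ?_)
    (fun a b ha hb => by rw [mul_add]; exact add_mem ha hb)
  rw [← sum_Ne_t _ hl, Finset.mul_sum]
  exact Submodule.sum_mem _ fun i _ => h1 i _ (mul_mem (t_mem_NU A i) (NN_le_NU A hg))

theorem exists_sub_mem_SN {B : Matrix (Fin (n + 1)) (Fin (d + 1)) ℂ} (hB : A * B = 1)
    (hu : NonRes u) {g : RatF d n} (hg : g ∈ NU A) : ∃ P, g - rhoE A P 1 ∈ SN A u := by
  obtain ⟨k, hk⟩ := exists_YY_pow_mul hl hB hg
  obtain ⟨a, ha, b, hb, h⟩ := contig_surj_pow hl hu k hk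
  obtain ⟨P, rfl⟩ := exists_rhoE_one ha
  refine ⟨P, ?_⟩
  have h0 : YY A ^ k ≠ 0 := pow_ne_zero _ (YY_ne_zero hl)
  convert inv_mul_mem_SN hl k hb using 1
  rw [eq_inv_mul_iff_mul_eq₀ h0, mul_sub, h, add_sub_cancel_left]

theorem mem_RR_of_mem_SN {B : Matrix (Fin (n + 1)) (Fin (d + 1)) ℂ} (hB : A * B = 1)
    (hgood : ∀ k, Good A (sh u k)) {g : RatF d n} (hg : g ∈ NN A) (hg' : g ∈ SN A u) :
    g ∈ RR A u := by
  have hY : YY A ∈ NN A := OY_le_NN A YY_mem_OY
  obtain ⟨k, hk⟩ : ∃ k, ∀ k' ≥ k, YY A ^ k' * g ∈ RR A (sh u k') := by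
    refine SN_induction (motive := fun g => ∃ k, ∀ k' ≥ k, YY A ^ k' * g ∈ RR A (sh u k')) hg'
      (fun i h hh => ?_) ⟨0, by simp⟩ ?_
    · obtain ⟨k, hk⟩ := exists_YY_pow_mul hl hB hh
      refine ⟨k, fun k' hk' => ?_⟩
      rw [YY_pow_mul_Ne]
      apply Ne_mem_RR
      rw [← Nat.sub_add_cancel hk', pow_add, mul_assoc]
      exact mul_mem (pow_mem hY _) hk
    · rintro a b ⟨k, hk⟩ ⟨k₁, hk₁⟩
      exact ⟨k + k₁, fun k' h => by
        rw [mul_add]; exact add_mem (hk _ (by omega)) (hk₁ _ (by omega))⟩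
  replace hk := hk k le_rfl
  induction k with
  | zero => simpa [sh_zero] using hk
  | succ k ih =>
    refine ih (hgood k _ (mul_mem (pow_mem hY _) hg) ?_)
    rwa [← sh_succ, ← mul_assoc, ← pow_succ']

omit hl in
theorem rhoE_opP (i : Fin (d + 1)) : rhoE A (opP A u i) 1 = -Ne A u i 1 := by
  simp only [opP, map_sum, map_smul, map_sub, map_mul, sq, LinearMap.sum_apply,
    LinearMap.smul_apply, LinearMap.sub_apply, Module.End.mul_apply, rhoE_zOp, rhoE_dOp, Ne_apply,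
    pd_t_ff, uT, Derivation.map_one_eq_zero, zero_add, mul_one, pd_z_y, smul_sub,
    Finset.sum_sub_distrib, smul_smul, mul_comm (A i _)]
  abel

omit hl in
theorem rhoE_opH : rhoE A (opH d u) 1 = -Lop A u (d + 1) 1 := by
  simp only [opH, map_add, map_sum, map_mul, LinearMap.add_apply, LinearMap.sum_apply,
    Module.End.mul_apply, rhoE_zOp, rhoE_dOp, AlgHom.commutes, Module.algebraMap_end_apply,
    Lop_apply, ff_eq, Derivation.map_one_eq_zero, zero_add, mul_one, sPar, kap]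
  push_cast
  module

theorem rhoE_mem_RR_iff (P : Weyl n) : rhoE A P 1 ∈ RR A u ↔ P ∈ hyperIdeal A u := by
  constructor
  · intro h
    obtain ⟨Q, hQ, h2⟩ : ∃ Q ∈ hyperIdeal A u, rhoE A Q 1 = rhoE A P 1 := by
      refine RR_induction (motive := fun x => ∃ Q ∈ hyperIdeal A u, rhoE A Q 1 = x) h
        (fun i g hg => ?_) (fun g hg => ?_) ?_
      · obtain ⟨Q, rfl⟩ := exists_rhoE_one hg
        refine ⟨-Q * opP A u i, Submodule.smul_mem _ (-Q)
          (Submodule.subset_span (Or.inl (Or.inr ⟨i, rfl⟩))), ?_⟩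
        simp [rhoE_opP, Ne_rhoE]
      · obtain ⟨Q, rfl⟩ := exists_rhoE_one hg
        refine ⟨-Q * opH d u, Submodule.smul_mem _ (-Q)
          (Submodule.subset_span (Or.inl (Or.inl rfl))), ?_⟩
        simp [rhoE_opH, Lop_rhoE]
      · rintro _ _ ⟨a, ha, rfl⟩ ⟨b, hb, rfl⟩
        exact ⟨a + b, add_mem ha hb, by simp⟩
    have := mem_hyperIdeal_of_rhoE hl u (P := P - Q) (by simp [h2])
    simpa using add_mem this hQ
  · intro h
    induction h using Submodule.span_induction with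
    | mem x hx =>
      rcases hx with (rfl | ⟨i, rfl⟩) | ⟨h, k, h1, h2, rfl⟩
      · rw [rhoE_opH]; exact neg_mem (Lop_mem_RR u (one_mem _))
      · rw [rhoE_opP]; exact neg_mem (Ne_mem_RR u i (one_mem _))
      · rw [evalD_eq, rhoE_dHom _ (one_mem _), (vanishes_iff hl h1).1 h2]; simp
    | zero => simp
    | add x y _ _ hx hy => rw [map_add]; exact add_mem hx hy
    | smul a x _ hx => rw [smul_eq_mul, map_mul]; exact rhoE_mem_RR a hx

end

/-! ### Forms -/

def vol : RatF d n →ₗ[ℂ] VV d n := LinearMap.single ℂ (fun _ => RatF d n) Finset.univ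

theorem vol_apply (g : RatF d n) (I : Finset (Fin (d + 1))) :
    vol g I = if I = Finset.univ then g else 0 := by
  simp [vol, Pi.single_apply]

theorem card_eq_iff (I : Finset (Fin (d + 1))) : (I.card : ℤ) = d + 1 ↔ I = Finset.univ := by
  rw [← Finset.card_eq_iff_eq_univ, Fintype.card_fin]; omega

theorem deg_vol (g : RatF d n) : Deg (d + 1) (vol g) := fun I hI => by
  rw [vol_apply, if_neg (mt (card_eq_iff I).2 hI)]

theorem in_vol {W : Submodule ℂ (RatF d n)} {g : RatF d n} (hg : g ∈ W) : In W (vol g) :=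
  fun I => by rw [vol_apply]; split_ifs; exacts [hg, zero_mem _]

theorem eq_vol {η : VV d n} (h : Deg (d + 1) η) : η = vol (η Finset.univ) := by
  funext I
  rw [vol_apply]
  split_ifs with hI
  · rw [hI]
  · exact h I (mt (card_eq_iff I).1 hI)

theorem lift_vol (T : Module.End ℂ (RatF d n)) (g : RatF d n) : lift T (vol g) = vol (T g) := by
  funext I
  simp only [lift_apply, vol_apply]
  split_ifs <;> simp

abbrev iT : Module.End ℂ (VV d n) := iV fun i => mu (tv i)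

theorem iT_iT (η : VV d n) : iT (iT η) = 0 :=
  LinearMap.congr_fun (iV_iV (fun i => mu (tv i : RatF d n)) fun i j => by
    ext g; simp [mul_left_comm]) η

theorem nabla_eq (η : VV d n) : nabla A u η = dV (Np A u) η := by
  funext I; rw [dV_apply]; rfl

theorem contract_eq (η : VV d n) : contract η = iT η := by
  funext I; rw [iV_apply]; rfl

theorem mem_Omega {hor : Bool} {p : ℤ} {η : VV d n} : InOmega A hor p η ↔
    Deg p η ∧ (∀ I, η I ∈ poleRing A ∧ η I ∈ Eig (-p)) ∧ (hor = true → iT η = 0) := by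
  simp only [mem_Eig, ← isHomogT_iff, ← contract_eq]
  rfl

/-- `Ω^p` as a subspace. -/
def OmegaS (A : Matrix (Fin (d + 1)) (Fin (n + 1)) ℂ) (hor : Bool) (p : ℤ) :
    Submodule ℂ (VV d n) where
  carrier := {η | InOmega A hor p η}
  zero_mem' := mem_Omega.2 ⟨fun _ _ => rfl, fun _ => ⟨zero_mem _, zero_mem _⟩, fun _ => map_zero _⟩
  add_mem' := by
    intro η η' h h'
    obtain ⟨h1, h2, h3⟩ := mem_Omega.1 h
    obtain ⟨h1', h2', h3'⟩ := mem_Omega.1 h'
    exact mem_Omega.2 ⟨h1.add h1', fun I => ⟨add_mem (h2 I).1 (h2' I).1,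
      add_mem (h2 I).2 (h2' I).2⟩, fun h => by rw [map_add, h3 h, h3' h, add_zero]⟩
  smul_mem' := by
    intro c η h
    obtain ⟨h1, h2, h3⟩ := mem_Omega.1 h
    exact mem_Omega.2 ⟨h1.smul c, fun I => ⟨Subalgebra.smul_mem _ (h2 I).1 c,
      Submodule.smul_mem _ c (h2 I).2⟩, fun h => by rw [map_smul, h3 h, smul_zero]⟩

/-- The exact forms of degree `d`. -/
def Exact (A : Matrix (Fin (d + 1)) (Fin (n + 1)) ℂ) (u : Fin (n + 1) → ℂ) (hor : Bool) :
    Submodule ℂ (VV d n) := (OmegaS A hor (d - 1)).map (dV (Np A u))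

theorem mem_Exact {hor : Bool} {η : VV d n} :
    η ∈ Exact A u hor ↔ ∃ β, InOmega A hor (d - 1) β ∧ nabla A u β = η := by
  simp only [nabla_eq]; rfl

theorem InOmega.rhoP {hor : Bool} {p : ℤ} {η : VV d n} (h : InOmega A hor p η) (P : Weyl n) :
    InOmega A hor p (lift (rhoP A u P) η) := by
  obtain ⟨h1, h2, h3⟩ := mem_Omega.1 h
  refine mem_Omega.2 ⟨h1.lift _, fun I => ?_, fun h => ?_⟩
  · simp only [mem_Eig] at h2 ⊢
    exact weylRep_mem A u _ P _ (h2 I)
  · have : lift (Pool.Agent.P.MP_2f98db_ag.rhoP A u P) (iT η) =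
        iT (lift (Pool.Agent.P.MP_2f98db_ag.rhoP A u P) η) :=
      lift_iV (W := ⊤) (fun _ => trivial) fun i g _ =>
        (weylRep_comm _ _ (mu (tv i)) (fun j g => by simp [mul_left_comm])
          (fun j g => by simp [pd_z_tv]; ring) P g).symm
    rw [← this, h3 h, map_zero]

theorem nabla_rhoP (P : Weyl n) (η : VV d n) :
    nabla A u (lift (rhoP A u P) η) = lift (rhoP A u P) (nabla A u η) := by
  rw [nabla_eq, nabla_eq]
  exact (lift_dV (W := ⊤) (fun _ => trivial) fun i g _ => (nabla_comm A u i P g).symm).symm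

theorem In.iT {η : VV d n} (h : In (NU A).toSubmodule η) :
    In (NU A).toSubmodule (Pool.Agent.P.MP_2f98db_ag.iT η) :=
  h.iV fun i _ hg => (NU A).mul_mem (t_mem_NU A i) hg

theorem In.dNe {η : VV d n} (h : In (NU A).toSubmodule η) :
    In (NU A).toSubmodule (Pool.Agent.P.MP_2f98db_ag.dV (Ne A u) η) :=
  h.dV fun i _ hg => Ne_mem_NU A u i hg

theorem dV_top (S : Fin (d + 1) → Module.End ℂ (RatF d n)) {η : VV d n} (h : Deg (d + 1) η) :
    dV S η = 0 := by
  funext I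
  refine h.dV S I ?_
  have := I.card_le_univ
  rw [Fintype.card_fin] at this
  omega

namespace GamData

variable (Γ : GamData A u) (hl : ∀ j, ell A j ≠ 0)

theorem lift_iT (r : ℤ) {η : VV d n} (h : In (NU A).toSubmodule η) :
    lift (Γ.G r) (iT η) = iT (lift (Γ.G (r + 1)) η) :=
  lift_iV h fun i _ hg => Γ.G_mul (t_mem_Eig i) r hg

include hl in
theorem lift_dNe (r : ℤ) {η : VV d n} (h : In (NU A).toSubmodule η) :
    lift (Γ.G (r + 1)) (dV (Ne A u) η) = dV (Np A u) (lift (Γ.G r) η) :=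
  lift_dV h fun i _ hg => Γ.G_Ne hl i r hg

include hl in
theorem lift_Lop (r : ℤ) {η : VV d n} (h : In (NU A).toSubmodule η) :
    lift (Γ.G r) (lift (Lop A u r) η) = 0 := funext fun I => Γ.G_Lop hl r (h I)

theorem lift_mem (p : ℤ) {η : VV d n} (h : In (NU A).toSubmodule η) (h2 : Deg p η) :
    InOmega A false p (lift (Γ.G p) η) :=
  mem_Omega.2 ⟨h2.lift _, fun I => Γ.G_mem p (h I), by simp⟩

theorem lift_iT_mem (hor : Bool) (p : ℤ) {η : VV d n} (h : In (NU A).toSubmodule η)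
    (h2 : Deg (p + 1) η) : InOmega A hor p (lift (Γ.G p) (iT η)) :=
  mem_Omega.2 ⟨(by simpa using h2.iV _ : Deg p (iT η)).lift _, fun I => Γ.G_mem p (h.iT I),
    fun _ => by rw [Γ.lift_iT p h, iT_iT]⟩

include hl in
theorem lift_surj {p : ℤ} {η : VV d n} (h1 : Deg p η)
    (h2 : ∀ I, η I ∈ poleRing A ∧ η I ∈ Eig (-p)) :
    ∃ η', In (NU A).toSubmodule η' ∧ Deg p η' ∧ lift (Γ.G p) η' = η := by
  classical
  choose f hf hf' using fun I => Γ.G_surj hl p (h2 I).1 (h2 I).2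
  refine ⟨fun I => if (I.card : ℤ) = p then f I else 0, fun I => ?_, fun I hI => if_neg hI,
    funext fun I => ?_⟩
  · dsimp only; split_ifs; exacts [hf I, zero_mem _]
  · rw [lift_apply]
    split_ifs with h
    · exact hf' I
    · rw [map_zero, h1 I h]

include hl in
theorem lift_ker {p : ℤ} {η : VV d n} (h1 : In (NU A).toSubmodule η) (h2 : Deg p η)
    (h3 : lift (Γ.G p) η = 0) :
    ∃ γ, In (NU A).toSubmodule γ ∧ Deg p γ ∧ lift (Lop A u p) γ = η := by
  choose f hf hf' using fun I => Γ.G_ker hl p (h1 I) (congrFun h3 I)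
  exact ⟨f, hf, fun I hI => Lop_inj hl p (hf I) ((hf' I).trans (h2 I hI)), funext hf'⟩

def Psi : RatF d n →ₗ[ℂ] VV d n := (lift (Γ.G d) * iT).comp vol

theorem Psi_apply (g : RatF d n) : Γ.Psi g = lift (Γ.G d) (iT (vol g)) := rfl

include hl

theorem Psi_mem (hor : Bool) {g : RatF d n} (hg : g ∈ NU A) :
    InOmega A hor d (Γ.Psi g) ∧ nabla A u (Γ.Psi g) = 0 := by
  have h1 : In (NU A).toSubmodule (vol g) := in_vol hg
  refine ⟨Γ.lift_iT_mem hor d h1 (deg_vol g), ?_⟩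
  have := cartan_e u hl (deg_vol g)
  rw [dV_top _ (deg_vol g), map_zero, add_zero] at this
  rw [nabla_eq, Psi_apply, ← Γ.lift_dNe hl d h1.iT, this, Γ.lift_Lop hl _ h1]

theorem Psi_rhoE (P : Weyl n) {g : RatF d n} (hg : g ∈ NU A) :
    Γ.Psi (rhoE A P g) = lift (rhoP A u P) (Γ.Psi g) := by
  have h1 : In (NU A).toSubmodule (vol g) := in_vol hg
  have h2 : lift (rhoE A P) (iT (vol g)) = iT (lift (rhoE A P) (vol g)) :=
    lift_iV h1 (fun i g _ => (mul_rhoE A (t_mem_OU A i) P g).symm)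
  rw [Psi_apply, Psi_apply, ← lift_vol, ← h2]
  exact funext fun I => Γ.G_rhoE hl d P (h1.iT I)

omit hl in
theorem Psi_one : Γ.Psi 1 = genForm A := by
  have h1 : In (NU A).toSubmodule (vol 1) := in_vol (NU A).one_mem
  rw [Psi_apply, Γ.lift_iT d h1, lift_vol, Γ.G_eq _ _ _ one_mem_Eig, zero_add, Γ.c_one, one_smul,
    mul_one]
  funext I
  rw [iV_apply, genForm, ← Finset.sum_compl_add_sum I, Finset.sum_eq_zero (s := I), add_zero]
  · refine Finset.sum_congr rfl fun i hi => ?_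
    rw [Finset.mem_compl] at hi
    rw [vol_apply]
    by_cases h : I = Finset.univ.erase i
    · have h2 : sgn i I = (-1) ^ (i : ℕ) := by
        rw [h, sgn_erase (Finset.mem_univ i), if_neg (lt_irrefl i), one_mul, sgn,
          Finset.filter_gt_eq_Iio, Fin.card_Iio]
      rw [if_pos h, if_pos (by rw [h]; simp), h2, ← Int.natCast_succ, zpow_natCast]
      simp [Algebra.smul_def, mul_comm]
    · rw [if_neg h, if_neg (fun h' => h (by rw [← h', Finset.erase_insert hi])), map_zero,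
        smul_zero]
  · intro i hi
    rw [if_neg (fun h => by rw [h] at hi; simp at hi)]

theorem Psi_exact (hor : Bool) {g : RatF d n} (hg : g ∈ SN A u) :
    Γ.Psi g ∈ Exact A u hor := by
  refine SN_induction (motive := fun g => Γ.Psi g ∈ Exact A u hor) hg
    (fun i h hh => ?_) (by rw [map_zero]; exact zero_mem _)
    (fun a b ha hb => by rw [map_add]; exact add_mem ha hb)
  let S : Fin (d + 1) → Module.End ℂ (RatF d n) := Pi.single i 1
  have h1 : In (NU A).toSubmodule (iV S (vol h)) :=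
    (in_vol (W := (NU A).toSubmodule) hh).iV fun k g hg => by
    by_cases hk : k = i
    · subst hk; simpa [S] using hg
    · simp [S, hk]
  have h2 : Deg d (iV S (vol h)) := by simpa using (deg_vol h).iV S
  have h3 : dV (Ne A u) (iV S (vol h)) = vol (Ne A u i h) := by
    rw [eq_vol (h2.dV (Ne A u)), dV_apply, Finset.sum_eq_single i _ (by simp)]
    · rw [iV_apply]
      simp [S, vol_apply, smul_smul, sgn_erase, sgn_mul_self]
    · intro k _ hk
      rw [iV_apply]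
      simp [S, hk]
  have h4 := cartan_e u hl h2
  rw [h3, ← eq_sub_iff_add_eq'] at h4
  refine ⟨-lift (Γ.G (d - 1)) (iT (iV S (vol h))),
    (OmegaS A hor _).neg_mem (Γ.lift_iT_mem hor _ h1 (by simpa using h2)), ?_⟩
  rw [map_neg, ← Γ.lift_dNe hl _ h1.iT, sub_add_cancel, Psi_apply, h4, map_sub,
    Γ.lift_Lop hl _ h1, zero_sub]

theorem mem_SN_of_exact (hor : Bool) {g : RatF d n} (hg : g ∈ NU A)
    (h : Γ.Psi g ∈ Exact A u hor) : g ∈ SN A u := by
  obtain ⟨β, hβ, h⟩ := h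
  obtain ⟨β', k1, k2, rfl⟩ := Γ.lift_surj hl (mem_Omega.1 hβ).1 (mem_Omega.1 hβ).2.1
  have h1 : In (NU A).toSubmodule (vol g) := in_vol hg
  rw [← Γ.lift_dNe hl _ k1, sub_add_cancel] at h
  obtain ⟨γ, l1, l2, l3⟩ := Γ.lift_ker hl (p := d) (η := iT (vol g) - dV (Ne A u) β')
    (fun I => sub_mem (h1.iT I) (k1.dNe I))
    ((by simpa using (deg_vol g).iV _ : Deg d _).sub (by simpa using k2.dV (Ne A u)))
    (by rw [map_sub]; exact sub_eq_zero.2 h.symm)
  have dd : ∀ η : VV d n, dV (Ne A u) (dV (Ne A u) η) = 0 := fun η =>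
    LinearMap.congr_fun (dV_dV _ (Ne_comm A u)) η
  have c1 := cartan_e u hl (deg_vol g)
  have c2 := cartan_e u hl l2
  have c3 := cartan_e u hl (l2.dV (Ne A u))
  rw [dV_top _ (deg_vol g), map_zero, add_zero] at c1
  rw [dd, map_zero, add_zero] at c3
  have c4 := congrArg (dV (Ne A u)) l3
  rw [← c2, map_add, dd, zero_add, c3, map_sub, dd, sub_zero, c1] at c4
  have c5 := congrFun c4 Finset.univ
  rw [lift_apply, lift_apply, vol_apply, if_pos rfl, ← sub_eq_zero, ← map_sub] at c5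
  have c6 := Lop_inj hl _ (sub_mem (l1.dNe _) hg) c5
  rw [← sub_eq_zero.1 c6, dV_apply]
  exact Submodule.sum_mem _ fun i _ => Submodule.smul_mem _ _ (Ne_mem_SN i (l1 _))

theorem exists_Psi {B : Matrix (Fin (n + 1)) (Fin (d + 1)) ℂ} (hB : A * B = 1) (hor : Bool)
    {η : VV d n} (hη : InOmega A hor d η ∧ nabla A u η = 0) :
    ∃ g ∈ NU A, η - Γ.Psi g ∈ Exact A u hor := by
  obtain ⟨h1, h2, h3⟩ := mem_Omega.1 hη.1
  cases hor with
  | true =>
    let S : Fin (d + 1) → Module.End ℂ (RatF d n) := fun i => mu (A i 0 • yv A 0)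
    have c := LinearMap.congr_fun (cartan S (fun i => mu (tv i))) η
    have c1 : ∀ i k, S i * mu (tv k) - mu (tv k) * S i = 0 := fun i k => by
      ext g; simp [S, mul_left_comm]
    have c2 : ∑ i, mu (tv i) * S i = 1 := by
      ext g
      simp only [S, LinearMap.sum_apply, Module.End.mul_apply, LinearMap.mulLeft_apply,
        Module.End.one_apply, ← mul_assoc, ← Finset.sum_mul, mul_smul_comm, ← smul_mul_assoc]
      rw [← ell, ell_mul_y hl, one_mul]
    simp only [c1, c2, map_zero, mul_zero, Finset.sum_const_zero, zero_add, map_one,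
      LinearMap.add_apply, Module.End.mul_apply, h3 rfl, Module.End.one_apply] at c
    obtain ⟨η', k1, k2, k3⟩ := Γ.lift_surj hl (h1.dV S) fun I => by
      rw [dV_apply]
      refine ⟨Subalgebra.sum_mem _ fun i _ => Subalgebra.smul_mem _ (mul_mem
        (Subalgebra.smul_mem _ (NU_le_poleRing A (y_mem_NU A 0)) _) (h2 _).1) _,
        Submodule.sum_mem _ fun i _ => Submodule.smul_mem _ _ (Eig.of_eq
          (Eig.mul (Submodule.smul_mem _ _ (y_mem_Eig 0)) (h2 _).2) (by ring))⟩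
    refine ⟨η' Finset.univ, k1 _, ?_⟩
    rw [Psi_apply, ← eq_vol k2, Γ.lift_iT _ k1, k3, c, sub_self]
    exact zero_mem _
  | false =>
    obtain ⟨η', k1, k2, rfl⟩ := Γ.lift_surj hl h1 h2
    have h4 : nabla A u _ = 0 := hη.2
    rw [nabla_eq, ← Γ.lift_dNe hl _ k1] at h4
    obtain ⟨γ, l1, l2, l3⟩ := Γ.lift_ker hl k1.dNe (k2.dV _) h4
    have c1 := cartan_e u hl l2
    rw [dV_top _ l2, map_zero, add_zero, l3] at c1
    obtain ⟨β, m1, m2, m3⟩ := koszul hl hB u (p := d) le_rfl (η := η' - iT γ)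
      (fun I => sub_mem (k1 I) (l1.iT I)) (k2.sub (by simpa using l2.iV _))
      (by rw [map_sub, c1, sub_self])
    refine ⟨γ Finset.univ, l1 _, lift (Γ.G (d - 1)) β, Γ.lift_mem _ m1 m2, ?_⟩
    rw [← Γ.lift_dNe hl _ m1, sub_add_cancel, m3, map_sub, Psi_apply, ← eq_vol l2]

end GamData

/-- The conclusion of the theorem for one parameter `u`. -/
def Concl (A : Matrix (Fin (d + 1)) (Fin (n + 1)) ℂ) (u : Fin (n + 1) → ℂ) (hor : Bool) : Prop :=
  ∃ ρ : Weyl n →ₐ[ℂ] Module.End ℂ (RatF d n),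
    (∀ j g, ρ (zOp j) g = zv j * g) ∧
    (∀ j g, ρ (dOp j) g =
      pd (.inr j) g - (sPar d u + (d + 1)) • (pd (.inr j) (ff A) / ff A * g)) ∧
    (∀ P p η, InOmega A hor p η → InOmega A hor p (fun I => ρ P (η I))) ∧
    (∀ P η, nabla A u (fun I => ρ P (η I)) = fun I => ρ P (nabla A u η I)) ∧
    (InOmega A hor d (genForm A) ∧ nabla A u (genForm A) = 0) ∧
    (∀ P, (∃ β, InOmega A hor (d - 1) β ∧ nabla A u β = fun I => ρ P (genForm A I)) ↔
      P ∈ hyperIdeal A u) ∧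
    (∀ η, InOmega A hor d η → nabla A u η = 0 →
      ∃ P β, InOmega A hor (d - 1) β ∧ η = (fun I => ρ P (genForm A I)) + nabla A u β)

theorem main_of_indep (hrank : A.rank = d + 1) (hcol : ∀ j, ∃ i, A i j ≠ 0)
    {R : Type} [Field R] [Algebra R ℂ] (hR : ∀ i j, A i j ∈ Set.range (algebraMap R ℂ))
    (hu : AlgebraicIndependent R u) (hor : Bool) : Concl A u hor := by
  have hl : ∀ j, ell A j ≠ 0 := fun j h => by
    obtain ⟨i, hi⟩ := hcol j
    have := pd_t_ell A i j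
    rw [h, map_zero, eq_comm, map_eq_zero] at this
    exact hi this
  obtain ⟨B, hB⟩ : ∃ B : Matrix (Fin (n + 1)) (Fin (d + 1)) ℂ, A * B = 1 := by
    have h1 : LinearMap.range A.mulVecLin = ⊤ :=
      Submodule.eq_top_of_finrank_eq (by rw [← Matrix.rank, hrank]; simp)
    exact Matrix.mulVec_surjective_iff_exists_right_inverse.1 (LinearMap.range_eq_top.1 h1)
  have hnr := nonRes_of_indep hu
  obtain ⟨Γ⟩ := exists_gamData (A := A) (u := u) fun m => by
    rw [add_comm]; exact hnr _ Finset.univ_nonempty m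
  have hP : ∀ P : Weyl n, (fun I => rhoP A u P (genForm A I)) = Γ.Psi (rhoE A P 1) := fun P => by
    rw [Γ.Psi_rhoE hl P (one_mem _), Γ.Psi_one]; rfl
  refine ⟨rhoP A u, rhoP_zOp A u, fun j g => ?_, fun P p η h => h.rhoP P, nabla_rhoP,
    Γ.Psi_one ▸ Γ.Psi_mem hl hor (one_mem _), fun P => ?_, fun η h1 h2 => ?_⟩
  · rw [rhoP_dOp, ← neg_sPar u d, pd_z_ff', neg_smul, neg_mul, smul_mul_assoc, sub_eq_add_neg]
  · rw [← mem_Exact, hP, ← rhoE_mem_RR_iff hl]
    have h1 := rhoE_mem_NN A P (one_mem _)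
    refine ⟨fun h => mem_RR_of_mem_SN hl hB (good_of_indep hl hR hu) h1
      (Γ.mem_SN_of_exact hl hor (NN_le_NU A h1) h), fun h => Γ.Psi_exact hl hor ?_⟩
    simpa using inv_mul_mem_SN hl 0 (u := u) (by rwa [sh_zero])
  · obtain ⟨g, hg, k1⟩ := Γ.exists_Psi hl hB hor ⟨h1, h2⟩
    obtain ⟨P, k2⟩ := exists_sub_mem_SN hl hB hnr hg
    obtain ⟨β, k3, k4⟩ := mem_Exact.1 (add_mem k1 (Γ.Psi_exact hl hor k2))
    refine ⟨P, β, k3, ?_⟩
    rw [hP, k4, map_sub]
    abel

theorem main (A : Matrix (Fin (d + 1)) (Fin (n + 1)) ℂ)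
    (hrank : A.rank = d + 1) (hcol : ∀ j, ∃ i, A i j ≠ 0) :
    ∃ Z : ℕ → Ideal (MvPolynomial (Fin (n + 1)) ℂ),
      (∀ k, zeroLocus ℂ (Z k) ≠ Set.univ) ∧
      ∀ u : Fin (n + 1) → ℂ, (∀ k, u ∉ zeroLocus ℂ (Z k)) → ∀ hor : Bool, Concl A u hor := by
  let R : Subfield ℂ := Subfield.closure (Set.range fun x : Fin (d + 1) × Fin (n + 1) => A x.1 x.2)
  have hR : Countable R := by
    rw [← Cardinal.mk_le_aleph0_iff]
    refine (Subfield.cardinalMk_closure_le_max _).trans (max_le ?_ le_rfl)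
    exact (Set.finite_range _).lt_aleph0.le
  have : Countable (MvPolynomial (Fin (n + 1)) R) := by
    rw [← Cardinal.mk_le_aleph0_iff]
    exact MvPolynomial.cardinalMk_le_max.trans (by simp)
  have : Nonempty {p : MvPolynomial (Fin (n + 1)) R // p ≠ 0} := ⟨⟨1, one_ne_zero⟩⟩
  obtain ⟨f, hf⟩ := exists_surjective_nat {p : MvPolynomial (Fin (n + 1)) R // p ≠ 0}
  refine ⟨fun k => Ideal.span {map (algebraMap R ℂ) (f k).1}, fun k h => ?_, fun u hu hor => ?_⟩
  · apply (f k).2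
    apply map_injective (algebraMap R ℂ) (algebraMap R ℂ).injective
    rw [map_zero]
    refine MvPolynomial.funext fun x => ?_
    have : x ∈ zeroLocus ℂ (Ideal.span {map (algebraMap R ℂ) (f k).1}) := h ▸ Set.mem_univ x
    rw [map_zero, ← coe_aeval_eq_eval]
    exact this _ (Ideal.subset_span rfl)
  · refine main_of_indep hrank hcol (R := R)
      (fun i j => ⟨⟨A i j, Subfield.subset_closure ⟨(i, j), rfl⟩⟩, rfl⟩) ?_ hor
    rw [algebraicIndependent_iff]
    intro p hp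
    by_contra h0
    obtain ⟨k, hk⟩ := hf ⟨p, h0⟩
    apply hu k
    rw [zeroLocus_span]
    rintro _ rfl
    rw [hk, aeval_map_algebraMap, hp]

end

end Pool.Agent.P.MP_2f98db_ag
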