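import Pool.Agent.P.MP_2f98db_ag.Contig

/-!
Injectivity of the contiguity maps for generic parameters.
-/

open MvPolynomial

namespace Pool.Agent.P.MP_2f98db_ag

noncomputable section

section acc

variable {σ : Type} [Finite σ]

def Low (M : ℕ) (p : MvPolynomial σ ℂ) : Prop := ∀ α : σ →₀ ℕ, M ≤ α.degree → p.coeff α = 0

omit [Finite σ] in
theorem degree_sub_single [DecidableEq σ] {α : σ →₀ ℕ} {s : σ} (h : s ∈ α.support) :
    (α - Finsupp.single s 1).degree + 1 = α.degree := by
  have : α = α - Finsupp.single s 1 + Finsupp.single s 1 :=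
    (tsub_add_cancel_of_le (by
      simpa [Finsupp.single_le_iff] using Nat.one_le_iff_ne_zero.2 (Finsupp.mem_support_iff.1 h))).symm
  conv_rhs => rw [this]
  simp

/-- The ideal of leading forms of a stable subspace. -/
def leadIdeal (R : σ → MvPolynomial σ ℂ → MvPolynomial σ ℂ)
    (hR : ∀ s M p, Low M p → Low M (R s p)) (W : Submodule ℂ (MvPolynomial σ ℂ))
    (hW : ∀ s, ∀ p ∈ W, X s * p + R s p ∈ W) : Ideal (MvPolynomial σ ℂ) where
  carrier := {q | ∀ M, ∃ p ∈ W, Low (M + 1) p ∧ ∀ α : σ →₀ ℕ, α.degree = M → p.coeff α = q.coeff α}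
  zero_mem' := fun M => ⟨0, zero_mem _, fun _ _ => rfl, fun _ _ => rfl⟩
  add_mem' := by
    intro a b ha hb M
    obtain ⟨p, h1, h2, h3⟩ := ha M
    obtain ⟨q, k1, k2, k3⟩ := hb M
    exact ⟨p + q, add_mem h1 k1, fun α h => by rw [coeff_add, h2 α h, k2 α h, add_zero],
      fun α h => by rw [coeff_add, coeff_add, h3 α h, k3 α h]⟩
  smul_mem' := by
    classical
    intro c q hq
    rw [smul_eq_mul]
    induction c using MvPolynomial.induction_on generalizing q with
    | C a =>
      intro M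
      obtain ⟨p, h1, h2, h3⟩ := hq M
      exact ⟨a • p, W.smul_mem a h1, fun α h => by rw [coeff_smul, h2 α h, smul_zero],
        fun α h => by rw [coeff_smul, coeff_C_mul, h3 α h, smul_eq_mul]⟩
    | add a b ha hb =>
      intro M
      obtain ⟨p, h1, h2, h3⟩ := ha hq M
      obtain ⟨p', k1, k2, k3⟩ := hb hq M
      exact ⟨p + p', add_mem h1 k1, fun α h => by rw [coeff_add, h2 α h, k2 α h, add_zero],
        fun α h => by rw [add_mul, coeff_add, coeff_add, h3 α h, k3 α h]⟩
    | mul_X c s hc =>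
      rw [mul_assoc]
      apply hc
      intro M
      cases M with
      | zero =>
        refine ⟨0, zero_mem _, fun _ _ => rfl, fun α h => ?_⟩
        rw [(Finsupp.degree_eq_zero_iff α).1 h, coeff_X_mul']; simp
      | succ M =>
        obtain ⟨p, h1, h2, h3⟩ := hq M
        refine ⟨X s * p + R s p, hW s p h1, fun α h => ?_, fun α h => ?_⟩
        · rw [coeff_add, hR s _ p h2 α (by omega), add_zero, coeff_X_mul']
          split_ifs with hs
          · exact h2 _ (by have := degree_sub_single hs; omega)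
          · rfl
        · rw [coeff_add, hR s _ p h2 α (by omega), add_zero, coeff_X_mul', coeff_X_mul']
          split_ifs with hs
          · exact h3 _ (by have := degree_sub_single hs; omega)
          · rfl

theorem acc_stable (R : σ → MvPolynomial σ ℂ → MvPolynomial σ ℂ)
    (hR : ∀ s M p, Low M p → Low M (R s p)) (W : ℕ → Submodule ℂ (MvPolynomial σ ℂ))
    (hW : ∀ k s, ∀ p ∈ W k, X s * p + R s p ∈ W k) (hmono : Monotone W) :
    ∃ k, W (k + 1) ≤ W k := by
  classical
  obtain ⟨k, hk⟩ := monotone_stabilizes_iff_noetherian.2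
    (inferInstance : IsNoetherian (MvPolynomial σ ℂ) (MvPolynomial σ ℂ))
    ⟨fun k => leadIdeal R hR (W k) (hW k), fun a b hab q hq M => by
      obtain ⟨p, h1, h2⟩ := hq M
      exact ⟨p, hmono hab h1, h2⟩⟩
  refine ⟨k, fun p hp => ?_⟩
  obtain ⟨M, hM⟩ : ∃ M, Low M p := ⟨p.totalDegree + 1, fun α hα =>
    coeff_eq_zero_of_totalDegree_lt (by rw [Finsupp.degree_apply] at hα; omega)⟩
  induction M generalizing p with
  | zero => rw [MvPolynomial.ext p 0 fun α => hM α (Nat.zero_le _)]; exact zero_mem _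
  | succ M ih =>
    have h1 : homogeneousComponent M p ∈ leadIdeal R hR (W (k + 1)) (hW (k + 1)) := by
      intro M'
      by_cases h : M' = M
      · subst h
        exact ⟨p, hp, hM, fun α hα => by rw [coeff_homogeneousComponent, if_pos hα]⟩
      · exact ⟨0, zero_mem _, fun _ _ => rfl, fun α hα => by
          rw [coeff_homogeneousComponent, if_neg (by omega)]; rfl⟩
    have h2 : homogeneousComponent M p ∈ leadIdeal R hR (W k) (hW k) := by
      have := hk (k + 1) (by omega)
      simp only [OrderHom.coe_mk] at this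
      rwa [this]
    obtain ⟨q, k1, k2, k3⟩ := h2 M
    have h3 := ih _ (sub_mem hp (hmono (Nat.le_succ k) k1)) fun α hα => by
      rw [coeff_sub]
      rcases hα.eq_or_lt with h | h
      · rw [k3 α h.symm, coeff_homogeneousComponent, if_pos h.symm, sub_self]
      · rw [hM α h, k2 α h, sub_self]
    simpa using add_mem h3 k1

end acc

variable {d n : ℕ} {A : Matrix (Fin (d + 1)) (Fin (n + 1)) ℂ}

def Good (A : Matrix (Fin (d + 1)) (Fin (n + 1)) ℂ) (v : Fin (n + 1) → ℂ) : Prop :=
  ∀ g ∈ NN A, YY A * g ∈ RR A (v + 1) → g ∈ RR A v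

def sh (u : Fin (n + 1) → ℂ) (k : ℕ) : Fin (n + 1) → ℂ := fun j => u j + k

theorem sh_succ (u : Fin (n + 1) → ℂ) (k : ℕ) : sh u (k + 1) = sh u k + 1 := by
  funext j; simp [sh, add_assoc]

theorem sh_zero (u : Fin (n + 1) → ℂ) : sh u 0 = u := by funext j; simp [sh]

def NonRes (u : Fin (n + 1) → ℂ) : Prop :=
  ∀ G : Finset (Fin (n + 1)), G.Nonempty → ∀ m : ℤ, ∑ a ∈ G, u a + m ≠ 0

theorem NonRes.sh {u : Fin (n + 1) → ℂ} (hu : NonRes u) (k : ℕ) : NonRes (sh u k) := by
  intro G hG m
  have := hu G hG (m + G.card * k)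
  simp only [Pool.Agent.P.MP_2f98db_ag.sh, Finset.sum_add_distrib, Finset.sum_const,
    nsmul_eq_mul]
  push_cast at this
  exact fun h => this (by linear_combination h)

theorem contig_surj_pow (hl : ∀ j, ell A j ≠ 0) {u : Fin (n + 1) → ℂ} (hu : NonRes u) (k : ℕ)
    {g : RatF d n} (hg : g ∈ NN A) : ∃ a ∈ NN A, ∃ b ∈ RR A (sh u k), g = YY A ^ k * a + b := by
  induction k generalizing g with
  | zero => exact ⟨g, hg, 0, zero_mem _, by simp⟩
  | succ k ih =>
    obtain ⟨a, ha, b, hb, rfl⟩ := contig_surj hl (hu.sh (k + 1)) hg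
    obtain ⟨a', ha', b', hb', rfl⟩ := ih ha
    refine ⟨a', ha', YY A * b' + b, add_mem (by rw [sh_succ]; exact YY_mul_mem_RR hb') hb, ?_⟩
    ring

theorem exists_good (hl : ∀ j, ell A j ≠ 0) {u : Fin (n + 1) → ℂ} (hu : NonRes u) :
    ∃ k, Good A (sh u k) := by
  classical
  let π : MvPolynomial (Fin (n + 1) ⊕ Fin (n + 1)) ℂ →ₐ[ℂ] RatF d n :=
    aeval (Sum.elim zv (yv A))
  have hπ : ∀ j p, π (pderiv (.inl j) p) = pd (.inr j) (π p) := by
    intro j p
    induction p using MvPolynomial.induction_on with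
    | C c => simp [π]
    | add p q hp hq => simp only [map_add, hp, hq]
    | mul_X p k hp =>
      rw [map_mul π, Derivation.leibniz (pd _), ← hp, pderiv_mul, pderiv_X, Pi.single_apply]
      rcases k with k | k
      · simp only [π, aeval_X, Sum.elim_inl, pd_z_zv, Sum.inl.injEq]
        split_ifs <;> simp <;> ring
      · simp [π, pd_z_y]; ring
  have hsurj : ∀ g ∈ NN A, ∃ p, π p = g := by
    intro g hg
    rw [NN, ← Set.Sum.elim_range, Algebra.adjoin_range_eq_range_aeval] at hg
    exact hg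
  have hY : ∀ k, YY A ^ k ∈ OU A := fun k => pow_mem (OY_le_OU A YY_mem_OY) k
  obtain ⟨k, hk⟩ := acc_stable (σ := Fin (n + 1) ⊕ Fin (n + 1))
    (Sum.elim (fun _ _ => 0) (fun j p => pderiv (.inl j) p))
    (by
      rintro (j | j) M p hp α hα
      · rfl
      · simp only [Sum.elim_inr]
        rw [coeff_pderiv, hp _ (by simp; omega), zero_mul])
    (fun k => (RR A (sh u k)).comap ((mu (YY A ^ k)).comp π.toLinearMap))
    (by
      rintro k (j | j) p hp
      · have := rhoE_mem_RR (zOp j) hp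
        simp only [Submodule.mem_comap, LinearMap.comp_apply, LinearMap.mulLeft_apply,
          AlgHom.toLinearMap_apply] at this ⊢
        rw [← mul_rhoE A (hY k), rhoE_zOp] at this
        simpa [π] using this
      · have := rhoE_mem_RR (dOp j) hp
        simp only [Submodule.mem_comap, LinearMap.comp_apply, LinearMap.mulLeft_apply,
          AlgHom.toLinearMap_apply] at this ⊢
        rw [← mul_rhoE A (hY k), rhoE_dOp, ← hπ, add_comm (π _)] at this
        simpa [π] using this)
    (monotone_nat_of_le_succ fun k p hp => by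
      have := YY_mul_mem_RR hp
      simp only [Submodule.mem_comap, LinearMap.comp_apply, LinearMap.mulLeft_apply,
        AlgHom.toLinearMap_apply] at this ⊢
      rwa [sh_succ, pow_succ', mul_assoc])
  refine ⟨k, fun g hg hg' => ?_⟩
  obtain ⟨a, ha, b, hb, rfl⟩ := contig_surj_pow hl hu k hg
  obtain ⟨p, rfl⟩ := hsurj a ha
  refine add_mem (hk (x := p) ?_) hb
  have := sub_mem hg' (YY_mul_mem_RR hb)
  simp only [Submodule.mem_comap, LinearMap.comp_apply, LinearMap.mulLeft_apply,
    AlgHom.toLinearMap_apply]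
  rw [sh_succ]
  convert this using 1
  ring

section transport

variable (σ : ℂ →+* ℂ)

theorem map_comp_injective :
    Function.Injective ((algebraMap (Pol d n) (RatF d n)).comp (MvPolynomial.map σ)) :=
  (IsFractionRing.injective (Pol d n) (RatF d n)).comp (map_injective σ σ.injective)

def tau : RatF d n →+* RatF d n := IsFractionRing.lift (map_comp_injective σ)

theorem tau_algebraMap (p : Pol d n) :
    tau σ (algebraMap (Pol d n) (RatF d n) p) = algebraMap (Pol d n) (RatF d n) (map σ p) :=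
  IsFractionRing.lift_algebraMap _ _

theorem tau_tau (σ' : ℂ →+* ℂ) (h : ∀ c, σ' (σ c) = c) (g : RatF d n) :
    tau σ' (tau σ g) = g := by
  have : (tau σ').comp (tau σ) = RingHom.id (RatF d n) := by
    apply IsLocalization.ringHom_ext (nonZeroDivisors (Pol d n))
    refine RingHom.ext fun p => ?_
    simp only [RingHom.comp_apply, RingHom.id_apply, tau_algebraMap, map_map]
    rw [show σ'.comp σ = RingHom.id ℂ from RingHom.ext h, map_id]
  exact RingHom.congr_fun this g

theorem tau_pd (v : Fin (d + 1) ⊕ Fin (n + 1)) (g : RatF d n) :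
    tau σ (pd v g) = pd v (tau σ g) := by
  obtain ⟨a, b, -, rfl⟩ := IsFractionRing.div_surjective (Pol d n) g
  simp only [Derivation.leibniz_div, map_div₀, smul_eq_mul, map_mul, map_sub, map_pow, map_inv₀,
    pd_algebraMap, tau_algebraMap, pderiv_map]

theorem tau_C (c : ℂ) : tau σ (algebraMap ℂ (RatF d n) c) = algebraMap ℂ (RatF d n) (σ c) := by
  rw [IsScalarTower.algebraMap_apply ℂ (Pol d n) (RatF d n), tau_algebraMap,
    IsScalarTower.algebraMap_apply ℂ (Pol d n) (RatF d n), algebraMap_eq, map_C]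

theorem tau_smul (c : ℂ) (g : RatF d n) : tau σ (c • g) = σ c • tau σ g := by
  rw [Algebra.smul_def, map_mul, tau_C, Algebra.smul_def]

theorem tau_tv (i : Fin (d + 1)) : tau σ (tv i : RatF d n) = tv i := by
  rw [tv, tau_algebraMap, map_X]

theorem tau_zv (i : Fin (n + 1)) : tau σ (zv i : RatF d n) = zv i := by
  rw [zv, tau_algebraMap, map_X]

variable {σ} (hσ : ∀ i j, σ (A i j) = A i j)
include hσ

theorem tau_yv (j : Fin (n + 1)) : tau σ (yv A j) = yv A j := by
  simp [yv, ell, tau_smul, tau_tv, hσ]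

theorem tau_ff : tau σ (ff A) = ff A := by simp [ff_eq, tau_yv hσ, tau_zv]

theorem tau_YY : tau σ (YY A) = YY A := by simp [YY, tau_yv hσ]

theorem tau_mem_NN {g : RatF d n} (hg : g ∈ NN A) : tau σ g ∈ NN A := by
  induction hg using Algebra.adjoin_induction with
  | mem x hx =>
    rcases hx with ⟨i, rfl⟩ | ⟨i, rfl⟩
    · rw [tau_zv]; exact z_mem_NN A i
    · rw [tau_yv hσ]; exact y_mem_NN A i
  | algebraMap c => rw [tau_C]; exact Subalgebra.algebraMap_mem _ _
  | add x y _ _ hx hy => rw [map_add]; exact add_mem hx hy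
  | mul x y _ _ hx hy => rw [map_mul]; exact mul_mem hx hy

theorem tau_mem_RR {v : Fin (n + 1) → ℂ} {g : RatF d n} (hg : g ∈ RR A v) :
    tau σ g ∈ RR A (fun j => σ (v j)) := by
  refine RR_induction (motive := fun g => tau σ g ∈ RR A (fun j => σ (v j))) hg
    (fun i g hg => ?_) (fun g hg => ?_) (fun a b ha hb => by rw [map_add]; exact add_mem ha hb)
  · convert Ne_mem_RR _ i (tau_mem_NN hσ hg) using 1
    simp [Ne_apply, tau_pd, tau_ff hσ, uT, tau_smul, tau_yv hσ, hσ]
  · convert Lop_mem_RR _ (tau_mem_NN hσ hg) using 1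
    simp [Lop_apply, euler_apply, tau_pd, tau_ff hσ, kap, tau_smul, tau_tv]

end transport

theorem Good.transport {v : Fin (n + 1) → ℂ} (hv : Good A v) (σ : ℂ ≃+* ℂ)
    (hσ : ∀ i j, σ (A i j) = A i j) : Good A (fun j => σ (v j)) := by
  intro g hg hg'
  have hσ' : ∀ i j, (σ.symm : ℂ →+* ℂ) (A i j) = A i j := fun i j => by
    conv_lhs => rw [← hσ i j]
    simp
  have h1 := tau_mem_RR hσ' hg'
  rw [map_mul, tau_YY hσ'] at h1
  have h2 := hv _ (tau_mem_NN hσ' hg) (by convert h1 using 2; funext j; simp)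
  have h3 := tau_mem_RR (σ := (σ : ℂ →+* ℂ)) hσ h2
  rwa [tau_tau _ _ (fun c => by simp)] at h3

theorem exists_shift_aut {R : Type} [Field R] [Algebra R ℂ] {u : Fin (n + 1) → ℂ}
    (hu : AlgebraicIndependent R u) (c : ℤ) :
    ∃ σ : ℂ ≃+* ℂ, (∀ x : R, σ (algebraMap R ℂ x) = algebraMap R ℂ x) ∧
      ∀ j, σ (u j) = u j + c := by
  obtain ⟨t, ht, hb⟩ := exists_isTranscendenceBasis_superset (R := R) (s := Set.range u)
    hu.to_subtype_range
  have := IsAlgClosed.isAlgClosure_of_transcendence_basis _ hb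
  let e : MvPolynomial t R ≃ₐ[R] MvPolynomial t R :=
    AlgEquiv.ofAlgHom (aeval fun b => X b + (c : MvPolynomial t R))
      (aeval fun b => X b - (c : MvPolynomial t R))
      (by ext; simp) (by ext; simp)
  let σ := IsAlgClosure.equivOfEquiv ℂ ℂ
    ((hb.1.aevalEquiv.symm.trans (e.trans hb.1.aevalEquiv)).toRingEquiv)
  have hσ : ∀ p : MvPolynomial t R, σ (aeval (↑) p) = aeval (↑) (e p) := fun p => by
    rw [← hb.1.algebraMap_aevalEquiv, ← hb.1.algebraMap_aevalEquiv,
      IsAlgClosure.equivOfEquiv_algebraMap]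
    simp
  refine ⟨σ, fun x => by simpa [e] using hσ (C x), fun j => ?_⟩
  simpa [e] using hσ (X ⟨u j, ht ⟨j, rfl⟩⟩)

theorem nonRes_of_indep {R : Type} [Field R] [Algebra R ℂ] {u : Fin (n + 1) → ℂ}
    (hu : AlgebraicIndependent R u) : NonRes u := by
  intro G ⟨a, ha⟩ m h
  have h1 : (∑ b ∈ G, X b + (m : MvPolynomial (Fin (n + 1)) R)) = 0 :=
    hu (by simpa using h)
  have h2 := congrArg (pderiv a) h1
  simp [pderiv_X, Pi.single_apply, ha] at h2

theorem good_of_indep (hl : ∀ j, ell A j ≠ 0) {R : Type} [Field R] [Algebra R ℂ]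
    (hR : ∀ i j, A i j ∈ Set.range (algebraMap R ℂ)) {u : Fin (n + 1) → ℂ}
    (hu : AlgebraicIndependent R u) (i : ℕ) : Good A (sh u i) := by
  obtain ⟨k, hk⟩ := exists_good hl (nonRes_of_indep hu)
  obtain ⟨σ, h1, h2⟩ := exists_shift_aut hu (i - k)
  convert hk.transport σ fun i j => by obtain ⟨x, hx⟩ := hR i j; rw [← hx, h1]
  simp [sh, h2]
  ring

end

end Pool.Agent.P.MP_2f98db_ag
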