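import Pool.Agent.P.MP_2f98db_ag.Gamma

/-!
Normal forms in the Weyl algebra; `D / D I(L⁻¹) ≃ ℂ[z, 1/ℓ]`.
-/

open MvPolynomial

namespace Pool.Agent.P.MP_2f98db_ag

noncomputable section

variable {d n : ℕ} {A : Matrix (Fin (d + 1)) (Fin (n + 1)) ℂ}

theorem zOp_comm (i j : Fin (n + 1)) : zOp i * zOp j = zOp j * zOp i := by
  have := RingQuot.mkAlgHom_rel ℂ (WeylRel.zz i j)
  rw [map_mul, map_mul] at this
  exact this

theorem dOp_comm (i j : Fin (n + 1)) : dOp i * dOp j = dOp j * dOp i := by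
  have := RingQuot.mkAlgHom_rel ℂ (WeylRel.dd i j)
  rw [map_mul, map_mul] at this
  exact this

theorem dOp_zOp (i j : Fin (n + 1)) :
    dOp i * zOp j = zOp j * dOp i + if i = j then 1 else 0 := by
  have := RingQuot.mkAlgHom_rel ℂ (WeylRel.dz i j)
  rw [map_mul, map_add, map_mul, apply_ite (RingQuot.mkAlgHom ℂ (WeylRel n)), map_one,
    map_zero] at this
  exact this

open scoped IsMulCommutative in
theorem exists_ncAeval (x : Fin (n + 1) → Weyl n) (hx : ∀ i j, x i * x j = x j * x i) :
    ∃ φ : MvPolynomial (Fin (n + 1)) ℂ →ₐ[ℂ] Weyl n, ∀ j, φ (X j) = x j := by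
  have := Algebra.isMulCommutative_adjoin ℂ (s := Set.range x)
    (by rintro _ ⟨i, rfl⟩ _ ⟨j, rfl⟩; exact hx i j)
  refine ⟨(Algebra.adjoin ℂ (Set.range x)).val.comp
    (aeval fun j => ⟨x j, Algebra.subset_adjoin ⟨j, rfl⟩⟩), fun j => by simp⟩

def zHom : MvPolynomial (Fin (n + 1)) ℂ →ₐ[ℂ] Weyl n := (exists_ncAeval zOp zOp_comm).choose
def dHom : MvPolynomial (Fin (n + 1)) ℂ →ₐ[ℂ] Weyl n := (exists_ncAeval dOp dOp_comm).choose

@[simp] theorem zHom_X (j : Fin (n + 1)) : zHom (X j) = zOp j :=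
  (exists_ncAeval zOp zOp_comm).choose_spec j

@[simp] theorem dHom_X (j : Fin (n + 1)) : dHom (X j) = dOp j :=
  (exists_ncAeval dOp dOp_comm).choose_spec j

theorem evalD_eq (h : MvPolynomial (Fin (n + 1)) ℂ) : evalD h = dHom h := by
  conv_rhs => rw [h.as_sum, map_sum]
  refine Finset.sum_congr rfl fun α _ => ?_
  rw [monomial_eq, Finsupp.prod_fintype _ _ (by simp), ← List.prod_ofFn, map_mul, map_list_prod,
    List.map_ofFn, ← algebraMap_eq, AlgHom.commutes, Algebra.smul_def]
  congr 3
  funext j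
  simp

theorem dOp_zHom (j : Fin (n + 1)) (a : MvPolynomial (Fin (n + 1)) ℂ) :
    dOp j * zHom a = zHom a * dOp j + zHom (pderiv j a) := by
  induction a using MvPolynomial.induction_on with
  | C c => rw [pderiv_C, map_zero, add_zero, ← algebraMap_eq, AlgHom.commutes, Algebra.commutes]
  | add p q hp hq => simp only [map_add, mul_add, add_mul, hp, hq]; abel
  | mul_X p k hp =>
    rw [map_mul, zHom_X, ← mul_assoc, hp, add_mul, mul_assoc, dOp_zOp, pderiv_mul, map_add,
      map_mul, map_mul, zHom_X, pderiv_X, Pi.single_apply]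
    by_cases h : j = k
    · subst h; simp [mul_add, mul_assoc]; abel
    · simp [h, Ne.symm h, mul_assoc]

theorem rhoE_dHom (h : MvPolynomial (Fin (n + 1)) ℂ) {g : RatF d n} (hg : g ∈ OU A) :
    rhoE A (dHom h) g = aeval (yv A) h * g := by
  induction h using MvPolynomial.induction_on generalizing g with
  | C c => rw [← algebraMap_eq, AlgHom.commutes, AlgHom.commutes, AlgHom.commutes,
      Module.algebraMap_end_apply, Algebra.smul_def]
  | add p q hp hq => simp only [map_add, LinearMap.add_apply, hp hg, hq hg, add_mul]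
  | mul_X p k hp =>
    rw [map_mul, map_mul, dHom_X, Module.End.mul_apply, rhoE_dOp, pd_z_OU A k hg, zero_add,
      hp (mul_mem (y_mem_OU A k) hg), map_mul, aeval_X, mul_assoc]

theorem rhoE_zHom (h : MvPolynomial (Fin (n + 1)) ℂ) (g : RatF d n) :
    rhoE A (zHom h) g = aeval zv h * g := by
  induction h using MvPolynomial.induction_on generalizing g with
  | C c => rw [← algebraMap_eq, AlgHom.commutes, AlgHom.commutes, AlgHom.commutes,
      Module.algebraMap_end_apply, Algebra.smul_def]
  | add p q hp hq => simp only [map_add, LinearMap.add_apply, hp, hq, add_mul]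
  | mul_X p k hp =>
    rw [map_mul, map_mul, zHom_X, Module.End.mul_apply, rhoE_zOp, hp, map_mul, aeval_X, mul_assoc]

theorem exists_rhoE_one {g : RatF d n} (hg : g ∈ NN A) : ∃ P, rhoE A P 1 = g := by
  suffices h : ∀ P, ∃ Q, rhoE A Q 1 = g * rhoE A P 1 by simpa using h 1
  induction hg using Algebra.adjoin_induction with
  | mem x hx =>
    intro P
    rcases hx with ⟨j, rfl⟩ | ⟨j, rfl⟩
    · exact ⟨zOp j * P, by rw [map_mul, Module.End.mul_apply, rhoE_zOp]⟩
    · exact ⟨P * dOp j, by
        rw [map_mul, Module.End.mul_apply, rhoE_dOp, mul_rhoE A (y_mem_OU A j)]; simp⟩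
  | algebraMap c => exact fun P => ⟨c • P, by simp [Algebra.smul_def]⟩
  | add x y _ _ hx hy =>
    intro P
    obtain ⟨a, ha⟩ := hx P
    obtain ⟨b, hb⟩ := hy P
    exact ⟨a + b, by rw [map_add, LinearMap.add_apply, ha, hb, add_mul]⟩
  | mul x y _ _ hx hy =>
    intro P
    obtain ⟨b, hb⟩ := hy P
    obtain ⟨a, ha⟩ := hx b
    exact ⟨a, by rw [ha, hb, mul_assoc]⟩

theorem aeval_mul_of_isHomogeneous {R : Type*} [CommRing R] [Algebra ℂ R]
    {h : MvPolynomial (Fin (n + 1)) ℂ} {k : ℕ} (hh : h.IsHomogeneous k) (c : R)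
    (x : Fin (n + 1) → R) : aeval (fun j => c * x j) h = c ^ k * aeval x h := by
  rw [h.as_sum, map_sum, map_sum, Finset.mul_sum]
  refine Finset.sum_congr rfl fun α hα => ?_
  have hk : ∑ j, α j = k := by
    rw [← Finsupp.degree_eq_sum]
    by_contra hne
    exact mem_support_iff.1 hα (hh.coeff_eq_zero hne)
  rw [aeval_monomial, aeval_monomial, Finsupp.prod_fintype _ _ (by simp),
    Finsupp.prod_fintype _ _ (by simp)]
  simp only [mul_pow, Finset.prod_mul_distrib, Finset.prod_pow_eq_pow_sum, hk]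
  ring

theorem vanishes_iff (hl : ∀ j, ell A j ≠ 0) {h : MvPolynomial (Fin (n + 1)) ℂ} {k : ℕ}
    (hh : h.IsHomogeneous k) : VanishesOnRecip A h ↔ aeval (yv A) h = 0 := by
  let lP : Fin (n + 1) → Pol d n := fun j => ∑ i, A i j • X (.inl i)
  have hlP : ∀ j, algebraMap (Pol d n) (RatF d n) (lP j) = ell A j := fun j => by
    simp only [lP, map_sum, ell, tv, Algebra.smul_def, map_mul, ← IsScalarTower.algebraMap_apply]
  have hev : ∀ (x : Fin (d + 1) ⊕ Fin (n + 1) → ℂ) j,
      aeval x (lP j) = Matrix.vecMul (fun i => x (.inl i)) A j := fun x j => by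
    simp [lP, Matrix.vecMul, dotProduct, mul_comm]
  let q : Pol d n := aeval (fun j => ∏ i ∈ Finset.univ.erase j, lP i) h
  have key : ∀ {F : Type} [Field F] [Algebra ℂ F] (φ : Pol d n →ₐ[ℂ] F), (∀ j, φ (lP j) ≠ 0) →
      φ q = (∏ j, φ (lP j)) ^ k * aeval (fun j => (φ (lP j))⁻¹) h := by
    intro F _ _ φ hφ
    rw [← aeval_mul_of_isHomogeneous hh, ← AlgHom.comp_apply, comp_aeval]
    congr 2
    funext j
    rw [map_prod, ← Finset.mul_prod_erase _ _ (Finset.mem_univ j), mul_comm (φ (lP j)),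
      mul_assoc, mul_inv_cancel₀ (hφ j), mul_one]
  have k1 := key (IsScalarTower.toAlgHom ℂ (Pol d n) (RatF d n)) (fun j => by
    rw [IsScalarTower.toAlgHom_apply, hlP]; exact hl j)
  simp only [IsScalarTower.toAlgHom_apply, hlP] at k1
  have hΛ : (∏ j, ell A j) ^ k ≠ 0 := pow_ne_zero _ (Finset.prod_ne_zero_iff.2 fun j _ => hl j)
  have k2 : aeval (yv A) h = 0 ↔ q = 0 := by
    rw [← map_eq_zero_iff _ (IsFractionRing.injective (Pol d n) (RatF d n)), k1, mul_eq_zero,
      or_iff_right hΛ]
    rfl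
  rw [k2]
  constructor
  · intro hv
    have h0 : q * ∏ j, lP j = 0 := by
      refine MvPolynomial.funext fun x => ?_
      rw [map_zero, ← coe_aeval_eq_eval]
      change aeval x _ = 0
      rw [map_mul, map_prod]
      by_cases hx : ∀ j, aeval x (lP j) ≠ 0
      · rw [key (aeval x) hx]
        have := hv (fun i => x (.inl i)) (by simpa only [hev] using hx)
        simp only [hev]
        rw [← coe_aeval_eq_eval] at this
        change aeval _ h = 0 at this
        rw [this]; simp
      · push Not at hx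
        obtain ⟨j, hj⟩ := hx
        rw [Finset.prod_eq_zero (Finset.mem_univ j) hj, mul_zero]
    refine (mul_eq_zero.1 h0).resolve_right (Finset.prod_ne_zero_iff.2 fun j _ h => hl j ?_)
    rw [← hlP, h, map_zero]
  · intro hq c hc
    have hx : ∀ j, aeval (Sum.elim c (fun _ => 0) : Fin (d + 1) ⊕ Fin (n + 1) → ℂ) (lP j) ≠ 0 :=
      fun j => by rw [hev]; exact hc j
    have := key (aeval (Sum.elim c (fun _ => 0))) hx
    rw [hq, map_zero, eq_comm, mul_eq_zero,
      or_iff_right (pow_ne_zero _ (Finset.prod_ne_zero_iff.2 fun j _ => hx j))] at this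
    simp only [hev] at this
    rw [← coe_aeval_eq_eval]
    exact this

theorem aeval_y_mem_Eig {h : MvPolynomial (Fin (n + 1)) ℂ} {k : ℕ} (hh : h.IsHomogeneous k) :
    aeval (yv A) h ∈ Eig (-k) := by
  rw [h.as_sum, map_sum]
  refine Submodule.sum_mem _ fun α hα => ?_
  have hk : ∑ j, α j = k := by
    rw [← Finsupp.degree_eq_sum]
    by_contra hne
    exact mem_support_iff.1 hα (hh.coeff_eq_zero hne)
  rw [aeval_monomial, Finsupp.prod_fintype _ _ (by simp), ← Algebra.smul_def, ← hk]
  refine Submodule.smul_mem _ _ ?_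
  have hp : ∀ j (m : ℕ), yv A j ^ m ∈ Eig (-m) := fun j m => by
    induction m with
    | zero => simpa using one_mem_Eig
    | succ m ih => rw [pow_succ]; exact Eig.of_eq (Eig.mul ih (y_mem_Eig j)) (by push_cast; ring)
  induction (Finset.univ : Finset (Fin (n + 1))) using Finset.induction_on with
  | empty => simpa using one_mem_Eig
  | insert j s hj ih =>
    rw [Finset.prod_insert hj, Finset.sum_insert hj]
    exact Eig.of_eq (Eig.mul (hp j _) ih) (by push_cast; ring)

theorem dHom_mem_hyperIdeal (hl : ∀ j, ell A j ≠ 0) (u : Fin (n + 1) → ℂ)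
    {h : MvPolynomial (Fin (n + 1)) ℂ} (h0 : aeval (yv A) h = 0) : dHom h ∈ hyperIdeal A u := by
  have hind : iSupIndep fun k : ℕ => (Eig (-k) : Submodule ℂ (RatF d n)) :=
    eig_indep.comp (f := fun k : ℕ => (-k : ℤ)) fun a b h => by simpa using h
  have h1 := (iSupIndep_iff_finsetSum_eq_zero_imp_eq_zero _).1 hind
    (Finset.range (h.totalDegree + 1)) (fun k => aeval (yv A) (homogeneousComponent k h))
    (fun k _ => aeval_y_mem_Eig (homogeneousComponent_isHomogeneous k h))
    (by rw [← map_sum, sum_homogeneousComponent, h0])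
  rw [← sum_homogeneousComponent h, map_sum]
  refine Submodule.sum_mem _ fun k hk => Submodule.subset_span (Or.inr ⟨_, k,
    homogeneousComponent_isHomogeneous k h,
    (vanishes_iff hl (homogeneousComponent_isHomogeneous k h)).2 (h1 k hk), (evalD_eq _).symm⟩)

theorem pd_z_aeval (j : Fin (n + 1)) (p : MvPolynomial (Fin (n + 1)) ℂ) :
    pd (.inr j) (aeval (zv : _ → RatF d n) p) = aeval zv (pderiv j p) := by
  induction p using MvPolynomial.induction_on with
  | C c => simp
  | add p q hp hq => simp only [map_add, hp, hq]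
  | mul_X p k hp =>
    rw [map_mul, Derivation.leibniz, hp, aeval_X, pd_z_zv, pderiv_mul, pderiv_X, Pi.single_apply]
    split_ifs <;> simp <;> ring

theorem eq_zero_of_eval_z {q : MvPolynomial (Fin (n + 1)) (RatF d n)}
    (hq : ∀ α, q.coeff α ∈ OU A) (h0 : eval zv q = 0) : q = 0 := by
  have hd : ∀ (j) (q : MvPolynomial (Fin (n + 1)) (RatF d n)), (∀ α, q.coeff α ∈ OU A) →
      pd (.inr j) (eval zv q) = eval zv (pderiv j q) := by
    intro j q hq
    rw [q.as_sum, map_sum, map_sum, map_sum, map_sum]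
    refine Finset.sum_congr rfl fun α _ => ?_
    have : (monomial α (q.coeff α) : MvPolynomial _ (RatF d n)) =
        C (q.coeff α) * map (algebraMap ℂ _) (monomial α 1) := by simp [C_mul_monomial]
    rw [this, pderiv_C_mul, pderiv_map, map_mul (eval zv), map_mul (eval zv), eval_C, eval_map,
      eval_map,
      ← aeval_def, ← aeval_def, Derivation.leibniz, pd_z_OU A j (hq α), pd_z_aeval]
    simp
  obtain ⟨N, hN⟩ : ∃ N, ∀ α : Fin (n + 1) →₀ ℕ, N ≤ α.degree → q.coeff α = 0 :=
    ⟨q.totalDegree + 1, fun α hα => coeff_eq_zero_of_totalDegree_lt (by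
      rw [Finsupp.degree_apply] at hα; omega)⟩
  induction N generalizing q with
  | zero => exact MvPolynomial.ext _ _ fun α => hN α (Nat.zero_le _)
  | succ N ih =>
    have h1 : ∀ j, pderiv j q = 0 := fun j => by
      refine ih (fun α => ?_) (by rw [← hd j q hq, h0, map_zero]) fun α hα => ?_
      · rw [coeff_pderiv]
        exact mul_mem (hq _) (add_mem (natCast_mem _ _) (one_mem _))
      · rw [coeff_pderiv, hN _ (by simpa using hα), zero_mul]
    have h2 : q = C (q.coeff 0) := by
      refine MvPolynomial.ext _ _ fun α => ?_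
      rw [coeff_C]
      split_ifs with hα
      · rw [hα]
      · obtain ⟨j, hj⟩ : ∃ j, α j ≠ 0 := by
          by_contra hh
          push Not at hh
          exact hα (Finsupp.ext hh).symm
        have h3 := congrArg (coeff (α - Finsupp.single j 1)) (h1 j)
        rw [coeff_pderiv, coeff_zero, tsub_add_cancel_of_le (by
          simpa [Finsupp.single_le_iff] using Nat.one_le_iff_ne_zero.2 hj), mul_eq_zero] at h3
        have : CharZero (RatF d n) := (algebraMap ℂ (RatF d n)).charZero_iff
          (algebraMap ℂ (RatF d n)).injective |>.1 inferInstance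
        exact h3.resolve_right (Nat.cast_add_one_ne_zero _)
    rw [h2, eval_C] at h0
    rw [h2, h0, map_zero]

/-- Normal ordering. -/
def nuMap : ((Fin (n + 1) →₀ ℕ) →₀ MvPolynomial (Fin (n + 1)) ℂ) →ₗ[ℂ] Weyl n :=
  Finsupp.lsum ℂ fun α => (LinearMap.mulLeft ℂ (zHom (monomial α 1))).comp dHom.toLinearMap

theorem nuMap_single (α : Fin (n + 1) →₀ ℕ) (h : MvPolynomial (Fin (n + 1)) ℂ) :
    nuMap (Finsupp.single α h) = zHom (monomial α 1) * dHom h := by simp [nuMap]

theorem nuMap_surj (P : Weyl n) : P ∈ LinearMap.range (nuMap (n := n)) := by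
  have h1 : ∀ a h : MvPolynomial (Fin (n + 1)) ℂ, zHom a * dHom h ∈ LinearMap.range nuMap := by
    intro a h
    rw [a.as_sum, map_sum, Finset.sum_mul]
    refine Submodule.sum_mem _ fun α _ => ⟨a.coeff α • Finsupp.single α h, ?_⟩
    rw [map_smul, nuMap_single, ← smul_mul_assoc, ← map_smul, smul_monomial, smul_eq_mul, mul_one]
  suffices h : ∀ Q ∈ LinearMap.range (nuMap (n := n)), P * Q ∈ LinearMap.range nuMap by
    simpa using h 1 (by simpa using h1 1 1)
  have h2 : ∀ R : Weyl n, (∀ a h, R * (zHom a * dHom h) ∈ LinearMap.range nuMap) →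
      ∀ Q ∈ LinearMap.range (nuMap (n := n)), R * Q ∈ LinearMap.range nuMap := by
    rintro R hR _ ⟨c, rfl⟩
    induction c using Finsupp.induction_linear with
    | zero => simp
    | add a b ha hb => rw [map_add, mul_add]; exact add_mem ha hb
    | single α h => rw [nuMap_single]; exact hR _ _
  induction P using weyl_induction with
  | hc c => exact fun Q hQ => by rw [← Algebra.smul_def]; exact Submodule.smul_mem _ _ hQ
  | hz j =>
    refine h2 _ fun a h => ?_
    rw [← mul_assoc, ← zHom_X, ← map_mul]; exact h1 _ _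
  | hd j =>
    refine h2 _ fun a h => ?_
    rw [← mul_assoc, dOp_zHom, add_mul, mul_assoc, ← dHom_X, ← map_mul]
    exact add_mem (h1 _ _) (h1 _ _)
  | hmul P Q hP hQ => exact fun R hR => by rw [mul_assoc]; exact hP _ (hQ _ hR)
  | hadd P Q hP hQ => exact fun R hR => by rw [add_mul]; exact add_mem (hP _ hR) (hQ _ hR)

theorem mem_hyperIdeal_of_rhoE (hl : ∀ j, ell A j ≠ 0) (u : Fin (n + 1) → ℂ) {P : Weyl n}
    (h0 : rhoE A P 1 = 0) : P ∈ hyperIdeal A u := by
  obtain ⟨c, rfl⟩ := nuMap_surj P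
  let q : MvPolynomial (Fin (n + 1)) (RatF d n) :=
    ∑ α ∈ c.support, monomial α (aeval (yv A) (c α))
  have hc : ∀ α, q.coeff α = aeval (yv A) (c α) := fun α => by
    simp only [q, coeff_sum, coeff_monomial, Finset.sum_ite_eq', Finsupp.mem_support_iff]
    split_ifs with h
    · rfl
    · rw [not_not.1 h, map_zero]
  have hν : nuMap c = ∑ α ∈ c.support, zHom (monomial α 1) * dHom (c α) := by
    simp [nuMap, Finsupp.sum]
  have hq : q = 0 := by
    refine eq_zero_of_eval_z (A := A) (fun α => ?_) ?_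
    · rw [hc]
      apply OY_le_OU A
      rw [OY, Algebra.adjoin_range_eq_range_aeval]
      exact ⟨_, rfl⟩
    · rw [← h0, hν, map_sum, map_sum, LinearMap.sum_apply]
      refine Finset.sum_congr rfl fun α _ => ?_
      rw [map_mul, Module.End.mul_apply, rhoE_dHom _ (one_mem _), rhoE_zHom, aeval_monomial,
        eval_monomial]
      simp [mul_comm]
  rw [hν]
  refine Submodule.sum_mem _ fun α _ => Submodule.smul_mem _ (zHom (monomial α 1))
    (dHom_mem_hyperIdeal hl u ?_)
  rw [← hc, hq, coeff_zero]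

end

end Pool.Agent.P.MP_2f98db_ag
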