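import Pool.Agent.P.MP_2f98db_ag.DefsR

/-!
Basic facts about the definitions.
-/

open MvPolynomial

namespace Pool.Agent.P.MP_2f98db_ag

noncomputable section

variable {d n : ℕ}
variable (A : Matrix (Fin (d + 1)) (Fin (n + 1)) ℂ) (u : Fin (n + 1) → ℂ)

/-- The Euler derivation `∑_i t_i ∂/∂t_i` (used only in proofs, see `isHomogT_iff`). -/
def euler : Derivation ℂ (RatF d n) (RatF d n) := ∑ i, (tv i : RatF d n) • pd (.inl i)

/-! ### Basic facts used to set up the `D_Z`-module structure -/

theorem pd_algebraMap (v : Fin (d + 1) ⊕ Fin (n + 1)) (p : Pol d n) :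
    pd v (algebraMap (Pol d n) (RatF d n) p) = algebraMap (Pol d n) (RatF d n) (pderiv v p) :=
  Classical.choose_spec (exists_pd v) p

theorem derivation_ext {D₁ D₂ : Derivation ℂ (RatF d n) (RatF d n)}
    (ht : ∀ i, D₁ (tv i) = D₂ (tv i)) (hz : ∀ j, D₁ (zv j) = D₂ (zv j)) : D₁ = D₂ := by
  have h : ∀ p : Pol d n, D₁ (algebraMap _ _ p) = D₂ (algebraMap _ _ p) := by
    intro p
    induction p using MvPolynomial.induction_on with
    | C a => rw [← algebraMap_eq, ← IsScalarTower.algebraMap_apply]; simp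
    | add p q hp hq => simp [hp, hq]
    | mul_X p v hp =>
      rw [map_mul, Derivation.leibniz, Derivation.leibniz, hp]
      rcases v with i | j
      · exact congrArg (fun x => _ • x + _) (ht i)
      · exact congrArg (fun x => _ • x + _) (hz j)
  ext g
  obtain ⟨a, b, -, rfl⟩ := IsFractionRing.div_surjective (Pol d n) g
  rw [Derivation.leibniz_div, Derivation.leibniz_div, h, h]

theorem pd_X (v w : Fin (d + 1) ⊕ Fin (n + 1)) :
    pd v (algebraMap (Pol d n) (RatF d n) (X w)) = if w = v then 1 else 0 := by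
  rw [pd_algebraMap, pderiv_X, Pi.single_apply]
  split_ifs <;> simp

theorem pd_t_tv (i k : Fin (d + 1)) : pd (.inl i) (tv k : RatF d n) = if k = i then 1 else 0 := by
  simp [tv, pd_X]

theorem pd_z_tv (j : Fin (n + 1)) (k : Fin (d + 1)) : pd (.inr j) (tv k : RatF d n) = 0 := by
  simp [tv, pd_X]

theorem pd_t_zv (i : Fin (d + 1)) (k : Fin (n + 1)) : pd (.inl i) (zv k : RatF d n) = 0 := by
  simp [zv, pd_X]

theorem pd_z_zv (j k : Fin (n + 1)) : pd (.inr j) (zv k : RatF d n) = if k = j then 1 else 0 := by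
  simp [zv, pd_X]

theorem pd_comm (v w : Fin (d + 1) ⊕ Fin (n + 1)) (g : RatF d n) :
    pd v (pd w g) = pd w (pd v g) := by
  have h : ⁅(pd v : Derivation ℂ (RatF d n) (RatF d n)), pd w⁆ = 0 := by
    apply derivation_ext <;> intro k <;>
      simp only [Derivation.commutator_apply, tv, zv, pd_X, Derivation.zero_apply] <;>
      split_ifs <;> simp
  have := Derivation.congr_fun h g
  rwa [Derivation.commutator_apply, Derivation.zero_apply, sub_eq_zero] at this

theorem pd_logDeriv_comm (v w : Fin (d + 1) ⊕ Fin (n + 1)) (g : RatF d n) :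
    pd v (pd w g / g) = pd w (pd v g / g) := by
  rw [Derivation.leibniz_div, Derivation.leibniz_div, pd_comm v w]
  simp only [smul_eq_mul]
  ring

/-- The action of `D_Z` on rational functions in which `z_j` acts by multiplication and `∂_j` acts
as `g ↦ ∂g/∂z_j + φ_j g`, for an integrable family `φ`. -/
def weylRep (φ : Fin (n + 1) → RatF d n) (hφ : ∀ i j, pd (.inr i) (φ j) = pd (.inr j) (φ i)) :
    Weyl n →ₐ[ℂ] Module.End ℂ (RatF d n) :=
  RingQuot.liftAlgHom ℂ ⟨FreeAlgebra.lift ℂ (Sum.elim (fun j => LinearMap.mulLeft ℂ (zv j))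
    (fun j => (pd (.inr j)).toLinearMap + LinearMap.mulLeft ℂ (φ j))), by
      rintro _ _ (⟨i, j⟩ | ⟨i, j⟩ | ⟨i, j⟩)
      · ext g; simp [mul_left_comm]
      · ext g
        simp [Derivation.leibniz, pd_comm (.inr i) (.inr j), hφ i j]
        ring
      · ext g
        by_cases h : i = j
        · subst h; simp [Derivation.leibniz, pd_z_zv]; ring
        · simp [h, Derivation.leibniz, pd_z_zv, Ne.symm h]; ring⟩

theorem weylRep_zOp (φ : Fin (n + 1) → RatF d n) (hφ) (j : Fin (n + 1)) (g : RatF d n) :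
    weylRep φ hφ (zOp j) g = zv j * g := by
  refine (LinearMap.congr_fun (RingQuot.liftAlgHom_mkAlgHom_apply ℂ _ _ _) g).trans ?_
  simp

theorem weylRep_dOp (φ : Fin (n + 1) → RatF d n) (hφ) (j : Fin (n + 1)) (g : RatF d n) :
    weylRep φ hφ (dOp j) g = pd (.inr j) g + φ j * g := by
  refine (LinearMap.congr_fun (RingQuot.liftAlgHom_mkAlgHom_apply ℂ _ _ _) g).trans ?_
  simp

theorem weyl_induction {motive : Weyl n → Prop} (hc : ∀ c : ℂ, motive (algebraMap ℂ _ c))
    (hz : ∀ j, motive (zOp j)) (hd : ∀ j, motive (dOp j))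
    (hmul : ∀ P Q, motive P → motive Q → motive (P * Q))
    (hadd : ∀ P Q, motive P → motive Q → motive (P + Q)) (P : Weyl n) : motive P := by
  obtain ⟨x, rfl⟩ := RingQuot.mkAlgHom_surjective ℂ (WeylRel n) P
  induction x using FreeAlgebra.induction with
  | grade0 c => rw [AlgHom.commutes]; exact hc c
  | grade1 v => rcases v with j | j; exacts [hz j, hd j]
  | mul a b ha hb => rw [map_mul]; exact hmul _ _ ha hb
  | add a b ha hb => rw [map_add]; exact hadd _ _ ha hb

theorem weylRep_comm (φ : Fin (n + 1) → RatF d n) (hφ) (T : Module.End ℂ (RatF d n))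
    (hz : ∀ j g, T (zv j * g) = zv j * T g)
    (hd : ∀ j g, T (pd (.inr j) g + φ j * g) = pd (.inr j) (T g) + φ j * T g)
    (P : Weyl n) (g : RatF d n) : T (weylRep φ hφ P g) = weylRep φ hφ P (T g) := by
  induction P using weyl_induction generalizing g with
  | hc c => simp [AlgHom.commutes]
  | hz j => rw [weylRep_zOp, weylRep_zOp, hz]
  | hd j => rw [weylRep_dOp, weylRep_dOp, hd]
  | hmul P Q hP hQ => simp only [map_mul, Module.End.mul_apply, hP, hQ]
  | hadd P Q hP hQ => simp only [map_add, LinearMap.add_apply, hP, hQ]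

theorem pd_z_ell (j k : Fin (n + 1)) : pd (.inr j) (ell A k) = 0 := by
  simp [ell, pd_z_tv]

theorem pd_t_ell (i : Fin (d + 1)) (k : Fin (n + 1)) :
    pd (.inl i) (ell A k) = algebraMap ℂ _ (A i k) := by
  simp [ell, pd_t_tv, Algebra.algebraMap_eq_smul_one]

theorem pd_z_ff (j : Fin (n + 1)) : pd (.inr j) (ff A) = (ell A j)⁻¹ := by
  simp [ff, div_eq_mul_inv, Derivation.leibniz_inv, pd_z_ell, pd_z_zv]

theorem euler_apply (g : RatF d n) : euler g = ∑ i, tv i * pd (.inl i) g := by
  have := congrFun (map_sum Derivation.coeFnAddMonoidHom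
    (fun i => (tv i : RatF d n) • (pd (.inl i) : Derivation ℂ (RatF d n) (RatF d n)))
    Finset.univ) g
  rw [Finset.sum_apply] at this
  exact this

theorem algebraMap_csmul (c : ℂ) (p : Pol d n) :
    algebraMap (Pol d n) (RatF d n) (c • p) = c • algebraMap (Pol d n) (RatF d n) p :=
  map_smul (IsScalarTower.toAlgHom ℂ (Pol d n) (RatF d n)) c p

theorem euler_algebraMap (p : Pol d n) : ∃ q : Pol d n,
    euler (algebraMap (Pol d n) (RatF d n) p) = algebraMap (Pol d n) (RatF d n) q ∧
      ∀ α, q.coeff α = (Finsupp.weight tWeight α : ℤ) * p.coeff α := by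
  refine ⟨∑ i, X (.inl i) * pderiv (.inl i) p, by simp [euler_apply, pd_algebraMap, tv],
    fun α => ?_⟩
  induction p using MvPolynomial.induction_on' with
  | monomial β c =>
    simp only [X_mul_pderiv_monomial, coeff_sum, coeff_smul, coeff_monomial]
    split_ifs with h
    · simp [h, Finsupp.weight_eq_sum, tWeight, Finset.sum_mul]
    · simp
  | add p q hp hq => simp only [map_add, mul_add, Finset.sum_add_distrib, coeff_add, hp, hq]

theorem isWeightedHomogeneous_iff (p : Pol d n) (k : ℤ) : p.IsWeightedHomogeneous tWeight k ↔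
    euler (algebraMap (Pol d n) (RatF d n) p) = (k : ℂ) • algebraMap (Pol d n) (RatF d n) p := by
  obtain ⟨q, h1, h2⟩ := euler_algebraMap p
  rw [h1, ← algebraMap_csmul, (IsFractionRing.injective (Pol d n) (RatF d n)).eq_iff,
    MvPolynomial.ext_iff]
  simp only [h2, coeff_smul, smul_eq_mul, mul_eq_mul_right_iff, Int.cast_inj]
  exact forall_congr' fun α => by tauto

/-- Euler's criterion for homogeneity. -/
theorem isHomogT_iff (m : ℤ) (g : RatF d n) : IsHomogT m g ↔ euler g = (m : ℂ) • g := by
  have hinj := IsFractionRing.injective (Pol d n) (RatF d n)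
  constructor
  · rintro ⟨a, b, k, l, hb, ha', hb', rfl, rfl⟩
    have := (map_ne_zero_iff _ hinj).2 hb
    rw [Derivation.leibniz_div, (isWeightedHomogeneous_iff _ _).1 ha',
      (isWeightedHomogeneous_iff _ _).1 hb']
    simp only [smul_eq_mul]
    simp only [Algebra.smul_def, Int.cast_sub, map_sub]
    field_simp
  · intro hg
    obtain ⟨a, b, hb, h⟩ := IsFractionRing.div_surjective (Pol d n) g
    replace hb := nonZeroDivisors.ne_zero hb
    induction hN : b.support.card using Nat.strong_induction_on generalizing a b with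
    | _ N ih =>
    have hb0 := (map_ne_zero_iff _ hinj).2 hb
    have hab : algebraMap (Pol d n) (RatF d n) a = g * algebraMap (Pol d n) (RatF d n) b := by
      rw [← h, div_mul_cancel₀ _ hb0]
    obtain ⟨β, hβ⟩ := support_nonempty.2 hb
    set l : ℤ := Finsupp.weight tWeight β with hl
    obtain ⟨a', ha1, -⟩ := euler_algebraMap a
    obtain ⟨b', hb1, hb2⟩ := euler_algebraMap b
    have key : algebraMap (Pol d n) (RatF d n) (a' - ((m + l : ℤ) : ℂ) • a) =
        g * algebraMap (Pol d n) (RatF d n) (b' - (l : ℂ) • b) := by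
      rw [map_sub, map_sub, algebraMap_csmul, algebraMap_csmul, ← ha1, ← hb1, hab,
        Derivation.leibniz, hg]
      simp only [smul_eq_mul]
      simp only [Algebra.smul_def, Int.cast_add, map_add]
      ring
    by_cases h0 : b' - (l : ℂ) • b = 0
    · refine ⟨a, b, m + l, l, hb, ?_, ?_, by ring, h.symm⟩
      · rw [h0, map_zero, mul_zero, map_sub, sub_eq_zero, algebraMap_csmul] at key
        rw [isWeightedHomogeneous_iff, ha1, key]
      · rw [isWeightedHomogeneous_iff, hb1, sub_eq_zero.1 h0, algebraMap_csmul]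
    · refine ih _ ?_ _ _ (by rw [key, mul_div_cancel_right₀ _ ((map_ne_zero_iff _ hinj).2 h0)])
        h0 rfl
      rw [← hN]
      refine Finset.card_lt_card ⟨fun α hα => ?_, fun hs => ?_⟩
      · rw [mem_support_iff] at hα ⊢
        exact fun h => hα (by simp [hb2, h])
      · exact mem_support_iff.1 (hs hβ) (by simp [hb2, hl])

theorem euler_tv (i : Fin (d + 1)) : euler (tv i : RatF d n) = tv i := by
  simp [euler_apply, pd_t_tv]

theorem euler_zv (j : Fin (n + 1)) : euler (zv j : RatF d n) = 0 := by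
  simp [euler_apply, pd_t_zv]

theorem euler_inv_of {g : RatF d n} {c : ℂ} (h : euler g = c • g) : euler g⁻¹ = -c • g⁻¹ := by
  rw [Derivation.leibniz_inv, h]
  by_cases hg : g = 0
  · simp [hg]
  · simp only [smul_eq_mul, Algebra.smul_def, map_neg]
    field_simp

theorem euler_ell_inv (j : Fin (n + 1)) : euler (ell A j)⁻¹ = -(1 : ℂ) • (ell A j)⁻¹ :=
  euler_inv_of (by simp [ell, euler_tv])

theorem euler_ff : euler (ff A) = -(1 : ℂ) • ff A := by
  simp [ff, div_eq_mul_inv, euler_ell_inv, euler_zv]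

theorem euler_pd_z (j : Fin (n + 1)) (g : RatF d n) :
    euler (pd (.inr j) g) = pd (.inr j) (euler g) := by
  simp [euler_apply, pd_z_tv, pd_comm (.inr j)]

theorem pd_z_mem_poleRing (j : Fin (n + 1)) {g : RatF d n} (hg : g ∈ poleRing A) :
    pd (.inr j) g ∈ poleRing A := by
  have hl : ∀ k, (ell A k)⁻¹ ∈ poleRing A := fun k => Algebra.subset_adjoin (by simp)
  have hf : (ff A)⁻¹ ∈ poleRing A := Algebra.subset_adjoin (by simp)
  induction hg using Algebra.adjoin_induction with
  | mem x hx =>
    rcases hx with ((⟨i, rfl⟩ | ⟨k, rfl⟩) | ⟨k, rfl⟩) | rfl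
    · simp [pd_z_tv]
    · rw [pd_z_zv]; split_ifs <;> simp
    · simp [Derivation.leibniz_inv, pd_z_ell]
    · rw [Derivation.leibniz_inv, pd_z_ff]
      exact mul_mem (neg_mem (pow_mem hf 2)) (hl j)
  | algebraMap c => simp
  | add x y _ _ hx hy => rw [map_add]; exact add_mem hx hy
  | mul x y hx' hy' hx hy =>
    rw [Derivation.leibniz]; exact add_mem (mul_mem hx' hy) (mul_mem hy' hx)

/-! ## The twisted relative de Rham complex as a complex of `D_Z`-modules -/

/-- `-(s + d + 1) (∂_j f / f)`. -/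
def twist (j : Fin (n + 1)) : RatF d n := -(sPar d u + (d + 1)) • (pd (.inr j) (ff A) / ff A)

theorem twist_integrable (i j : Fin (n + 1)) :
    pd (.inr i) (twist A u j) = pd (.inr j) (twist A u i) := by
  simp only [twist, Derivation.map_smul, pd_logDeriv_comm (.inr i) (.inr j)]

theorem nabla_comm (i : Fin (d + 1)) (P : Weyl n) (g : RatF d n) :
    pd (.inl i) (weylRep (twist A u) (twist_integrable A u) P g) +
        omegaCoef A u i * weylRep (twist A u) (twist_integrable A u) P g =
      weylRep (twist A u) (twist_integrable A u) P (pd (.inl i) g + omegaCoef A u i * g) := by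
  have h : ∀ j, pd (.inl i) (twist A u j) = pd (.inr j) (omegaCoef A u i) := fun j => by
    simp only [twist, omegaCoef, Derivation.map_smul, map_add, map_sum, pd_t_ell,
      pd_logDeriv_comm (.inl i) (.inr j)]
    simp [Derivation.leibniz_div, pd_z_ell]
  refine weylRep_comm _ _ ((pd (.inl i)).toLinearMap + LinearMap.mulLeft ℂ (omegaCoef A u i))
    (fun j g => ?_) (fun j g => ?_) P g
  · simp [pd_t_zv]; ring
  · simp [h, pd_comm (.inl i) (.inr j)]; ring

theorem weylRep_mem (c : ℂ) (P : Weyl n) (g : RatF d n)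
    (hg : g ∈ poleRing A ∧ euler g = c • g) :
    weylRep (twist A u) (twist_integrable A u) P g ∈ poleRing A ∧
      euler (weylRep (twist A u) (twist_integrable A u) P g) =
        c • weylRep (twist A u) (twist_integrable A u) P g := by
  induction P using weyl_induction generalizing g with
  | hc a =>
    rw [AlgHom.commutes, Module.algebraMap_end_apply]
    exact ⟨Subalgebra.smul_mem _ hg.1 a, by rw [Derivation.map_smul, hg.2, smul_comm]⟩
  | hz j =>
    rw [weylRep_zOp]
    exact ⟨mul_mem (Algebra.subset_adjoin (by simp)) hg.1, by simp [euler_zv, hg.2]⟩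
  | hd j =>
    rw [weylRep_dOp]
    have h1 : twist A u j ∈ poleRing A := by
      rw [twist, pd_z_ff, div_eq_mul_inv]
      exact Subalgebra.smul_mem _
        (mul_mem (Algebra.subset_adjoin (by simp)) (Algebra.subset_adjoin (by simp))) _
    have h2 : euler (twist A u j) = 0 := by
      simp [twist, pd_z_ff, div_eq_mul_inv, euler_ell_inv, euler_inv_of (euler_ff A), mul_comm]
    exact ⟨add_mem (pd_z_mem_poleRing A j hg.1) (mul_mem h1 hg.1),
      by simp [euler_pd_z, hg.2, h2]⟩
  | hmul P Q hP hQ => rw [map_mul]; exact hP _ (hQ _ hg)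
  | hadd P Q hP hQ =>
    rw [map_add, LinearMap.add_apply]
    exact ⟨add_mem (hP _ hg).1 (hQ _ hg).1, by rw [map_add, (hP _ hg).2, (hQ _ hg).2, smul_add]⟩

end

end Pool.Agent.P.MP_2f98db_ag
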