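import Pool.Agent.P.MP_2f98db_ag.Main

/-!
Transport of the main theorem from `FractionRing (Pol d n)` to any field of fractions `K`.
-/

open MvPolynomial

namespace Pool.Agent.P.MP_2f98db_ag

noncomputable section

variable {d n : ℕ}
variable (K : Type) [Field K] [Algebra (Pol d n) K] [IsFractionRing (Pol d n) K] [Algebra ℂ K]
  [IsScalarTower ℂ (Pol d n) K]

variable (d n) in
/-- The canonical isomorphism of the two fields of fractions. -/
def toK : RatF d n ≃ₐ[ℂ] K := (FractionRing.algEquiv (Pol d n) K).restrictScalars ℂ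

theorem toK_algebraMap (p : Pol d n) :
    toK d n K (algebraMap (Pol d n) (RatF d n) p) = algebraMap (Pol d n) K p :=
  (FractionRing.algEquiv (Pol d n) K).commutes p

theorem toK_tv (i : Fin (d + 1)) : toK d n K (tv i) = tc n K i := toK_algebraMap K _

theorem toK_zv (j : Fin (n + 1)) : toK d n K (zv j) = zc d K j := toK_algebraMap K _

theorem toK_pd (v : Fin (d + 1) ⊕ Fin (n + 1)) (g : RatF d n) :
    toK d n K (pd v g) = pdiff v (toK d n K g) := by
  have h1 := IsLocalization.sec_spec (nonZeroDivisors (Pol d n)) (toK d n K g)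
  unfold pdiff
  have hb : ((IsLocalization.sec (nonZeroDivisors (Pol d n)) (toK d n K g)).2 : Pol d n) ≠ 0 :=
    nonZeroDivisors.coe_ne_zero _
  generalize ((IsLocalization.sec (nonZeroDivisors (Pol d n)) (toK d n K g)).2 : Pol d n) = b
    at h1 hb ⊢
  generalize (IsLocalization.sec (nonZeroDivisors (Pol d n)) (toK d n K g)).1 = a at h1 ⊢
  have hbK : algebraMap (Pol d n) K b ≠ 0 := fun h =>
    hb (IsFractionRing.injective (Pol d n) K (h.trans (map_zero _).symm))
  have hbR : algebraMap (Pol d n) (RatF d n) b ≠ 0 := fun h =>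
    hb (IsFractionRing.injective (Pol d n) (RatF d n) (h.trans (map_zero _).symm))
  have h2 : g = algebraMap (Pol d n) (RatF d n) a / algebraMap (Pol d n) (RatF d n) b := by
    apply (toK d n K).injective
    rw [map_div₀, toK_algebraMap, toK_algebraMap, eq_div_iff hbK, h1]
  have h3 : pd v g = algebraMap (Pol d n) (RatF d n) (pderiv v a * b - a * pderiv v b) /
      algebraMap (Pol d n) (RatF d n) (b ^ 2) := by
    rw [h2, Derivation.leibniz_div, pd_algebraMap, pd_algebraMap]
    simp only [smul_eq_mul, map_sub, map_mul, map_pow]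
    field_simp
  rw [h3, map_div₀, toK_algebraMap, toK_algebraMap]
  rfl

theorem toK_pd_t (i : Fin (d + 1)) (g : RatF d n) :
    toK d n K (pd (.inl i) g) = dt n i (toK d n K g) := toK_pd K _ g

theorem toK_pd_z (j : Fin (n + 1)) (g : RatF d n) :
    toK d n K (pd (.inr j) g) = dz d j (toK d n K g) := toK_pd K _ g

variable (A : Matrix (Fin (d + 1)) (Fin (n + 1)) ℂ) (u : Fin (n + 1) → ℂ)

theorem toK_ell (j : Fin (n + 1)) : toK d n K (ell A j) = lin K A j := by
  simp only [ell, lin, map_sum, map_smul, toK_tv]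

theorem toK_ff : toK d n K (ff A) = fn K A := by
  simp only [ff, fn, map_sum, map_div₀, toK_zv, toK_ell]

theorem toK_omegaCoef (i : Fin (d + 1)) : toK d n K (omegaCoef A u i) = omCoef K A u i := by
  simp only [omegaCoef, omCoef, map_add, map_sum, map_smul, map_div₀, toK_pd_t, toK_ell, toK_ff]

theorem toK_mem_poles (g : RatF d n) : toK d n K g ∈ poles K A ↔ g ∈ poleRing A := by
  have h : poles K A = (poleRing A).map (toK d n K : RatF d n →ₐ[ℂ] K) := by
    rw [poleRing, AlgHom.map_adjoin, poles]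
    congr 1
    simp only [Set.image_union, Set.image_singleton, ← Set.range_comp, AlgEquiv.coe_toAlgHom,
      AlgHom.coe_coe, map_inv₀, toK_ff, Function.comp_def, toK_tv, toK_zv, toK_ell]
  rw [h, Subalgebra.mem_map]
  constructor
  · rintro ⟨x, hx, hxg⟩
    rwa [← (toK d n K).injective hxg]
  · exact fun hg => ⟨g, hg, rfl⟩

theorem toK_homog (m : ℤ) (g : RatF d n) : Homog d n m (toK d n K g) ↔ IsHomogT m g := by
  unfold Homog IsHomogT
  refine exists_congr fun a => exists_congr fun b => exists_congr fun k => exists_congr fun l =>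
    and_congr_right fun _ => and_congr_right fun _ => and_congr_right fun _ =>
    and_congr_right fun _ => ?_
  rw [← toK_algebraMap K a, ← toK_algebraMap K b, ← map_div₀, (toK d n K).injective.eq_iff]

/-- Transport of forms. -/
def formK (η : Form d n) : Finset (Fin (d + 1)) → K := fun I => toK d n K (η I)

theorem formK_surj (η : Finset (Fin (d + 1)) → K) : ∃ ξ : Form d n, formK K ξ = η :=
  ⟨fun I => (toK d n K).symm (η I), funext fun I => (toK d n K).apply_symm_apply _⟩

theorem formK_inj {ξ ζ : Form d n} : formK K ξ = formK K ζ ↔ ξ = ζ :=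
  ⟨fun h => funext fun I => (toK d n K).injective (congrFun h I), fun h => h ▸ rfl⟩

theorem formK_zero : formK K (0 : Form d n) = 0 := funext fun _ => map_zero (toK d n K)

theorem formK_add (ξ ζ : Form d n) : formK K (ξ + ζ) = formK K ξ + formK K ζ :=
  funext fun _ => map_add (toK d n K) _ _

theorem conn_formK (η : Form d n) : conn A u (formK K η) = formK K (nabla A u η) := by
  funext I
  simp only [conn, formK, nabla, map_sum, map_smul, map_add, map_mul, toK_pd_t, toK_omegaCoef]

theorem contr_formK (η : Form d n) : contr n (formK K η) = formK K (contract η) := by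
  funext I
  simp only [contr, formK, contract, map_sum, map_smul, map_mul, toK_tv]

theorem inOm_formK (hor : Bool) (p : ℤ) (η : Form d n) :
    InOm A hor p (formK K η) ↔ InOmega A hor p η := by
  unfold InOm InOmega
  rw [contr_formK, ← formK_zero (n := n) K, formK_inj]
  simp only [formK, map_eq_zero, toK_mem_poles, toK_homog]

theorem gen_eq : gen K A = formK K (genForm A) := by
  funext I
  simp only [gen, formK, genForm, map_sum]
  refine Finset.sum_congr rfl fun i _ => ?_
  split_ifs
  · simp only [map_mul, map_pow, map_neg, map_one, toK_ff, toK_tv]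
  · exact (map_zero _).symm

/-- Transport of an action of the Weyl algebra. -/
def repK (ρ : Weyl n →ₐ[ℂ] Module.End ℂ (RatF d n)) : Weyl n →ₐ[ℂ] Module.End ℂ K :=
  ((toK d n K).toLinearEquiv.conjAlgEquiv ℂ : Module.End ℂ (RatF d n) →ₐ[ℂ] Module.End ℂ K).comp ρ

theorem act_formK (ρ : Weyl n →ₐ[ℂ] Module.End ℂ (RatF d n)) (P : Weyl n) (η : Form d n) :
    act (repK K ρ) P (formK K η) = formK K (fun I => ρ P (η I)) := by
  funext I
  simp [act, repK, formK, LinearEquiv.conjAlgEquiv_apply]

theorem transport (hor : Bool) (h : Concl A u hor) :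
    ∃ ρ : Weyl n →ₐ[ℂ] Module.End ℂ K,
      (∀ j η, act ρ (zOp j) η = fun I : Finset (Fin (d + 1)) => zc d K j * η I) ∧
      (∀ j η, act ρ (dOp j) η = fun I : Finset (Fin (d + 1)) =>
        dz d j (η I) - (sPar d u + (d + 1)) • (dz d j (fn K A) / fn K A * η I)) ∧
      (∀ P p η, InOm A hor p η → InOm A hor p (act ρ P η)) ∧
      (∀ P η, conn A u (act ρ P η) = act ρ P (conn A u η)) ∧
      (InOm A hor d (gen K A) ∧ conn A u (gen K A) = 0) ∧
      (∀ P, (∃ β, InOm A hor (d - 1) β ∧ conn A u β = act ρ P (gen K A)) ↔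
        P ∈ hyperIdeal A u) ∧
      (∀ η, InOm A hor d η → conn A u η = 0 →
        ∃ P β, InOm A hor (d - 1) β ∧ η = act ρ P (gen K A) + conn A u β) := by
  obtain ⟨ρ, h1, h2, h3, h4, ⟨h5, h5'⟩, h6, h7⟩ := h
  refine ⟨repK K ρ, fun j η => ?_, fun j η => ?_, fun P p η => ?_, fun P η => ?_, ⟨?_, ?_⟩,
    fun P => ?_, fun η => ?_⟩
  · obtain ⟨ξ, rfl⟩ := formK_surj (n := n) K η
    rw [act_formK]
    funext I
    simp only [formK, h1, map_mul, toK_zv]
  · obtain ⟨ξ, rfl⟩ := formK_surj (n := n) K η
    rw [act_formK]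
    funext I
    simp only [formK, h2, map_sub, map_smul, map_mul, map_div₀, toK_pd_z, toK_ff]
  · obtain ⟨ξ, rfl⟩ := formK_surj (n := n) K η
    rw [act_formK, inOm_formK, inOm_formK]
    exact h3 P p ξ
  · obtain ⟨ξ, rfl⟩ := formK_surj (n := n) K η
    rw [act_formK, conn_formK, conn_formK, act_formK, h4]
  · rw [gen_eq, inOm_formK]; exact h5
  · rw [gen_eq, conn_formK, h5', formK_zero]
  · rw [← h6 P, gen_eq, act_formK]
    constructor
    · rintro ⟨β, hβ, hβ'⟩
      obtain ⟨ξ, rfl⟩ := formK_surj (n := n) K β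
      rw [inOm_formK] at hβ
      rw [conn_formK, formK_inj] at hβ'
      exact ⟨ξ, hβ, hβ'⟩
    · rintro ⟨β, hβ, hβ'⟩
      exact ⟨formK K β, (inOm_formK K A hor _ β).2 hβ, by rw [conn_formK, hβ']⟩
  · obtain ⟨ξ, rfl⟩ := formK_surj (n := n) K η
    rw [inOm_formK, conn_formK, ← formK_zero (n := n) K, formK_inj]
    intro a b
    obtain ⟨P, β, hβ, hβ'⟩ := h7 ξ a b
    refine ⟨P, formK K β, (inOm_formK K A hor _ β).2 hβ, ?_⟩
    rw [gen_eq, act_formK, conn_formK, ← formK_add, ← hβ']

end

end Pool.Agent.P.MP_2f98db_ag
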